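import Pool.Agent.H3P.Elim2

/-!
# H3P/Elim2D : state 2, the table

PROOF of `s2_der`.  For fixed `j, s`: `uniY` with `Y = ℕ ⊕ ℕ` (`inl i` are the vertices of the digon walk, `inr i = y i`),
constraint `w 0 = a t`, `y s = E c a`, `∀ i < s, D (y i) (y (i+1))`, arcs `w i ↔ w (i+1)` for `i < j`, `w j ↔ y 0`,
`E → w j`, `E → y 0` (here `a = w j`, `b = y 0`) turns `s2_step` into `S2 j s`, with `5 * (4 s) ≤ 20 (L + 1)`
operations.  Then `Der.table` over `s ≤ L` and, for every `s`, `Der.table` over `j ≤ 2 L`.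
-/

namespace H3P

open HJ71

section

variable {V X C : Type} {D : V → V → Prop} {F : X → X → Prop} {m L : ℕ}
  {P A : Dsc V X C → Dsc V X C → Prop} {t f : X} {E : Dsc V X C}

/-- a further name as a description -/
def nm {V X C Y : Type} (k : Y) : C → (X → V) → (Y → V) → V := fun _ _ y => y k

/-- a description without further names -/
def ds {V X C Y : Type} (E : Dsc V X C) : C → (X → V) → (Y → V) → V := fun c a _ => E c a

/-- the arcs of the universal instance of state 2 -/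
inductive B2 {V X C : Type} (E : Dsc V X C) (j : ℕ) :
    (C → (X → V) → (ℕ ⊕ ℕ → V) → V) → (C → (X → V) → (ℕ ⊕ ℕ → V) → V) → Prop
  | p1 (i : ℕ) (hi : i < j) : B2 E j (nm (Sum.inl i)) (nm (Sum.inl (i + 1)))
  | p2 (i : ℕ) (hi : i < j) : B2 E j (nm (Sum.inl (i + 1))) (nm (Sum.inl i))
  | d1 : B2 E j (nm (Sum.inl j)) (nm (Sum.inr 0))
  | d2 : B2 E j (nm (Sum.inr 0)) (nm (Sum.inl j))
  | e1 : B2 E j (ds E) (nm (Sum.inl j))
  | e2 : B2 E j (ds E) (nm (Sum.inr 0))

theorem s2_uni (hm : 0 < m) {l : List Dig} (hb : Bas l) {j s n : ℕ}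
    (h : ∀ (Γ : Ctx V X) (κ : Γ.K → C) (H : (Γ.Ω → V) → (Γ.Ω → V) → Prop),
      Inst D F m P A Γ κ H → ∀ (a b : Γ.Ω → V) (y : ℕ → Γ.Ω → V), DW H j (Γ.el κ (rol t)) a →
        H a b → H b a → H (Γ.el κ E) a → H (Γ.el κ E) b → y 0 = b → y s = Γ.el κ E →
        (∀ i < s, ∀ ω, D (y i ω) (y (i + 1) ω)) → Prf l n H) :
    ∃ l', Ext (5 * n) l l' ∧ S2 D F m P A t E j s l' := by
  obtain ⟨l', e', h'⟩ := uniY (Y := ℕ ⊕ ℕ) (D := D) (F := F) (P := P) (A := A) (n := n) hm hb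
    (fun c a y => y (Sum.inl 0) = a t ∧ y (Sum.inr s) = E c a ∧
      ∀ i < s, D (y (Sum.inr i)) (y (Sum.inr (i + 1)))) (B2 E j) (by
    intro Γ κ H hi y hy hB
    refine h Γ κ H hi (y (Sum.inl j)) (y (Sum.inr 0)) (fun i => y (Sum.inr i))
      ⟨fun i => y (Sum.inl i), ?_, rfl, fun i hij => ⟨?_, ?_⟩⟩ ?_ ?_ ?_ ?_ rfl ?_ ?_
    · exact funext fun ω => (hy ω).1
    · exact hB _ _ (B2.p1 i hij)
    · exact hB _ _ (B2.p2 i hij)
    · exact hB _ _ B2.d1
    · exact hB _ _ B2.d2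
    · exact hB _ _ B2.e1
    · exact hB _ _ B2.e2
    · exact funext fun ω => (hy ω).2.1
    · exact fun i hi ω => (hy ω).2.2 i hi)
  refine ⟨l', e', ?_⟩
  intro Γ κ H hi a b y h1 h2 h3 h4 h5 h6 h7 h8
  obtain ⟨w, w0, wj, hw⟩ := h1
  refine h' Γ κ H hi (Sum.elim w y) (fun ω => ⟨?_, ?_, ?_⟩) ?_
  · exact congrFun w0 ω
  · exact congrFun h7 ω
  · exact fun i hi => h8 i hi ω
  · intro E1 E2 hE
    cases hE with
    | p1 i hi => exact (hw i hi).1
    | p2 i hi => exact (hw i hi).2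
    | d1 =>
      show H (w j) (y 0)
      rw [wj, h6]; exact h2
    | d2 =>
      show H (y 0) (w j)
      rw [wj, h6]; exact h3
    | e1 =>
      show H (Γ.el κ E) (w j)
      rw [wj]; exact h4
    | e2 =>
      show H (Γ.el κ E) (y 0)
      rw [h6]; exact h5

theorem s2_der (hm : m = 2 * L + 2) (htf : F t f) (hft : F f t) :
    Der (20 * (L + 1) ^ 2 * (2 * L + 1)) (Pre2 D F m P A t f E)
      (fun l => ∀ s < L + 1, ∀ j, j + s ≤ 2 * L → S2 D F m P A t E j s l) := by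
  have hmon : Mon (Pre2 D F m P A t f E) := Pre2.mon D F m P A t f E
  have hQ : ∀ s, Mon (fun l => ∀ j, j + s ≤ 2 * L → S2 D F m P A t E j s l) := fun s =>
    Mon.all fun j => Mon.imp (S2.mon D F m P A t E j s)
  have key := Der.table (c := (2 * L + 1) * (5 * (4 * (L + 1)))) (P := Pre2 D F m P A t f E)
    (Q := fun s l => ∀ j, j + s ≤ 2 * L → S2 D F m P A t E j s l) hmon hQ (L + 1) (by
    intro s hs
    have t2 := Der.table (c := 5 * (4 * (L + 1)))
      (P := fun l => Pre2 D F m P A t f E l ∧ ∀ s' < s, ∀ j, j + s' ≤ 2 * L →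
        S2 D F m P A t E j s' l)
      (Q := fun j l => j + s ≤ 2 * L → S2 D F m P A t E j s l)
      (hmon.and (Mon.all fun s' => Mon.imp (hQ s')))
      (fun j => Mon.imp (S2.mon D F m P A t E j s)) (2 * L + 1) (by
      intro j hj l hb hl
      by_cases hjs : j + s ≤ 2 * L
      · obtain ⟨l', e', h'⟩ := s2_uni (D := D) (F := F) (P := P) (A := A) (t := t) (E := E)
          (m := m) (n := 4 * s) (by omega) hb (j := j) (s := s)
          (fun Γ κ H hi a b y h1 h2 h3 h4 h5 h6 h7 h8 =>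
            s2_step hm htf hft hb hl.1.1 hjs (fun j' s' hs' hjs' => hl.1.2 s' hs' j' hjs') hi a b y
              h1 h2 h3 h4 h5 h6 h7 h8)
        exact ⟨l', e'.up (by omega), fun _ => h'⟩
      · exact ⟨l, Ext.refl.up (Nat.zero_le _), fun h => absurd h hjs⟩)
    exact t2.post (fun l _ h j hj => h j (by omega) hj))
  exact key.up (by
    have : (L + 1) * ((2 * L + 1) * (5 * (4 * (L + 1)))) = 20 * (L + 1) ^ 2 * (2 * L + 1) := by ring
    omega)

end

end H3P
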