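import Pool.Agent.H3P.Elim1D
import Pool.Agent.H3P.Elim2D

/-!
# H3P/Branch : the branching rule

PROOF of `branch`.  `s2_der`, then `s1_der` (`Der.keep`, `Der.trans`, `Der.pre`), then `Z D F m P A l` from `S1 0 L`: for an
instance take `a = t`, `b = f` (the digon of `Inst.tf`), `DW.zero`, and a `D`-walk `z` of length `L` from `e` to `f`.
`20 (L+1)^2 (2L+1) + 10 (L+1)^3 ≤ 50 (L+1)^3`.
-/

namespace H3P

open HJ71

/-- the price of the branching rule -/
def BC (L : ℕ) : ℕ := 50 * (L + 1) ^ 3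

section

variable {V X C : Type} {D : V → V → Prop} {F : X → X → Prop} {m L : ℕ}
  {t f : X}

/-- THE BRANCHING RULE: every element is joined to `t` or to `f` by a digon walk of length `m` -/
theorem branch (hm : m = 2 * L + 2) (hW : Wlk D L) (htf : F t f) (hft : F f t)
    (P A : Dsc V X C → Dsc V X C → Prop) (E : Dsc V X C) :
    Der (BC L) (fun l => Z D F m (Add P E (rol t)) A l ∧ Z D F m (Add P E (rol f)) A l)
      (Z D F m P A) := by
  have h2 : Der (20 * (L + 1) ^ 2 * (2 * L + 1)) (Pre2 D F m P A t f E)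
      (fun l => ∀ s < L + 1, ∀ j, j + s ≤ 2 * L → S2 D F m P A t E j s l) := s2_der hm htf hft
  have h1 : Der (10 * (L + 1) ^ 3)
      (fun l => Pre2 D F m P A t f E l ∧ ∀ j, j ≤ L → S2 D F m P A t E j L l)
      (fun l => ∀ s < L + 1, ∀ j, j + s ≤ L → S1 D F m P A t E j s l) := s1_der hm hW htf hft
  have h3 : Der (20 * (L + 1) ^ 2 * (2 * L + 1)) (Pre2 D F m P A t f E)
      (fun l => Pre2 D F m P A t f E l ∧ ∀ j, j ≤ L → S2 D F m P A t E j L l) :=
    (Der.keep (Pre2.mon D F m P A t f E) h2).post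
      (fun l _ h => ⟨h.1, fun j hj => h.2 L (by omega) j (by omega)⟩)
  have h5 : Der (20 * (L + 1) ^ 2 * (2 * L + 1) + 10 * (L + 1) ^ 3) (Pre2 D F m P A t f E)
      (Z D F m P A) := by
    refine (h3.trans h1).post fun l _ h Γ κ H hi => ?_
    obtain ⟨z, h0, hL, hz⟩ := hW.el le_rfl (Γ.el κ E) (Γ.el κ (rol f))
    exact h L (by omega) 0 (by omega) Γ κ H hi (Γ.el κ (rol t)) (Γ.el κ (rol f)) z DW.zero
      (hi.ofF fun _ => htf) (hi.ofF fun _ => hft) h0 hL hz
  refine Der.up h5 ?_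
  unfold BC
  nlinarith [Nat.zero_le L, Nat.zero_le (L ^ 2), Nat.zero_le (L ^ 3)]

end

end H3P
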