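import Pool.Agent.H3P.Ctx

/-!
# H3P/Lad : the ladder, and the rule three Boolean functions which are never all equal

Ladder: names `0, 1, 2, 3`, digons `01, 12, 23`, arcs `0 → 2`, `1 → 3`; true `= 0`, false `= 1`.
The colour classes are `{0, 2}` (true) and `{1, 3}` (false).
-/

namespace H3P

open HJ71

/-- the ladder -/
def Lad (x y : Fin 4) : Prop := x.val + 1 = y.val ∨ y.val + 1 = x.val ∨ x.val + 2 = y.val

instance : DecidableRel Lad := fun x y => by unfold Lad; infer_instance

theorem Lad.tf : Lad 0 1 := by decide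
theorem Lad.ft : Lad 1 0 := by decide

/-- a directed triangle whose three vertices are joined to the same vertex by digon walks of the same
length closes with one cut -/
theorem tri {W : Type} {H : W → W → Prop} {l : List Dig} {K r : ℕ} (ho : OddC K l)
    (hr : 2 * r + 1 ≤ K) {x s0 s1 s2 : W} (h01 : H s0 s1) (h12 : H s1 s2) (h20 : H s2 s0)
    (d0 : DW H r s0 x) (d1 : DW H r s1 x) (d2 : DW H r s2 x) : Prf l 1 H := by
  refine Prf.cut (n₁ := 0) (n₂ := 0) s1 s0 s2 (by omega) h12 (Prf.ax ?_) (Prf.ax ?_)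
  · refine ho.use (r := 1 + (r + r)) (by omega) (by omega) (x := s0) ?_
    exact (DW.one (Add.old h01) Add.new).trans
      ((d1.le fun _ _ => Add.old).trans (d0.symm.le fun _ _ => Add.old))
  · refine ho.use (r := 1 + (r + r)) (by omega) (by omega) (x := s0) ?_
    exact (DW.one Add.new (Add.old h20)).trans
      ((d2.le fun _ _ => Add.old).trans (d0.symm.le fun _ _ => Add.old))

/-- the names of the triangle -/
def ns (β : Fin 3 → Bool) (i : Fin 3) : Fin 4 :=
  if β i then (if β (i + 1) then 0 else 2) else (if β (i + 1) && !β (i + 2) then 3 else 1)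

/-- the names of the copies -/
def nc (b : Bool) : Fin 4 := if b then 1 else 2

theorem ns_tri : ∀ β : Fin 3 → Bool, ¬ (β 0 = β 1 ∧ β 1 = β 2) → ∀ i, Lad (ns β i) (ns β (i + 1)) := by
  decide

theorem nc_lit : ∀ b : Bool, Lad (sg 0 1 b) (nc b) ∧ Lad (nc b) (sg 0 1 b) := by decide

theorem nc_ns : ∀ (β : Fin 3 → Bool) (i : Fin 3),
    Lad (nc (β i)) (ns β i) ∧ Lad (ns β i) (nc (β i)) := by decide

/-- three Boolean functions which are never all equal have not all the same colour -/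
theorem nae {V C : Type} {D : V → V → Prop} {m K : ℕ} {P A : Dsc V (Fin 4) C → Dsc V (Fin 4) C → Prop}
    {Γ : Ctx V (Fin 4)} {κ : Γ.K → C} {H : (Γ.Ω → V) → (Γ.Ω → V) → Prop} {l : List Dig}
    (ho : OddC K l) (hK : 2 * m + 5 ≤ K) (hi : Inst D Lad m P A Γ κ H) (b : Fin 3 → C → Bool)
    (hb : ∀ c, ¬ (b 0 c = b 1 c ∧ b 1 c = b 2 c)) (s : Bool)
    (hs : ∀ i, DW H m (Γ.el κ (lit 0 1 (b i))) (Γ.el κ (rol (sg 0 1 s)))) : Prf l 1 H := by
  have htri : ∀ i, H (Γ.el κ (rf fun c => ns (fun j => b j c) i))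
      (Γ.el κ (rf fun c => ns (fun j => b j c) (i + 1))) := fun i =>
    hi.ofF fun c => ns_tri (fun j => b j c) (hb c) i
  have hd : ∀ i, DW H (m + 2) (Γ.el κ (rf fun c => ns (fun j => b j c) i))
      (Γ.el κ (rol (sg 0 1 s))) := by
    intro i
    have h1 : DW H 1 (Γ.el κ (rf fun c => ns (fun j => b j c) i)) (Γ.el κ (rf fun c => nc (b i c))) :=
      DW.one (hi.ofF fun c => (nc_ns (fun j => b j c) i).2)
        (hi.ofF fun c => (nc_ns (fun j => b j c) i).1)
    have h2 : DW H 1 (Γ.el κ (rf fun c => nc (b i c))) (Γ.el κ (lit 0 1 (b i))) :=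
      DW.one (hi.ofF fun c => (nc_lit (b i c)).2) (hi.ofF fun c => (nc_lit (b i c)).1)
    exact ((h1.trans h2).trans (hs i)).cast (by omega)
  have h0 := htri 0
  have h1 := htri 1
  have h2 := htri 2
  exact tri ho (r := m + 2) (by omega) h0 h1 h2 (hd 0) (hd 1) (hd 2)

end H3P
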