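import Pool.Agent.H3P.XF
import Pool.Agent.H3P.Lad

/-!
# H3P/Cl1 : the rule for three literals, for the ladder

PROOF of `cl1_core`.  `u β := !x_0 && !x_1` (`x_i = xl τ i`).  `branch` with `E = lit u`:
* branch `rol f`: the three functions `x_0, x_1, u` are never all equal (`x_0 = x_1 = true` gives `u = false`,
  `x_0 = x_1 = false` gives `u = true`) and all have a path to `f`: `nae` with `s = false` and `uniZ` (`n = 1`, 5 operations).
* branch `rol t`: `branch` with `E = lit (!u)`: the branch `rol t` closes by `OddC` (`lit u ~ t ~ lit (!u) - lit u`, length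
  `2 m + 1`); in the branch `rol f` the three functions `!u, x_2, false` are never all equal (if `!u = false` then
  `x_0 = x_1 = false`, so `x_2 = true` by `xl_or`) and all have a path to `f` (for the constant function `false`:
  `lit_false`, `Inst.even` with `2 k = m`): `nae` and `uniZ`.
Total `2 BC + 10`.
PROOF of `clause1`: `Der.fin` over the 8 functions `τ`, `cl1_core` and `xfacts`.
-/

namespace H3P

open HJ71

private theorem uniDer {V X C : Type} {D : V → V → Prop} {F : X → X → Prop} {m K : ℕ}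
    {P A : Dsc V X C → Dsc V X C → Prop} (hm : 0 < m)
    (h : ∀ l, OddC K l → ∀ (Γ : Ctx V X) (κ : Γ.K → C) (H : (Γ.Ω → V) → (Γ.Ω → V) → Prop),
      Inst D F m P A Γ κ H → Prf l 1 H) : Der 5 (OddC K) (Z D F m P A) := by
  intro l hb ho
  obtain ⟨l', h1, h2⟩ := uniZ (n := 1) hm hb (h l ho)
  exact ⟨l', h1, h2⟩

/-- `!x_0 && !x_1` -/
private def uu (τ : Fin 3 → Bool) : Cτ τ → Bool := fun β => !xl τ 0 β && !xl τ 1 β

theorem cl1_core {V : Type} {D : V → V → Prop} {m L K : ℕ} (hm : m = 2 * L + 2) (hW : Wlk D L)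
    (hK : 2 * m + 5 ≤ K) (τ : Fin 3 → Bool) :
    Der (2 * BC L + 10) (OddC K) (Z D Lad m (PX (V := V) 0 1 τ) Nil) := by
  have hm0 : 0 < m := by omega
  set P : Dsc V (Fin 4) (Cτ τ) → Dsc V (Fin 4) (Cτ τ) → Prop := PX (V := V) 0 1 τ with hP
  set U : Dsc V (Fin 4) (Cτ τ) := lit 0 1 (uu τ) with hU
  set U' : Dsc V (Fin 4) (Cτ τ) := lit 0 1 (fun β => !uu τ β) with hU'
  -- the branch `rol f` of the first branching
  have q1 : Der 5 (OddC K) (Z D Lad m (Add P U (rol 1)) Nil) := by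
    refine uniDer hm0 fun l ho Γ κ H hi => ?_
    refine nae ho hK hi ![xl τ 0, xl τ 1, uu τ] ?_ false ?_
    · intro β h
      simp only [Matrix.cons_val_zero, Matrix.cons_val_one, Matrix.cons_val] at h
      obtain ⟨h1, h2⟩ := h
      revert h1 h2
      simp only [uu]
      cases xl τ 0 β <;> cases xl τ 1 β <;> simp
    · intro i
      have hi3 : i = 0 ∨ i = 1 ∨ i = 2 := by omega
      rcases hi3 with rfl | rfl | rfl
      · exact hi.pth _ _ (Or.inl (Or.inr ⟨0, rfl, rfl⟩))
      · exact hi.pth _ _ (Or.inl (Or.inr ⟨1, rfl, rfl⟩))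
      · exact hi.pth _ _ (Or.inr ⟨rfl, rfl⟩)
  -- the branch `rol f` of the second branching
  have q2 : Der 5 (OddC K) (Z D Lad m (Add (Add P U (rol 0)) U' (rol 1)) Nil) := by
    refine uniDer hm0 fun l ho Γ κ H hi => ?_
    refine nae ho hK hi ![fun β => !uu τ β, xl τ 2, fun _ => false] ?_ false ?_
    · intro β h
      simp only [Matrix.cons_val_zero, Matrix.cons_val_one, Matrix.cons_val] at h
      obtain ⟨h1, h2⟩ := h
      have h3 := xl_or τ β
      revert h1 h2 h3
      simp only [uu]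
      cases xl τ 0 β <;> cases xl τ 1 β <;> cases xl τ 2 β <;> simp
    · intro i
      have hi3 : i = 0 ∨ i = 1 ∨ i = 2 := by omega
      rcases hi3 with rfl | rfl | rfl
      · exact hi.pth _ _ (Or.inr ⟨rfl, rfl⟩)
      · exact hi.pth _ _ (Or.inl (Or.inl (Or.inr ⟨2, rfl, rfl⟩)))
      · exact (hi.even Lad.tf Lad.ft (fun _ => false) (L + 1)).cast (by omega)
  -- the branch `rol t` of the second branching
  have q3 : ∀ l, OddC K l → Z D Lad m (Add (Add P U (rol 0)) U' (rol 0)) Nil l := by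
    intro l ho Γ κ H hi
    have h1 : DW H m (Γ.el κ U) (Γ.el κ (rol 0)) := hi.pth _ _ (Or.inl (Or.inr ⟨rfl, rfl⟩))
    have h2 : DW H m (Γ.el κ U') (Γ.el κ (rol 0)) := hi.pth _ _ (Or.inr ⟨rfl, rfl⟩)
    refine ho.use (r := m + m + 1) (by omega) (by omega) (x := Γ.el κ U) ?_
    exact (h1.trans h2.symm).trans (hi.neg Lad.tf Lad.ft (uu τ) (fun β => !uu τ β) fun _ => rfl).symm
  have d1 : Der (5 + BC L) (OddC K) (Z D Lad m (Add P U (rol 0)) Nil) := by
    refine ((Der.keep (OddC.mon K) q2).post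
      (Q' := fun l => Z D Lad m (Add (Add P U (rol 0)) U' (rol 0)) Nil l ∧
        Z D Lad m (Add (Add P U (rol 0)) U' (rol 1)) Nil l) (fun l _ hl => ⟨q3 l hl.1, hl.2⟩)).trans ?_
    exact branch hm hW Lad.tf Lad.ft _ Nil U'
  have d2 := Der.and (OddC.mon K) (Z.mon _ _ _ _ _) d1 q1
  exact (d2.trans (branch hm hW Lad.tf Lad.ft P Nil U)).up (by omega)

theorem clause1 {V : Type} {D : V → V → Prop} {m L K : ℕ} (hm : m = 2 * L + 2) (hW : Wlk D L)
    (hK : 2 * m + 5 ≤ K) : Der (8 * (5 * BC L + 10)) (OddC K) (CR D Lad 0 1 m) := by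
  have h := Der.fin (ι := Fin 3 → Bool) (c := 5 * BC L + 10) (P := OddC K)
    (Q := fun τ => Z D Lad m (Pτ (V := V) 0 1 τ) Nil) (OddC.mon K) (fun τ => Z.mon _ _ _ _ _)
    (fun τ => ((Der.keep (OddC.mon K) (cl1_core hm hW hK τ)).trans
      (xfacts hm hW hK Lad.tf Lad.ft τ)).up (by omega))
  have hc : Fintype.card (Fin 3 → Bool) = 8 := by simp
  rw [hc] at h
  exact h

end H3P
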