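import Pool.Agent.H3P.WL

/-!
# H3P/One3 : the rules for three Boolean functions of which always exactly one is true (second pattern)

Names `x1 = 0`, `x2 = 1`, `b = 2`; true `= 2`, false `= 0`.
-/

namespace H3P

open HJ71

/-- exactly one is true -/
def Ex1 (β : Fin 3 → Bool) : Prop := ∃ i, β i = true ∧ β (i + 1) = false ∧ β (i + 2) = false

instance : DecidablePred Ex1 := fun β => by unfold Ex1; infer_instance

/-- the names of the triangle -/
def os (β : Fin 3 → Bool) (i : Fin 3) : Fin 3 := if β i then 2 else if β (i + 2) then 0 else 1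

/-- the names of the copies -/
def oc (b : Bool) : Fin 3 := if b then 0 else 2

theorem os_tri : ∀ β : Fin 3 → Bool, Ex1 β → ∀ i, Tri (os β i) (os β (i + 1)) := by decide

theorem oc_lit : ∀ b : Bool, Tri (sg 2 0 b) (oc b) ∧ Tri (oc b) (sg 2 0 b) := by decide

theorem oc_os : ∀ (β : Fin 3 → Bool) (i : Fin 3),
    Tri (oc (β i)) (os β i) ∧ Tri (os β i) (oc (β i)) := by decide

section

variable {V C : Type} {D : V → V → Prop} {m K L : ℕ} {P A : Dsc V (Fin 3) C → Dsc V (Fin 3) C → Prop}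
  {Γ : Ctx V (Fin 3)} {κ : Γ.K → C} {H : (Γ.Ω → V) → (Γ.Ω → V) → Prop} {l : List Dig}

theorem os_walk (hi : Inst D Tri m P A Γ κ H) (b : Fin 3 → C → Bool) (i : Fin 3) (s : Bool)
    (hs : DW H m (Γ.el κ (lit 2 0 (b i))) (Γ.el κ (rol (sg 2 0 s)))) :
    DW H (m + 2) (Γ.el κ (rf fun c => os (fun j => b j c) i)) (Γ.el κ (rol (sg 2 0 s))) := by
  have h1 : DW H 1 (Γ.el κ (rf fun c => os (fun j => b j c) i)) (Γ.el κ (rf fun c => oc (b i c))) :=
    DW.one (hi.ofF fun c => (oc_os (fun j => b j c) i).2)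
      (hi.ofF fun c => (oc_os (fun j => b j c) i).1)
  have h2 : DW H 1 (Γ.el κ (rf fun c => oc (b i c))) (Γ.el κ (lit 2 0 (b i))) :=
    DW.one (hi.ofF fun c => (oc_lit (b i c)).2) (hi.ofF fun c => (oc_lit (b i c)).1)
  exact ((h1.trans h2).trans hs).cast (by omega)

/-- not all three are false -/
theorem one3_f (ho : OddC K l) (hK : 2 * m + 5 ≤ K) (hi : Inst D Tri m P A Γ κ H)
    (b : Fin 3 → C → Bool) (hb : ∀ c, Ex1 fun j => b j c)
    (hs : ∀ i, DW H m (Γ.el κ (lit 2 0 (b i))) (Γ.el κ (rol (sg 2 0 false)))) : Prf l 1 H := by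
  have htri : ∀ i, H (Γ.el κ (rf fun c => os (fun j => b j c) i))
      (Γ.el κ (rf fun c => os (fun j => b j c) (i + 1))) := fun i =>
    hi.ofF fun c => os_tri (fun j => b j c) (hb c) i
  have h0 := htri 0
  have h1 := htri 1
  have h2 := htri 2
  exact tri ho (r := m + 2) (by omega) h0 h1 h2 (os_walk hi b 0 false (hs 0))
    (os_walk hi b 1 false (hs 1)) (os_walk hi b 2 false (hs 2))

/-- no two (in cyclic order) are true -/
theorem one3_t (hm : m = 2 * L + 2) (hw : WF D (L + 2) l) (hi : Inst D Tri m P A Γ κ H)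
    (b : Fin 3 → C → Bool) (hb : ∀ c, Ex1 fun j => b j c) (p : Fin 3)
    (h0 : DW H m (Γ.el κ (lit 2 0 (b p))) (Γ.el κ (rol 2)))
    (h1 : DW H m (Γ.el κ (lit 2 0 (b (p + 1)))) (Γ.el κ (rol 2))) : Prf l 1 H := by
  have htri : H (Γ.el κ (rf fun c => os (fun j => b j c) p))
      (Γ.el κ (rf fun c => os (fun j => b j c) (p + 1))) :=
    hi.ofF fun c => os_tri (fun j => b j c) (hb c) p
  have hr : ∀ x y : Fin 3, Tri x y → H (Γ.el κ (rol x)) (Γ.el κ (rol y)) := fun x y h =>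
    hi.ofF fun _ => h
  have key : ∀ (q : Fin 3), DW H m (Γ.el κ (lit 2 0 (b q))) (Γ.el κ (rol 2)) →
      ∀ H' : (Γ.Ω → V) → (Γ.Ω → V) → Prop, (∀ f g, H f g → H' f g) →
      (H' (Γ.el κ (rf fun c => os (fun j => b j c) q)) (Γ.el κ (rol 2)) ∨
        H' (Γ.el κ (rol 2)) (Γ.el κ (rf fun c => os (fun j => b j c) q))) → Clo l H' := by
    intro q hq H' hH h
    refine hw Γ.Ω H' (fun f g hfg => hH _ _ (hi.ofD hfg)) (Γ.el κ (rol 0)) (Γ.el κ (rol 1))
      (Γ.el κ (rol 2)) _ (hH _ _ (hr 0 1 (by decide))) (hH _ _ (hr 0 2 (by decide)))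
      (hH _ _ (hr 2 0 (by decide))) (hH _ _ (hr 1 2 (by decide))) (hH _ _ (hr 2 1 (by decide))) ?_ h
    exact ((os_walk hi b q true hq).symm.le hH).cast (by omega)
  refine Prf.cut (n₁ := 0) (n₂ := 0) _ (Γ.el κ (rol 2)) _ (by omega) htri (Prf.ax ?_) (Prf.ax ?_)
  · exact key p h0 _ (fun _ _ => Add.old) (Or.inl Add.new)
  · exact key (p + 1) h1 _ (fun _ _ => Add.old) (Or.inr Add.new)

end

end H3P
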