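import Pool.Agent.H3P.XF
import Pool.Agent.H3P.One3

/-!
# H3P/Cl2 : the rule for three literals, for the second pattern

PROOF of `cl2_core`.  `x_i = xl τ i`; by `xl_or` one of `x_0, x_1, x_2` is true in every cell.  Boolean functions:
`p := if x_1 then false else x_0`, `q := if x_1 then false else !x_0`; then exactly one of `p, x_1, q` is true; exactly one of
`!x_0, !(!x_0 || p), p` is true (`p` true implies `x_0` true); exactly one of `q, !(q || !x_2), !x_2` is true (`q` true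
implies `x_1 = x_0 = false`, so `x_2` is true).  The facts (digon walks of length `m` to `f`) `lit x_i ~ rol 0` are in `PX`.
1. `branch` with `E = lit (!x_0)`: the branch `rol f` closes by `OddC` (`lit x_0 ~ f ~ lit (!x_0) - lit x_0`, `2 m + 1`).
2. `branch` with `E = lit (!x_2)`: the same.
Now (over the added facts `lit (!x_0) ~ rol 2`, `lit (!x_2) ~ rol 2`):
3. `branch` with `E = lit p`: the branch `rol t` closes by `one3_t` for the triple `(!x_0, !(!x_0 || p), p)` with `p := 2`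
   (the functions number `2` and `2 + 1 = 0`) and `uniZ` (5 operations).
4. `branch` with `E = lit q`: the branch `rol t` closes by `one3_t` for the triple `(q, !(q || !x_2), !x_2)`, again the
   numbers `2` and `0`; the branch `rol f` by `one3_f` for the triple `(p, x_1, q)`.
Total `4 BC + 15`.
PROOF of `clause2`: `Der.fin` over the 8 functions `τ`, `cl2_core` and `xfacts`.
-/

namespace H3P

open HJ71

private theorem c2_t : ∀ a b : Bool, (a = true → b = false) →
    Ex1 ![a, !(a || b), b] := by decide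

private theorem c2_f : ∀ x0 x1 : Bool,
    Ex1 ![if x1 then false else x0, x1, if x1 then false else !x0] := by decide

private theorem c2_e {C : Type} (a b c : C → Bool) (x : C) :
    (fun j : Fin 3 => (![a, b, c] : Fin 3 → C → Bool) j x) = ![a x, b x, c x] := by
  funext j
  fin_cases j <;> rfl

private theorem c2_mon {V : Type} (D : V → V → Prop) (L K : ℕ) :
    Mon (fun l => OddC K l ∧ WF D (L + 2) l) := (OddC.mon K).and (WF.mon D (L + 2))

/-- the branch `rol f` for a negation closes -/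
private theorem c2_neg {V C : Type} {D : V → V → Prop} {m L K : ℕ} (hK : 2 * m + 5 ≤ K)
    {P : Dsc V (Fin 3) C → Dsc V (Fin 3) C → Prop} (b : C → Bool)
    (hP : P (lit 2 0 b) (rol 0)) :
    Der 0 (fun l => OddC K l ∧ WF D (L + 2) l)
      (Z D Tri m (Add P (lit 2 0 fun c => !b c) (rol 0)) Nil) := by
  refine Der.of fun l _ hl Γ κ H hi => ?_
  have h1 := hi.pth _ _ (Or.inl hP)
  have h2 := hi.pth _ _ (Or.inr ⟨rfl, rfl⟩)
  have h3 := hi.neg Tri.tf Tri.ft b (fun c => !b c) (fun c => rfl)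
  refine hl.1.use (r := m + (m + 1)) (by omega) (by omega) (x := Γ.el κ (rol 0)) ?_
  exact (h1.symm.trans (h3.trans h2)).cast (by omega)

/-- the branch `rol t` with two functions which are never both true closes -/
private theorem c2_tt {V C : Type} {D : V → V → Prop} {m L K : ℕ} (hm : m = 2 * L + 2)
    {P : Dsc V (Fin 3) C → Dsc V (Fin 3) C → Prop} (a b : C → Bool)
    (hab : ∀ c, a c = true → b c = false)
    (ha : P (lit 2 0 a) (rol 2)) (hb : P (lit 2 0 b) (rol 2)) :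
    Der 5 (fun l => OddC K l ∧ WF D (L + 2) l) (Z D Tri m P Nil) := by
  intro l hl hp
  refine uniZ (n := 1) (by omega) hl fun Γ κ H hi => ?_
  refine one3_t (b := ![a, fun c => !(a c || b c), b]) hm hp.2 hi ?_ 2 ?_ ?_
  · intro c
    rw [c2_e]
    exact c2_t _ _ (hab c)
  · exact hi.pth _ _ hb
  · exact hi.pth _ _ ha

theorem cl2_core {V : Type} {D : V → V → Prop} {m L K : ℕ} (hm : m = 2 * L + 2) (hW : Wlk D L)
    (hK : 2 * m + 5 ≤ K) (τ : Fin 3 → Bool) :
    Der (4 * BC L + 15) (fun l => OddC K l ∧ WF D (L + 2) l)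
      (Z D Tri m (PX (V := V) 2 0 τ) Nil) := by
  let P0 : Dsc V (Fin 3) (Cτ τ) → Dsc V (Fin 3) (Cτ τ) → Prop := PX 2 0 τ
  let nx0 : Cτ τ → Bool := fun β => !xl τ 0 β
  let nx2 : Cτ τ → Bool := fun β => !xl τ 2 β
  let p : Cτ τ → Bool := fun β => if xl τ 1 β then false else xl τ 0 β
  let q : Cτ τ → Bool := fun β => if xl τ 1 β then false else !xl τ 0 β
  let P1 := Add P0 (lit 2 0 nx0) (rol 2)
  let P2 := Add P1 (lit 2 0 nx2) (rol 2)
  let P3 := Add P2 (lit 2 0 p) (rol 0)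
  have hmon := c2_mon D L K
  -- step 4
  have a4 : Der 5 (fun l => OddC K l ∧ WF D (L + 2) l)
      (Z D Tri m (Add P3 (lit 2 0 q) (rol 2)) Nil) := by
    refine c2_tt hm q nx2 (fun β hβ => ?_) (Or.inr ⟨rfl, rfl⟩)
      (Or.inl (Or.inl (Or.inr ⟨rfl, rfl⟩)))
    have h1 := xl_or τ β
    simp only [q, nx2] at hβ ⊢
    revert hβ h1
    cases xl τ 0 β <;> cases xl τ 1 β <;> cases xl τ 2 β <;> simp
  have b4 : Der 5 (fun l => OddC K l ∧ WF D (L + 2) l)
      (Z D Tri m (Add P3 (lit 2 0 q) (rol 0)) Nil) := by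
    intro l hl hp
    refine uniZ (n := 1) (by omega) hl fun Γ κ H hi => ?_
    refine one3_f (b := ![p, xl τ 1, q]) hp.1 hK hi ?_ ?_
    · intro c
      rw [c2_e]
      exact c2_f _ _
    · intro j
      have hj : j = 0 ∨ j = 1 ∨ j = 2 := by omega
      rcases hj with rfl | rfl | rfl
      · exact hi.pth _ _ (Or.inl (Or.inr ⟨rfl, rfl⟩))
      · exact hi.pth _ _ (Or.inl (Or.inl (Or.inl (Or.inl (Or.inr ⟨1, rfl, rfl⟩)))))
      · exact hi.pth _ _ (Or.inr ⟨rfl, rfl⟩)
  have d4 : Der ((5 + 5) + BC L) (fun l => OddC K l ∧ WF D (L + 2) l) (Z D Tri m P3 Nil) :=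
    (Der.and hmon (Z.mon _ _ _ _ _) a4 b4).trans
      (branch hm hW Tri.tf Tri.ft P3 Nil (lit 2 0 q))
  -- step 3
  have a3 : Der 5 (fun l => OddC K l ∧ WF D (L + 2) l)
      (Z D Tri m (Add P2 (lit 2 0 p) (rol 2)) Nil) := by
    refine c2_tt hm nx0 p (fun β hβ => ?_) (Or.inl (Or.inl (Or.inr ⟨rfl, rfl⟩)))
      (Or.inr ⟨rfl, rfl⟩)
    simp only [nx0, p] at hβ ⊢
    revert hβ
    cases xl τ 0 β <;> cases xl τ 1 β <;> simp
  have d3 : Der ((5 + ((5 + 5) + BC L)) + BC L) (fun l => OddC K l ∧ WF D (L + 2) l)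
      (Z D Tri m P2 Nil) :=
    (Der.and hmon (Z.mon _ _ _ _ _) a3 d4).trans
      (branch hm hW Tri.tf Tri.ft P2 Nil (lit 2 0 p))
  -- step 2
  have b2 : Der 0 (fun l => OddC K l ∧ WF D (L + 2) l)
      (Z D Tri m (Add P1 (lit 2 0 nx2) (rol 0)) Nil) :=
    c2_neg hK (xl τ 2) (Or.inl (Or.inr ⟨2, rfl, rfl⟩))
  have d2 := (Der.and hmon (Z.mon _ _ _ _ _) d3 b2).trans
      (branch hm hW Tri.tf Tri.ft P1 Nil (lit 2 0 nx2))
  -- step 1
  have b1 : Der 0 (fun l => OddC K l ∧ WF D (L + 2) l)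
      (Z D Tri m (Add P0 (lit 2 0 nx0) (rol 0)) Nil) :=
    c2_neg hK (xl τ 0) (Or.inr ⟨0, rfl, rfl⟩)
  have d1 := (Der.and hmon (Z.mon _ _ _ _ _) d2 b1).trans
      (branch hm hW Tri.tf Tri.ft P0 Nil (lit 2 0 nx0))
  exact d1.up (by omega)

theorem clause2 {V : Type} {D : V → V → Prop} {m L K : ℕ} (hm : m = 2 * L + 2) (hW : Wlk D L)
    (hK : 2 * m + 5 ≤ K) :
    Der (8 * (7 * BC L + 15)) (fun l => OddC K l ∧ WF D (L + 2) l) (CR D Tri 2 0 m) := by
  have hmon := c2_mon D L K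
  have key := Der.fin (ι := Fin 3 → Bool) (c := 7 * BC L + 15)
    (P := fun l => OddC K l ∧ WF D (L + 2) l)
    (Q := fun τ => Z D Tri m (Pτ (V := V) 2 0 τ) Nil) hmon (fun τ => Z.mon _ _ _ _ _) (fun τ => by
      have h1 := (cl2_core (V := V) hm hW hK τ).keep hmon
      have h2 := xfacts (V := V) (F := Tri) hm hW hK (t := 2) (f := 0) Tri.tf Tri.ft τ
      refine (h1.trans (h2.pre ?_)).up (by omega)
      intro l _ hl
      exact ⟨hl.1.1, hl.2⟩)
  have hc : Fintype.card (Fin 3 → Bool) = 8 := by decide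
  rw [hc] at key
  exact key

end H3P
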