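import Pool.Agent.HJ71.Lab

/-!
# H3P/Core : targets, extensions of constructions, proofs by cuts

MP_522b4f_co, the case `k = 3`.  A *target* is a relation `H` on any type `W` (loops are allowed).
`Clo l H`: some term of the construction `l` has a homomorphism to `H`.
`Ext c l l'`: the construction `l'` extends `l` by at most `c` operations.
`Bas l`: `l` contains a complete digraph on three vertices.
`Prf l n H`: `H` can be closed by `n` cuts from targets which `l` closes.
-/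

namespace H3P

open HJ71

/-- some term of `l` has a homomorphism to `H` -/
def Clo (l : List Dig) {W : Type} (H : W → W → Prop) : Prop :=
  ∃ T ∈ l, ∃ φ : T.V → W, ∀ a b, T.adj a b → H (φ a) (φ b)

/-- `H` with one further arc -/
def Add {W : Type} (H : W → W → Prop) (a b : W) : W → W → Prop :=
  fun x y => H x y ∨ (x = a ∧ y = b)

/-- `l'` is a construction which extends `l` by at most `c` operations -/
def Ext (c : ℕ) (l l' : List Dig) : Prop :=
  (∀ T ∈ l, T ∈ l') ∧ ∀ m, Steps 3 l m → ∃ m', Steps 3 l' m' ∧ m' ≤ m + c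

/-- `l` contains a complete digraph on three vertices -/
def Bas (l : List Dig) : Prop := ∃ T ∈ l, IsComplete 3 T

/-- monotone predicates on constructions -/
def Mon (P : List Dig → Prop) : Prop := ∀ l l' : List Dig, (∀ T ∈ l, T ∈ l') → P l → P l'

/-- from `P` one reaches `Q` with at most `c` operations -/
def Der (c : ℕ) (P Q : List Dig → Prop) : Prop :=
  ∀ l, Bas l → P l → ∃ l', Ext c l l' ∧ Q l'

/-- `H` can be closed by `n` cuts -/
inductive Prf (l : List Dig) {W : Type} : ℕ → (W → W → Prop) → Prop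
  | ax {n : ℕ} {H : W → W → Prop} : Clo l H → Prf l n H
  | cut {n n₁ n₂ : ℕ} {H : W → W → Prop} (a b c : W) : n₁ + n₂ + 1 ≤ n → H a c →
      Prf l n₁ (Add H a b) → Prf l n₂ (Add H b c) → Prf l n H

section basic

variable {l l' l'' : List Dig} {W W' : Type} {H H' : W → W → Prop} {c c' n : ℕ}

theorem Clo.hom {H' : W' → W' → Prop} (h : Clo l H) (f : W → W')
    (hf : ∀ x y, H x y → H' (f x) (f y)) : Clo l H' := by
  obtain ⟨T, hT, φ, hφ⟩ := h
  exact ⟨T, hT, f ∘ φ, fun a b hab => hf _ _ (hφ a b hab)⟩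

theorem Clo.le (h : Clo l H) (hH : ∀ x y, H x y → H' x y) : Clo l H' :=
  h.hom id hH

theorem Clo.sub (h : Clo l H) (hl : ∀ T ∈ l, T ∈ l') : Clo l' H := by
  obtain ⟨T, hT, φ, hφ⟩ := h
  exact ⟨T, hl T hT, φ, hφ⟩

theorem Add.le {a b : W} (hH : ∀ x y, H x y → H' x y) : ∀ x y, Add H a b x y → Add H' a b x y := by
  rintro x y (h | h)
  · exact Or.inl (hH x y h)
  · exact Or.inr h

theorem Add.old {a b x y : W} (h : H x y) : Add H a b x y := Or.inl h

theorem Add.new {a b : W} : Add H a b a b := Or.inr ⟨rfl, rfl⟩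

/-- a present arc changes nothing -/
theorem Add.triv {a b : W} (hab : H a b) : ∀ x y, Add H a b x y → H x y := by
  rintro x y (h | ⟨rfl, rfl⟩)
  · exact h
  · exact hab

theorem Ext.refl : Ext 0 l l := ⟨fun _ h => h, fun m h => ⟨m, h, by omega⟩⟩

theorem Ext.trans (h : Ext c l l') (h' : Ext c' l' l'') : Ext (c + c') l l'' := by
  refine ⟨fun T hT => h'.1 T (h.1 T hT), fun m hm => ?_⟩
  obtain ⟨m', h1, h2⟩ := h.2 m hm
  obtain ⟨m'', h3, h4⟩ := h'.2 m' h1
  exact ⟨m'', h3, by omega⟩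

theorem Ext.up (h : Ext c l l') (hc : c ≤ c') : Ext c' l l' :=
  ⟨h.1, fun m hm => by
    obtain ⟨m', h1, h2⟩ := h.2 m hm
    exact ⟨m', h1, by omega⟩⟩

theorem Bas.sub (h : Bas l) (hl : ∀ T ∈ l, T ∈ l') : Bas l' := by
  obtain ⟨T, hT, h⟩ := h
  exact ⟨T, hl T hT, h⟩

theorem Bas.ext (h : Bas l) (hl : Ext c l l') : Bas l' := h.sub hl.1

/-- loops close -/
theorem Clo.loop (h : Bas l) {x : W} (hx : H x x) : Clo l H := by
  obtain ⟨T, hT, _⟩ := h
  exact ⟨T, hT, fun _ => x, fun _ _ _ => hx⟩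

/-- three mutually incomparable elements close -/
theorem Clo.three (h : Bas l) {x y z : W} (h1 : H x y) (h2 : H y x) (h3 : H y z) (h4 : H z y)
    (h5 : H x z) (h6 : H z x) : Clo l H := by
  classical
  obtain ⟨T, hT, hc, ha⟩ := h
  have := T.fin
  obtain ⟨e⟩ : Nonempty (T.V ≃ Fin 3) := ⟨Finite.equivFinOfCardEq hc⟩
  refine ⟨T, hT, fun v => if e v = 0 then x else if e v = 1 then y else z, fun a b hab => ?_⟩
  have hne : e a ≠ e b := fun h => (ha a b).1 hab (e.injective h)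
  have ca : e a = 0 ∨ e a = 1 ∨ e a = 2 := by omega
  have cb : e b = 0 ∨ e b = 1 ∨ e b = 2 := by omega
  rcases ca with ca | ca | ca <;> rcases cb with cb | cb | cb <;>
    first
      | exact absurd (ca.trans cb.symm) hne
      | (simp only [ca, cb]; simpa)

theorem Prf.up {n' : ℕ} (h : Prf l n H) (hn : n ≤ n') : Prf l n' H := by
  cases h with
  | ax h => exact Prf.ax h
  | cut a b c h1 h2 h3 h4 => exact Prf.cut a b c (h1.trans hn) h2 h3 h4

theorem Prf.le (h : Prf l n H) : ∀ {H' : W → W → Prop}, (∀ x y, H x y → H' x y) → Prf l n H' := by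
  induction h with
  | ax h => intro H' hH; exact Prf.ax (h.le hH)
  | cut a b c h1 h2 _ _ ih1 ih2 =>
    intro H' hH
    exact Prf.cut a b c h1 (hH _ _ h2) (ih1 (Add.le hH)) (ih2 (Add.le hH))

theorem Prf.sub (h : Prf l n H) (hl : ∀ T ∈ l, T ∈ l') : Prf l' n H := by
  induction h with
  | ax h => exact Prf.ax (h.sub hl)
  | cut a b c h1 h2 _ _ ih1 ih2 => exact Prf.cut a b c h1 h2 ih1 ih2

/-- a cut with the two branches swapped in the order of the proof -/
theorem Prf.cut' {n₁ n₂ : ℕ} (a b c : W) (hn : n₁ + n₂ + 1 ≤ n) (hac : H a c)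
    (h1 : Prf l n₁ (Add H a b)) (h2 : Prf l n₂ (Add H b c)) : Prf l n H :=
  Prf.cut a b c hn hac h1 h2

end basic

/-! ## combinators -/

section der

variable {c c' : ℕ} {P Q R : List Dig → Prop}

theorem Mon.and (hP : Mon P) (hQ : Mon Q) : Mon (fun l => P l ∧ Q l) :=
  fun l l' h hp => ⟨hP l l' h hp.1, hQ l l' h hp.2⟩

theorem Mon.all {ι : Sort*} {Q : ι → List Dig → Prop} (hQ : ∀ i, Mon (Q i)) :
    Mon (fun l => ∀ i, Q i l) :=
  fun l l' h hp i => hQ i l l' h (hp i)

theorem Mon.imp {p : Prop} (hQ : Mon Q) : Mon (fun l => p → Q l) :=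
  fun l l' h hp i => hQ l l' h (hp i)

theorem Mon.clo {W : Type} (H : W → W → Prop) : Mon (fun l => Clo l H) :=
  fun _ _ h hp => hp.sub h

theorem Der.up (h : Der c P Q) (hc : c ≤ c') : Der c' P Q := fun l hb hp => by
  obtain ⟨l', h1, h2⟩ := h l hb hp
  exact ⟨l', h1.up hc, h2⟩

theorem Der.pre {P' : List Dig → Prop} (h : Der c P Q) (hP : ∀ l, Bas l → P' l → P l) :
    Der c P' Q := fun l hb hp => h l hb (hP l hb hp)

theorem Der.post {Q' : List Dig → Prop} (h : Der c P Q) (hQ : ∀ l, Bas l → Q l → Q' l) :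
    Der c P Q' := fun l hb hp => by
  obtain ⟨l', h1, h2⟩ := h l hb hp
  exact ⟨l', h1, hQ l' (hb.ext h1) h2⟩

theorem Der.of (h : ∀ l, Bas l → P l → Q l) : Der c P Q := fun l hb hp =>
  ⟨l, Ext.refl.up (Nat.zero_le _), h l hb hp⟩

theorem Der.trans (h : Der c P Q) (h' : Der c' Q R) : Der (c + c') P R := fun l hb hp => by
  obtain ⟨l', h1, h2⟩ := h l hb hp
  obtain ⟨l'', h3, h4⟩ := h' l' (hb.ext h1) h2
  exact ⟨l'', h1.trans h3, h4⟩

/-- keep the hypothesis -/
theorem Der.keep (hP : Mon P) (h : Der c P Q) : Der c P (fun l => P l ∧ Q l) := fun l hb hp => by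
  obtain ⟨l', h1, h2⟩ := h l hb hp
  exact ⟨l', h1, hP l l' h1.1 hp, h2⟩

/-- two goals -/
theorem Der.and (hP : Mon P) (hQ : Mon Q) (h : Der c P Q) (h' : Der c' P R) :
    Der (c + c') P (fun l => Q l ∧ R l) := fun l hb hp => by
  obtain ⟨l', h1, h2⟩ := h l hb hp
  obtain ⟨l'', h3, h4⟩ := h' l' (hb.ext h1) (hP l l' h1.1 hp)
  exact ⟨l'', h1.trans h3, hQ l' l'' h3.1 h2, h4⟩

/-- a table of goals, each of which may use the earlier ones -/
theorem Der.table {Q : ℕ → List Dig → Prop} (hP : Mon P) (hQ : ∀ i, Mon (Q i)) (N : ℕ)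
    (h : ∀ i < N, Der c (fun l => P l ∧ ∀ j < i, Q j l) (Q i)) :
    Der (N * c) P (fun l => ∀ i < N, Q i l) := by
  induction N with
  | zero => exact Der.of (fun l _ _ i hi => absurd hi (Nat.not_lt_zero i))
  | succ N ih =>
    intro l hb hp
    obtain ⟨l', h1, h2⟩ := ih (fun i hi => h i (Nat.lt_succ_of_lt hi)) l hb hp
    obtain ⟨l'', h3, h4⟩ := h N (Nat.lt_succ_self N) l' (hb.ext h1) ⟨hP l l' h1.1 hp, h2⟩
    refine ⟨l'', (h1.trans h3).up (by ring_nf; omega), fun i hi => ?_⟩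
    rcases Nat.lt_succ_iff_lt_or_eq.1 hi with h5 | h5
    · exact hQ i l' l'' h3.1 (h2 i h5)
    · subst h5; exact h4

/-- finitely many goals over a finite type -/
theorem Der.fin {ι : Type} [Fintype ι] {Q : ι → List Dig → Prop} (hP : Mon P)
    (hQ : ∀ i, Mon (Q i)) (h : ∀ i, Der c P (Q i)) :
    Der (Fintype.card ι * c) P (fun l => ∀ i, Q i l) := by
  classical
  let e := Fintype.equivFin ι
  have key : Der (Fintype.card ι * c) P
      (fun l => ∀ j < Fintype.card ι, (∀ hj : j < Fintype.card ι, Q (e.symm ⟨j, hj⟩) l)) := by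
    refine Der.table (Q := fun j l => ∀ hj : j < Fintype.card ι, Q (e.symm ⟨j, hj⟩) l) hP
      (fun j => ?_) _ (fun j hj => ?_)
    · exact fun l l' hl hp hj => hQ _ l l' hl (hp hj)
    · refine fun l hb hp => ?_
      obtain ⟨l', h1, h2⟩ := h (e.symm ⟨j, hj⟩) l hb hp.1
      exact ⟨l', h1, fun _ => h2⟩
  refine key.post (fun l _ hl i => ?_)
  have := hl (e i) (e i).isLt (e i).isLt
  simpa using this

end der

end H3P
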