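import Pool.Agent.H3P.Walk

/-!
# H3P/Ctx : contexts, elements, instances, the judgement `Z`

`D` is the digraph (a relation on `V`).  A *context* consists of worlds `Ω`, which are divided into cells, and of the values
`π x : Ω → V` of the names `x : X`.  An *element* is a function `Ω → V`.  `Amb D F Γ` is the ambient relation between the
elements: in every cell, either `D` holds in all the worlds of the cell, or the two elements are (in the cell) two named
elements `x, y` with `F x y`.  So this is the product, over all cells, of `D ^ cell` plus the arcs `F` between the names.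

A *description* `E : Dsc V X C` computes an element from the cell (an element of `C`) and the values of the names.
`Inst D F m P A Γ κ H`: `H` contains the ambient relation of `Γ`, an arc for every pair in `A` and a digon walk of length `m`
for every pair in `P`; the cells of `Γ` are mapped to `C` by `κ`.
`Z D F m P A l`: all instances of `(P, A)` are closed by `l`.
-/

namespace H3P

open HJ71

/-- contexts -/
structure Ctx (V X : Type) where
  Ω : Type
  K : Type
  cell : Ω → K
  π : X → Ω → V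

/-- the ambient relation -/
def Amb {V X : Type} (D : V → V → Prop) (F : X → X → Prop) (Γ : Ctx V X) (f g : Γ.Ω → V) : Prop :=
  ∀ k, (∀ ω, Γ.cell ω = k → D (f ω) (g ω)) ∨
    ∃ x y, F x y ∧ ∀ ω, Γ.cell ω = k → f ω = Γ.π x ω ∧ g ω = Γ.π y ω

/-- descriptions of elements -/
abbrev Dsc (V X C : Type) : Type := C → (X → V) → V

/-- the element with description `E` -/
def Ctx.el {V X : Type} (Γ : Ctx V X) {C : Type} (κ : Γ.K → C) (E : Dsc V X C) : Γ.Ω → V :=
  fun ω => E (κ (Γ.cell ω)) (fun x => Γ.π x ω)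

/-- the named element which depends on the cell -/
def rf {V X C : Type} (r : C → X) : Dsc V X C := fun c a => a (r c)

/-- a constant -/
def kon {V X C : Type} (v : V) : Dsc V X C := fun _ _ => v

/-- the role of a truth value -/
def sg {X : Type} (t f : X) (b : Bool) : X := if b then t else f

/-- the element of a Boolean function: `t` where `b` is true and `f` where it is false -/
def lit {V X C : Type} (t f : X) (b : C → Bool) : Dsc V X C := rf (fun c => sg t f (b c))

/-- a name -/
def rol {V X C : Type} (x : X) : Dsc V X C := rf (fun _ => x)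

/-- instances -/
structure Inst {V X C : Type} (D : V → V → Prop) (F : X → X → Prop) (m : ℕ)
    (P A : Dsc V X C → Dsc V X C → Prop) (Γ : Ctx V X) (κ : Γ.K → C)
    (H : (Γ.Ω → V) → (Γ.Ω → V) → Prop) : Prop where
  amb : ∀ f g, Amb D F Γ f g → H f g
  arc : ∀ E E', A E E' → H (Γ.el κ E) (Γ.el κ E')
  pth : ∀ E E', P E E' → DW H m (Γ.el κ E) (Γ.el κ E')

/-- all instances are closed by `l` -/
def Z {V X C : Type} (D : V → V → Prop) (F : X → X → Prop) (m : ℕ)
    (P A : Dsc V X C → Dsc V X C → Prop) (l : List Dig) : Prop :=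
  ∀ (Γ : Ctx V X) (κ : Γ.K → C) (H : (Γ.Ω → V) → (Γ.Ω → V) → Prop),
    Inst D F m P A Γ κ H → Clo l H

/-- the empty relation -/
def Nil {W : Type} : W → W → Prop := fun _ _ => False

section basic

variable {V X C C' : Type} {D : V → V → Prop} {F : X → X → Prop} {m : ℕ}
  {P A : Dsc V X C → Dsc V X C → Prop} {Γ : Ctx V X} {κ : Γ.K → C}
  {H : (Γ.Ω → V) → (Γ.Ω → V) → Prop} {l : List Dig}

theorem Z.mon (D : V → V → Prop) (F : X → X → Prop) (m : ℕ) (P A : Dsc V X C → Dsc V X C → Prop) :
    Mon (Z D F m P A) := fun _ _ hl h Γ κ H hi => (h Γ κ H hi).sub hl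

theorem lit_true (t f : X) : (lit t f (fun _ => true) : Dsc V X C) = rol t := rfl

theorem lit_false (t f : X) : (lit t f (fun _ => false) : Dsc V X C) = rol f := rfl

/-- `D`-arcs between elements are arcs -/
theorem Amb.of_D {f g : Γ.Ω → V} (h : ∀ ω, D (f ω) (g ω)) : Amb D F Γ f g :=
  fun _ => Or.inl fun ω _ => h ω

/-- `F`-arcs in every cell -/
theorem Amb.of_F {r s : C → X} (h : ∀ c, F (r c) (s c)) :
    Amb D F Γ (Γ.el κ (rf r)) (Γ.el κ (rf s)) :=
  fun k => Or.inr ⟨r (κ k), s (κ k), h _, fun ω hω => by subst hω; exact ⟨rfl, rfl⟩⟩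

theorem Inst.ofD (hi : Inst D F m P A Γ κ H) {f g : Γ.Ω → V} (h : ∀ ω, D (f ω) (g ω)) : H f g :=
  hi.amb _ _ (Amb.of_D h)

theorem Inst.kon (hi : Inst D F m P A Γ κ H) {u v : V} (h : D u v) :
    H (Γ.el κ (kon u)) (Γ.el κ (kon v)) := hi.ofD fun _ => h

theorem Inst.ofF (hi : Inst D F m P A Γ κ H) {r s : C → X} (h : ∀ c, F (r c) (s c)) :
    H (Γ.el κ (rf r)) (Γ.el κ (rf s)) := hi.amb _ _ (Amb.of_F h)

theorem sg_neg {t f : X} (htf : F t f) (hft : F f t) (b : Bool) :
    F (sg t f b) (sg t f (!b)) ∧ F (sg t f (!b)) (sg t f b) := by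
  cases b
  · exact ⟨hft, htf⟩
  · exact ⟨htf, hft⟩

/-- the digon between a Boolean element and its negation -/
theorem Inst.neg (hi : Inst D F m P A Γ κ H) {t f : X} (htf : F t f) (hft : F f t)
    (b b' : C → Bool) (h : ∀ c, b' c = !b c) :
    DW H 1 (Γ.el κ (lit t f b)) (Γ.el κ (lit t f b')) := by
  refine DW.one (hi.ofF fun c => ?_) (hi.ofF fun c => ?_)
  · rw [h]; exact (sg_neg htf hft (b c)).1
  · rw [h]; exact (sg_neg htf hft (b c)).2

/-- walks of even length at a Boolean element -/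
theorem Inst.even (hi : Inst D F m P A Γ κ H) {t f : X} (htf : F t f) (hft : F f t)
    (b : C → Bool) (k : ℕ) : DW H (2 * k) (Γ.el κ (lit t f b)) (Γ.el κ (lit t f b)) := by
  refine DW.even (y := Γ.el κ (lit t f (fun c => !b c))) (hi.ofF fun c => ?_) (hi.ofF fun c => ?_) k
  · exact (sg_neg htf hft (b c)).1
  · exact (sg_neg htf hft (b c)).2

/-- the digon between the two roles -/
theorem Inst.tf (hi : Inst D F m P A Γ κ H) {t f : X} (htf : F t f) (hft : F f t) :
    DW H 1 (Γ.el κ (rol t)) (Γ.el κ (rol f)) := DW.one (hi.ofF fun _ => htf) (hi.ofF fun _ => hft)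

/-- instances of larger data are instances of smaller data -/
theorem Inst.le {P' A' : Dsc V X C → Dsc V X C → Prop} (hi : Inst D F m P' A' Γ κ H)
    (hP : ∀ E E', P E E' → P' E E') (hA : ∀ E E', A E E' → A' E E') : Inst D F m P A Γ κ H :=
  ⟨hi.amb, fun E E' h => hi.arc E E' (hA E E' h), fun E E' h => hi.pth E E' (hP E E' h)⟩

theorem Inst.addP {E E' : Dsc V X C} (hi : Inst D F m P A Γ κ H)
    (h : DW H m (Γ.el κ E) (Γ.el κ E')) : Inst D F m (Add P E E') A Γ κ H :=
  ⟨hi.amb, hi.arc, fun E1 E2 h' => by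
    rcases h' with h' | ⟨rfl, rfl⟩
    · exact hi.pth _ _ h'
    · exact h⟩

theorem Inst.addA {E E' : Dsc V X C} (hi : Inst D F m P A Γ κ H)
    (h : H (Γ.el κ E) (Γ.el κ E')) : Inst D F m P (Add A E E') Γ κ H :=
  ⟨hi.amb, fun E1 E2 h' => by
    rcases h' with h' | ⟨rfl, rfl⟩
    · exact hi.arc _ _ h'
    · exact h, hi.pth⟩

theorem Z.le {P' A' : Dsc V X C → Dsc V X C → Prop} (h : Z D F m P A l)
    (hP : ∀ E E', P E E' → P' E E') (hA : ∀ E E', A E E' → A' E E') : Z D F m P' A' l :=
  fun Γ κ H hi => h Γ κ H (hi.le hP hA)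

/-- change of the cells: `σ : C' → C` -/
theorem Z.sub {P A : Dsc V X C → Dsc V X C → Prop} {P' A' : Dsc V X C' → Dsc V X C' → Prop}
    (h : Z D F m P A l) (σ : C' → C)
    (hP : ∀ E E', P E E' → P' (fun c => E (σ c)) (fun c => E' (σ c)))
    (hA : ∀ E E', A E E' → A' (fun c => E (σ c)) (fun c => E' (σ c))) : Z D F m P' A' l :=
  fun Γ κ H hi => h Γ (fun k => σ (κ k)) H
    ⟨hi.amb, fun E E' he => hi.arc _ _ (hA E E' he), fun E E' he => hi.pth _ _ (hP E E' he)⟩

end basic

/-! ## the rules for three literals -/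

/-- the three literals have not all the colour given by `τ` -/
abbrev Cτ (τ : Fin 3 → Bool) : Type := {β : Fin 3 → Bool // β ≠ τ}

/-- the paths of the three literals to the roles given by `τ` -/
def Pτ {V X : Type} (t f : X) (τ : Fin 3 → Bool) : Dsc V X (Cτ τ) → Dsc V X (Cτ τ) → Prop :=
  fun E E' => ∃ i : Fin 3, E = lit t f (fun β => β.1 i) ∧ E' = rol (sg t f (τ i))

/-- the rule for three literals: if three Boolean functions never take the values `τ`, then they cannot have the
colours `τ` -/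
def CR {V X : Type} (D : V → V → Prop) (F : X → X → Prop) (t f : X) (m : ℕ) (l : List Dig) : Prop :=
  ∀ τ : Fin 3 → Bool, Z D F m (Pτ (V := V) t f τ) Nil l

theorem CR.mon {V X : Type} (D : V → V → Prop) (F : X → X → Prop) (t f : X) (m : ℕ) :
    Mon (CR D F t f m) := Mon.all fun _ => Z.mon _ _ _ _ _

/-- the use of the rule for three literals -/
theorem CR.use {V X C : Type} {D : V → V → Prop} {F : X → X → Prop} {t f : X} {m : ℕ}
    {l : List Dig} (h : CR D F t f m l) {P A : Dsc V X C → Dsc V X C → Prop} {Γ : Ctx V X}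
    {κ : Γ.K → C} {H : (Γ.Ω → V) → (Γ.Ω → V) → Prop} (hi : Inst D F m P A Γ κ H)
    (b0 b1 b2 : C → Bool) (s0 s1 s2 : Bool) (hb : ∀ c, ¬ (b0 c = s0 ∧ b1 c = s1 ∧ b2 c = s2))
    (h0 : DW H m (Γ.el κ (lit t f b0)) (Γ.el κ (rol (sg t f s0))))
    (h1 : DW H m (Γ.el κ (lit t f b1)) (Γ.el κ (rol (sg t f s1))))
    (h2 : DW H m (Γ.el κ (lit t f b2)) (Γ.el κ (rol (sg t f s2)))) : Clo l H := by
  refine h ![s0, s1, s2] Γ (fun k => ⟨![b0 (κ k), b1 (κ k), b2 (κ k)], fun he => ?_⟩) H
    ⟨hi.amb, fun _ _ hf => hf.elim, ?_⟩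
  · exact hb (κ k) ⟨congrFun he 0, congrFun he 1, congrFun he 2⟩
  · rintro E E' ⟨i, rfl, rfl⟩
    have hi : i = 0 ∨ i = 1 ∨ i = 2 := by omega
    rcases hi with rfl | rfl | rfl
    · exact h0
    · exact h1
    · exact h2

end H3P
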