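import Pool.Agent.H3P.Core

/-!
# H3P/Cut : one cut costs at most five operations

PROOF.  Let `T₁ ∈ l`, `φ : T₁ → Add H a b` and `T₂ ∈ l`, `χ : T₂ → Add H b c`.
Degenerate cases (no operation, `l' = l`, `Ext.refl.up`):
* `H x x` for some `x ∈ {a, b, c}`: `Clo.loop`.
* `a = b`: `Add H b c` has only arcs of `H` (`H a c`), so `T₂` maps to `H`.  `b = c`: the same with `T₁`.
* `a = c`: then `H a a`, a loop.
* no arc of `T₁` is mapped to `(a, b)` (the two ends are not both hit): `T₁` maps to `H`.  The same for `T₂`.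
Main case: `a, b, c` distinct, no loops of `H` at `a, b, c`.
Step 1.  Identify in `T₁` the set `φ⁻¹(a)` (nonempty; independent: an arc inside would be mapped to the loop
`(a, a)`, which is not in `Add H a b` as `a ≠ b` and `¬ H a a`): `IsIdent T₁ T₁'`, and then `φ⁻¹(b)`
(again independent since `¬ H b b`, `a ≠ b`): `T₁''` with `φ'' : T₁'' → Add H a b` and exactly one vertex `u₁` over `a`
and one vertex `v₁` over `b`.  A lemma `ident_fibre` (for a term `T`, `φ : T → G`, `¬ G x x`, `x` in the image: there are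
`T'`, `IsIdent T T'`, `φ' : T' → G` with exactly one vertex over `x`, and such that if there was exactly one vertex over
`y` this remains so) is like `HJ71.ident_step` (`Pool/Agent/HJ71/Lab.lean`; copy its proof, with labels in `W` instead of
`Fin n`).  There `T'.V = Option {v // φ v ≠ x}`.
Step 2.  The same for `T₂` with `b` (vertex `v₂`) and `c` (vertex `u₂`).
If `T₁''` has no arc `u₁ v₁` then `T₁''` maps to `H`; if `T₂''` has no arc `v₂ u₂` then `T₂''` maps to `H`.  (At most 4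
operations.)
Step 3.  Otherwise join: `T = T₁'' ∪ T₂''` with `v₁, v₂` merged, the arcs `u₁ v₁`, `v₂ u₂` removed and `u₁ u₂` added:
vertex set `{v : T₁''.V // v ≠ v₁} ⊕ T₂''.V` as in `HJ71.join_step` (copy).  The labelling is `φ''` and `χ''`; the arc
`u₁ u₂` goes to `(a, c)`, which is in `H`; all other arcs go to `H` (an arc of `T₁''` which goes to `(a, b)` is `u₁ v₁`, and
this one is removed).  The term `T` has no loops: its labelling sends the loop to a loop of `H` and a loop of `T` at a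
vertex `x` would come from a loop of `T₁''` or `T₂''` or is `u₁ = u₂`; as `u₁ ≠ u₂` in `T` (`u₁ ≠ v₁` so `u₁` is in the left
part).
Total: 5 operations, `Steps.ident` four times and `Steps.join` once; `m` becomes at most `m + 5`.  All new terms are added
in front of `l`.
-/

namespace H3P

open HJ71

theorem ident_fibre {W : Type} (T : Dig) (ψ : T.V → W) (E : W → W → Prop)
    (hψ : ∀ a b, T.adj a b → E (ψ a) (ψ b)) (x : W) (hE : ¬ E x x) (hx : ∃ a, ψ a = x) :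
    ∃ (T' : Dig) (f : T.V → T'.V) (ψ' : T'.V → W), IsIdent T T' ∧
      Function.Surjective f ∧ (∀ a, ψ' (f a) = ψ a) ∧
      (∀ a b, T'.adj a b → E (ψ' a) (ψ' b)) ∧
      (∀ a b, ψ' a = x → ψ' b = x → a = b) ∧
      (∀ a b, f a = f b → a ≠ b → ψ a = x ∧ ψ b = x) := by
  classical
  have := T.fin
  let f : T.V → Option {a : T.V // ψ a ≠ x} := fun a =>
    if h : ψ a = x then none else some ⟨a, h⟩
  let ψ' : Option {a : T.V // ψ a ≠ x} → W := fun o =>
    match o with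
    | none => x
    | some a => ψ a.1
  have hf : Function.Surjective f := by
    intro o
    rcases o with _ | ⟨a, ha⟩
    · obtain ⟨a, ha⟩ := hx
      exact ⟨a, by simp [f, ha]⟩
    · exact ⟨a, by simp [f, ha]⟩
  have hψ'f : ∀ a, ψ' (f a) = ψ a := by
    intro a
    by_cases h : ψ a = x
    · simp [f, ψ', h]
    · simp [f, ψ', h]
  have hff : ∀ a b, f a = f b ↔ (a = b ∨ (a ∈ {a | ψ a = x} ∧ b ∈ {a | ψ a = x})) := by
    intro a b
    by_cases h : ψ a = x
    · by_cases h' : ψ b = x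
      · simp [f, h, h']
      · have : a ≠ b := by rintro rfl; exact h' h
        simp [f, h, h', this]
    · by_cases h' : ψ b = x
      · have : a ≠ b := by rintro rfl; exact h h'
        simp [f, h, h', this]
      · simp [f, h, h']
  let adj' : Option {a : T.V // ψ a ≠ x} → Option {a : T.V // ψ a ≠ x} → Prop := fun p q =>
    ∃ a b, f a = p ∧ f b = q ∧ T.adj a b
  have hadj : ∀ p q, adj' p q → E (ψ' p) (ψ' q) := by
    rintro p q ⟨a, b, rfl, rfl, hab⟩
    rw [hψ'f, hψ'f]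
    exact hψ a b hab
  have hind : ∀ a, ψ a = x → ∀ b, ψ b = x → ¬ T.adj a b := by
    intro a ha b hb hab
    have := hψ a b hab
    rw [ha, hb] at this
    exact hE this
  refine ⟨⟨Option {a : T.V // ψ a ≠ x}, inferInstance, adj', ?_⟩, f, ψ', ?_, hf, hψ'f, hadj,
    ?_, ?_⟩
  · rintro p ⟨a, b, h1, h2, hab⟩
    rcases (hff a b).1 (h1.trans h2.symm) with h | ⟨h, h'⟩
    · subst h; exact T.irr _ hab
    · exact hind a h b h' hab
  · exact ⟨{a | ψ a = x}, f, hx, fun a ha b hb => hind a ha b hb, hf, hff, fun _ _ => Iff.rfl⟩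
  · intro p q hp hq
    rcases p with _ | ⟨a, ha⟩
    · rcases q with _ | ⟨b, hb⟩
      · rfl
      · exact absurd hq hb
    · exact absurd hp ha
  · intro a b h1 h2
    rcases (hff a b).1 h1 with h | h
    · exact absurd h h2
    · exact h

/-- at most two identifications make the fibres of `x` and `y` single vertices -/
theorem ident_two {W : Type} {l : List Dig} (T : Dig) (hT : T ∈ l) (ψ : T.V → W)
    (E : W → W → Prop) (hψ : ∀ a b, T.adj a b → E (ψ a) (ψ b)) (x y : W) (hEx : ¬ E x x)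
    (hEy : ¬ E y y) :
    ∃ (l' : List Dig), Ext 2 l l' ∧ ∃ T' ∈ l', ∃ ψ' : T'.V → W,
      (∀ a b, T'.adj a b → E (ψ' a) (ψ' b)) ∧ (∀ a b, ψ' a = x → ψ' b = x → a = b) ∧
      (∀ a b, ψ' a = y → ψ' b = y → a = b) := by
  have one : ∀ (l : List Dig) (T : Dig) (_ : T ∈ l) (ψ : T.V → W)
      (_ : ∀ a b, T.adj a b → E (ψ a) (ψ b)) (z : W) (_ : ¬ E z z),
      ∃ (l' : List Dig), Ext 1 l l' ∧ ∃ T' ∈ l', ∃ ψ' : T'.V → W,
      (∀ a b, T'.adj a b → E (ψ' a) (ψ' b)) ∧ (∀ a b, ψ' a = z → ψ' b = z → a = b) ∧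
      (∀ u, (∀ a b, ψ a = u → ψ b = u → a = b) → (∀ a b, ψ' a = u → ψ' b = u → a = b)) := by
    intro l T hT ψ hψ z hz
    by_cases hx : ∃ a, ψ a = z
    · obtain ⟨T', f, ψ', h1, h2, h3, h4, h5, h6⟩ := ident_fibre T ψ E hψ z hz hx
      refine ⟨T' :: l, ⟨fun S hS => List.mem_cons_of_mem _ hS, fun m hm =>
        ⟨m + 1, Steps.ident T T' hm hT h1, le_rfl⟩⟩, T', List.mem_cons_self, ψ', h4, h5, ?_⟩
      intro u hu a b ha hb
      obtain ⟨a', rfl⟩ := h2 a
      obtain ⟨b', rfl⟩ := h2 b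
      rw [h3] at ha hb
      rw [hu a' b' ha hb]
    · exact ⟨l, Ext.refl.up (Nat.zero_le _), T, hT, ψ, hψ,
        fun a b ha _ => absurd ⟨a, ha⟩ hx, fun u hu => hu⟩
  obtain ⟨l1, e1, T1, hT1, ψ1, a1, a2, _⟩ := one l T hT ψ hψ x hEx
  obtain ⟨l2, e2, T2, hT2, ψ2, b1, b2, b3⟩ := one l1 T1 hT1 ψ1 a1 y hEy
  exact ⟨l2, e1.trans e2, T2, hT2, ψ2, b1, b3 x a2, b2⟩

theorem cut_run {l : List Dig} {W : Type} {H : W → W → Prop} {a b c : W} (hb : Bas l)
    (hac : H a c) (h1 : Clo l (Add H a b)) (h2 : Clo l (Add H b c)) :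
    ∃ l', Ext 5 l l' ∧ Clo l' H := by
  classical
  by_cases haa : H a a
  · exact ⟨l, Ext.refl.up (Nat.zero_le _), Clo.loop hb haa⟩
  by_cases hbb : H b b
  · exact ⟨l, Ext.refl.up (Nat.zero_le _), Clo.loop hb hbb⟩
  by_cases hcc : H c c
  · exact ⟨l, Ext.refl.up (Nat.zero_le _), Clo.loop hb hcc⟩
  by_cases hab : a = b
  · subst hab
    exact ⟨l, Ext.refl.up (Nat.zero_le _), h2.le (Add.triv hac)⟩
  by_cases hbc : b = c
  · subst hbc
    exact ⟨l, Ext.refl.up (Nat.zero_le _), h1.le (Add.triv hac)⟩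
  have hac' : a ≠ c := by rintro rfl; exact haa hac
  obtain ⟨T1, hT1, φ1, hφ1⟩ := h1
  obtain ⟨T2, hT2, φ2, hφ2⟩ := h2
  obtain ⟨l1, e1, A, hA, φ, hφ, uA1, uA2⟩ := ident_two T1 hT1 φ1 (Add H a b) hφ1 a b
    (by rintro (h | ⟨_, h⟩)
        · exact haa h
        · exact hab h)
    (by rintro (h | ⟨h, _⟩)
        · exact hbb h
        · exact hab h.symm)
  obtain ⟨l2, e2, B, hB, χ, hχ, uB1, uB2⟩ := ident_two (l := l1) T2 (e1.1 _ hT2) φ2 (Add H b c) hφ2
    b c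
    (by rintro (h | ⟨_, h⟩)
        · exact hbb h
        · exact hbc h)
    (by rintro (h | ⟨h, _⟩)
        · exact hcc h
        · exact hbc h.symm)
  have e12 : Ext 4 l l2 := e1.trans e2
  by_cases hu : ∃ u v, A.adj u v ∧ φ u = a ∧ φ v = b
  swap
  · refine ⟨l2, e12.up (by omega), A, e2.1 _ hA, φ, fun p q hpq => ?_⟩
    rcases hφ p q hpq with h | h
    · exact h
    · exact absurd ⟨p, q, hpq, h⟩ hu
  by_cases hv : ∃ v u, B.adj v u ∧ χ v = b ∧ χ u = c
  swap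
  · refine ⟨l2, e12.up (by omega), B, hB, χ, fun p q hpq => ?_⟩
    rcases hχ p q hpq with h | h
    · exact h
    · exact absurd ⟨p, q, hpq, h⟩ hv
  obtain ⟨u₁, v₁, huv, hu₁, hv₁⟩ := hu
  obtain ⟨v₂, u₂, hvu, hv₂, hu₂⟩ := hv
  have := A.fin
  have := B.fin
  have hu1v1 : u₁ ≠ v₁ := by rintro rfl; exact A.irr _ huv
  let f : A.V → {a : A.V // a ≠ v₁} ⊕ B.V := fun a =>
    if h : a = v₁ then Sum.inr v₂ else Sum.inl ⟨a, h⟩
  let g : B.V → {a : A.V // a ≠ v₁} ⊕ B.V := Sum.inr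
  let ψ : {a : A.V // a ≠ v₁} ⊕ B.V → W := Sum.elim (fun a => φ a.1) χ
  have hψf : ∀ a, ψ (f a) = φ a := by
    intro a
    by_cases h : a = v₁
    · subst h
      simp [f, ψ, hv₁, hv₂]
    · simp [f, ψ, h]
  have hψg : ∀ b, ψ (g b) = χ b := fun b => rfl
  have hf : Function.Injective f := by
    intro p q hpq
    by_cases h : p = v₁ <;> by_cases h' : q = v₁
    · rw [h, h']
    · simp [f, h, h'] at hpq
    · simp [f, h, h'] at hpq
    · simpa [f, h, h'] using hpq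
  have hg : Function.Injective g := Sum.inr_injective
  have hfg : ∀ p q, f p = g q ↔ (p = v₁ ∧ q = v₂) := by
    intro p q
    by_cases h : p = v₁
    · simp [f, g, h, eq_comm]
    · simp [f, g, h]
  let adj' : ({a : A.V // a ≠ v₁} ⊕ B.V) → ({a : A.V // a ≠ v₁} ⊕ B.V) → Prop := fun x y =>
    (∃ a a', f a = x ∧ f a' = y ∧ A.adj a a' ∧ ¬ (a = u₁ ∧ a' = v₁)) ∨
      (∃ b b', g b = x ∧ g b' = y ∧ B.adj b b' ∧ ¬ (b = v₂ ∧ b' = u₂)) ∨
      (x = f u₁ ∧ y = g u₂)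
  have hadj : ∀ p q, adj' p q → H (ψ p) (ψ q) := by
    rintro p q (⟨p', q', rfl, rfl, haa, hne⟩ | ⟨p', q', rfl, rfl, hbb, hne⟩ | ⟨rfl, rfl⟩)
    · rw [hψf, hψf]
      rcases hφ p' q' haa with h | ⟨h1, h2⟩
      · exact h
      · exact absurd ⟨uA1 _ _ h1 hu₁, uA2 _ _ h2 hv₁⟩ hne
    · rw [hψg, hψg]
      rcases hχ p' q' hbb with h | ⟨h1, h2⟩
      · exact h
      · exact absurd ⟨uB1 _ _ h1 hv₂, uB2 _ _ h2 hu₂⟩ hne
    · rw [hψf, hψg, hu₁, hu₂]
      exact hac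
  have hirr : ∀ p, ¬ adj' p p := by
    rintro p (⟨p', q', h1, h2, haa, _⟩ | ⟨p', q', h1, h2, hbb, _⟩ | ⟨h1, h2⟩)
    · have := hf (h1.trans h2.symm)
      subst this
      exact A.irr _ haa
    · have := hg (h1.trans h2.symm)
      subst this
      exact B.irr _ hbb
    · exact hu1v1 ((hfg u₁ u₂).1 (h1.symm.trans h2)).1
  have hjoin : IsJoin A B ⟨{a : A.V // a ≠ v₁} ⊕ B.V, inferInstance, adj', hirr⟩ := by
    refine ⟨u₁, v₁, v₂, u₂, f, g, huv, hvu, hf, hg, hfg, ?_, fun _ _ => Iff.rfl⟩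
    rintro (⟨p, hp⟩ | p)
    · exact Or.inl ⟨p, by simp [f, hp]⟩
    · exact Or.inr ⟨p, rfl⟩
  refine ⟨_ :: l2, e12.trans (c' := 1) ⟨fun S hS => List.mem_cons_of_mem _ hS, fun m hm =>
    ⟨m + 1, Steps.join A B _ hm (e2.1 _ hA) hB hjoin, le_rfl⟩⟩, _, List.mem_cons_self, ψ, hadj⟩

theorem Prf.run {l : List Dig} {W : Type} {n : ℕ} {H : W → W → Prop} (h : Prf l n H) :
    ∀ {l' : List Dig}, (∀ T ∈ l, T ∈ l') → Bas l' → ∃ l'', Ext (5 * n) l' l'' ∧ Clo l'' H := by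
  induction h with
  | ax h => intro l' hl _; exact ⟨l', Ext.refl.up (Nat.zero_le _), h.sub hl⟩
  | @cut n n₁ n₂ H a b c h1 h2 _ _ ih1 ih2 =>
    intro l' hl hb
    obtain ⟨l1, e1, c1⟩ := ih1 hl hb
    obtain ⟨l2, e2, c2⟩ := ih2 (fun T hT => e1.1 T (hl T hT)) (hb.ext e1)
    obtain ⟨l3, e3, c3⟩ := cut_run ((hb.ext e1).ext e2) h2 (c1.sub e2.1) c2
    exact ⟨l3, ((e1.trans e2).trans e3).up (by omega), c3⟩

end H3P
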