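import Pool.Agent.H3P.Uni

/-!
# H3P/Elim : definitions for the elimination; closing by a path
-/

namespace H3P

open HJ71

/-- `D` has walks of every length `≥ L` between any two vertices -/
def Wlk {V : Type} (D : V → V → Prop) (L : ℕ) : Prop :=
  ∀ r, L ≤ r → ∀ u v : V, ∃ z : ℕ → V, z 0 = u ∧ z r = v ∧ ∀ i < r, D (z i) (z (i + 1))

/-- the same for elements -/
theorem Wlk.el {V Ω : Type} {D : V → V → Prop} {L : ℕ} (h : Wlk D L) {r : ℕ} (hr : L ≤ r)
    (f g : Ω → V) : ∃ z : ℕ → Ω → V, z 0 = f ∧ z r = g ∧ ∀ i < r, ∀ ω, D (z i ω) (z (i + 1) ω) := by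
  choose z h0 h1 h2 using fun ω => h r hr (f ω) (g ω)
  exact ⟨fun i ω => z ω i, funext h0, funext h1, fun i hi ω => h2 ω i hi⟩

section

variable {V X C : Type}

/-- State 1 : a digon walk of length `j` from `t` to `a`, the digon `a b`, and a `D`-walk of length `s`
from the element `E` to `b`. -/
def S1 (D : V → V → Prop) (F : X → X → Prop) (m : ℕ) (P A : Dsc V X C → Dsc V X C → Prop) (t : X)
    (E : Dsc V X C) (j s : ℕ) (l : List Dig) : Prop :=
  ∀ (Γ : Ctx V X) (κ : Γ.K → C) (H : (Γ.Ω → V) → (Γ.Ω → V) → Prop), Inst D F m P A Γ κ H →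
    ∀ (a b : Γ.Ω → V) (z : ℕ → Γ.Ω → V), DW H j (Γ.el κ (rol t)) a → H a b → H b a →
      z 0 = Γ.el κ E → z s = b → (∀ i < s, ∀ ω, D (z i ω) (z (i + 1) ω)) → Clo l H

/-- State 2 : a digon walk of length `j` from `t` to `a`, the digon `a b`, the element `E` is not below `a` and
`b`, and a `D`-walk of length `s` from `b` to the element `E`. -/
def S2 (D : V → V → Prop) (F : X → X → Prop) (m : ℕ) (P A : Dsc V X C → Dsc V X C → Prop) (t : X)
    (E : Dsc V X C) (j s : ℕ) (l : List Dig) : Prop :=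
  ∀ (Γ : Ctx V X) (κ : Γ.K → C) (H : (Γ.Ω → V) → (Γ.Ω → V) → Prop), Inst D F m P A Γ κ H →
    ∀ (a b : Γ.Ω → V) (y : ℕ → Γ.Ω → V), DW H j (Γ.el κ (rol t)) a → H a b → H b a →
      H (Γ.el κ E) a → H (Γ.el κ E) b →
      y 0 = b → y s = Γ.el κ E → (∀ i < s, ∀ ω, D (y i ω) (y (i + 1) ω)) → Clo l H

/-- the two premises of the branching rule -/
def Pre2 (D : V → V → Prop) (F : X → X → Prop) (m : ℕ) (P A : Dsc V X C → Dsc V X C → Prop)
    (t f : X) (E : Dsc V X C) (l : List Dig) : Prop :=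
  Z D F m (Add P E (rol t)) A l ∧ Z D F m (Add P E (rol f)) A l

theorem Pre2.mon (D : V → V → Prop) (F : X → X → Prop) (m : ℕ)
    (P A : Dsc V X C → Dsc V X C → Prop) (t f : X) (E : Dsc V X C) :
    Mon (Pre2 D F m P A t f E) := (Z.mon _ _ _ _ _).and (Z.mon _ _ _ _ _)

theorem S1.mon (D : V → V → Prop) (F : X → X → Prop) (m : ℕ)
    (P A : Dsc V X C → Dsc V X C → Prop) (t : X) (E : Dsc V X C) (j s : ℕ) :
    Mon (S1 D F m P A t E j s) :=
  fun _ _ hl h Γ κ H hi a b z h1 h2 h3 h4 h5 h6 => (h Γ κ H hi a b z h1 h2 h3 h4 h5 h6).sub hl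

theorem S2.mon (D : V → V → Prop) (F : X → X → Prop) (m : ℕ)
    (P A : Dsc V X C → Dsc V X C → Prop) (t : X) (E : Dsc V X C) (j s : ℕ) :
    Mon (S2 D F m P A t E j s) :=
  fun _ _ hl h Γ κ H hi a b z h1 h2 h3 h4 h5 h6 h7 h8 =>
    (h Γ κ H hi a b z h1 h2 h3 h4 h5 h6 h7 h8).sub hl

/-- an instance plus further arcs is an instance -/
theorem Inst.up {D : V → V → Prop} {F : X → X → Prop} {m : ℕ}
    {P A : Dsc V X C → Dsc V X C → Prop} {Γ : Ctx V X} {κ : Γ.K → C}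
    {H H' : (Γ.Ω → V) → (Γ.Ω → V) → Prop} (hi : Inst D F m P A Γ κ H)
    (hH : ∀ f g, H f g → H' f g) : Inst D F m P A Γ κ H' :=
  ⟨fun f g h => hH _ _ (hi.amb f g h), fun E E' h => hH _ _ (hi.arc E E' h),
    fun E E' h => (hi.pth E E' h).le hH⟩

/-- closing by a path: a digon walk of length at most `m` from `t` to `E` closes -/
theorem pad {D : V → V → Prop} {F : X → X → Prop} {m : ℕ}
    {P A : Dsc V X C → Dsc V X C → Prop} {t f : X} {E : Dsc V X C} {l : List Dig}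
    (htf : F t f) (hft : F f t) (hp : Pre2 D F m P A t f E l) {Γ : Ctx V X} {κ : Γ.K → C}
    {H : (Γ.Ω → V) → (Γ.Ω → V) → Prop} (hi : Inst D F m P A Γ κ H) {r : ℕ} (hr : r ≤ m)
    (hw : DW H r (Γ.el κ (rol t)) (Γ.el κ E)) : Clo l H := by
  rcases Nat.even_or_odd' (m - r) with ⟨k, hk | hk⟩
  · refine hp.1 Γ κ H (hi.addP ?_)
    exact (hw.symm.trans (hi.even htf hft (fun _ => true) k)).cast (by omega)
  · refine hp.2 Γ κ H (hi.addP ?_)
    exact ((hw.symm.trans (hi.tf htf hft)).trans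
      (hi.even htf hft (fun _ => false) k)).cast (by omega)

end

end H3P
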