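import Pool.Agent.H3P.Elim

/-!
# H3P/Elim1 : state 1

PROOF of `s1_step`.  Write `e = Γ.el κ E` (`= z 0`).
`s = 0`: `b = e`: `pad` with the digon walk `t, ..., a, b` of length `j + 1 ≤ m`.  Let `s ≥ 1`.
*Scan*: for `k < s` and `H' ≥ H` with `H' (z k) a` and `H' (z k) b`: `Prf l (2 k) H'`, by induction on `k`.
 `k = 0`: `z 0 = e`; take (`Wlk.el`, `r = L`) a `D`-walk of length `L` from `b` to `e`: `hS2 j` closes `H'`.
 `k ≥ 1`: cut the `D`-arc `z (k-1) → z k` at `a`: in the branch `a → z k` the pair `a, z k` is a digon: `ih j k`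
  (with `b := z k` and the walk `z`) closes it.  In the branch `z (k-1) → a` cut the arc `z (k-1) → z k` at `b`: the branch
  `b → z k` (digon `b, z k`) is closed by `ih (j+1) k` (digon walk `t, ..., a, b` of length `j + 1`, digon `b, z k`,
  walk `z`); the branch `z (k-1) → b` by the induction hypothesis of the scan.
*Start*: cut the arc `b → a` at `z (s-1)`: in the branch `b → z (s-1)` the pair `b, z (s-1)` is a digon (`z (s-1) → z s = b` is
 a `D`-arc): `ih (j+1) (s-1)`.  In the branch `z (s-1) → a` use the scan with `k = s - 1`.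
Number of cuts: `1 + 2 (s - 1) ≤ 2 s`.
-/

namespace H3P

open HJ71

section

variable {V X C : Type} {D : V → V → Prop} {F : X → X → Prop} {m L : ℕ}
  {P A : Dsc V X C → Dsc V X C → Prop} {t f : X} {E : Dsc V X C}

theorem s1_step (hm : m = 2 * L + 2) (hW : Wlk D L) (htf : F t f) (hft : F f t) {l : List Dig}
    (hb : Bas l) (hp : Pre2 D F m P A t f E l) {j s : ℕ} (hjs : j + s ≤ L)
    (hS2 : ∀ j, j ≤ L → S2 D F m P A t E j L l)
    (ih : ∀ j' s', s' < s → j' + s' ≤ L → S1 D F m P A t E j' s' l)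
    {Γ : Ctx V X} {κ : Γ.K → C} {H : (Γ.Ω → V) → (Γ.Ω → V) → Prop} (hi : Inst D F m P A Γ κ H)
    (a b : Γ.Ω → V) (z : ℕ → Γ.Ω → V) (h1 : DW H j (Γ.el κ (rol t)) a) (h2 : H a b) (h3 : H b a)
    (h4 : z 0 = Γ.el κ E) (h5 : z s = b)
    (h6 : ∀ i < s, ∀ ω, D (z i ω) (z (i + 1) ω)) : Prf l (2 * s) H := by
  rcases Nat.eq_zero_or_pos s with hs | hs
  · subst hs
    have hbe : b = Γ.el κ E := h5.symm.trans h4
    refine Prf.ax (pad htf hft hp hi (r := j + 1) (by omega) ?_)
    rw [← hbe]
    exact h1.trans (DW.one h2 h3)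
  -- the scan
  have scan : ∀ k, k < s → ∀ H' : (Γ.Ω → V) → (Γ.Ω → V) → Prop,
      (∀ f g, H f g → H' f g) → H' (z k) a → H' (z k) b → Prf l (2 * k) H' := by
    intro k
    induction k with
    | zero =>
      intro _ H' hH hza hzb
      obtain ⟨y, hy0, hyL, hy⟩ := hW.el le_rfl b (Γ.el κ E)
      rw [h4] at hza hzb
      exact Prf.ax (hS2 j (by omega) Γ κ H' (hi.up hH) a b y (h1.le hH) (hH _ _ h2) (hH _ _ h3)
        hza hzb hy0 hyL hy)
    | succ k ihk =>
      intro hk H' hH hza hzb
      have harc : H' (z k) (z (k + 1)) := hH _ _ (hi.ofD (h6 k (by omega)))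
      refine Prf.cut (n₁ := 2 * k + 1) (n₂ := 0) (z k) a (z (k + 1)) (by omega) harc ?_ (Prf.ax ?_)
      · refine Prf.cut (n₁ := 2 * k) (n₂ := 0) (z k) b (z (k + 1)) (by omega) (Add.old harc) ?_
          (Prf.ax ?_)
        · exact ihk (by omega) _ (fun f g h => Add.old (Add.old (hH f g h))) (Add.old Add.new)
            Add.new
        · refine ih (j + 1) (k + 1) hk (by omega) Γ κ _ (hi.up fun f g h =>
            Add.old (Add.old (hH f g h))) b (z (k + 1)) z ?_ Add.new (Add.old (Add.old hzb)) h4 rfl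
            (fun i hi' => h6 i (by omega))
          exact (h1.le fun f g h => Add.old (Add.old (hH f g h))).trans
            (DW.one (Add.old (Add.old (hH _ _ h2))) (Add.old (Add.old (hH _ _ h3))))
      · exact ih j (k + 1) hk (by omega) Γ κ _ (hi.up fun f g h => Add.old (hH f g h)) a
          (z (k + 1)) z (h1.le fun f g h => Add.old (hH f g h)) Add.new (Add.old hza) h4 rfl
          (fun i hi' => h6 i (by omega))
  -- the start
  have harc : H (z (s - 1)) b := by
    have := hi.ofD (h6 (s - 1) (by omega))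
    rwa [show s - 1 + 1 = s by omega, h5] at this
  refine Prf.cut (n₁ := 0) (n₂ := 2 * (s - 1)) b (z (s - 1)) a (by omega) h3 (Prf.ax ?_) ?_
  · refine ih (j + 1) (s - 1) (by omega) (by omega) Γ κ _ (hi.up fun f g h => Add.old h) b
      (z (s - 1)) z ?_ Add.new (Add.old harc) h4 rfl (fun i hi' => h6 i (by omega))
    exact (h1.le fun f g h => Add.old h).trans (DW.one (Add.old h2) (Add.old h3))
  · exact scan (s - 1) (by omega) _ (fun f g h => Add.old h) Add.new (Add.old harc)

end

end H3P
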