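import Pool.Agent.H3P.Elim1
import Pool.Agent.H3P.Elim2D

/-!
# H3P/Elim1D : state 1, the table

PROOF of `s1_der`.  As `s2_der` (`Elim2`): for fixed `j, s` use `uniY` with `Y = ℕ ⊕ ℕ`, constraint `w 0 = a t`,
`z 0 = E c a`, `∀ i < s, D (z i) (z (i+1))`, arcs `w i ↔ w (i+1)` (`i < j`), `w j ↔ z s`; then `Der.table` twice.
-/

namespace H3P

open HJ71

section

variable {V X C : Type} {D : V → V → Prop} {F : X → X → Prop} {m L : ℕ}
  {P A : Dsc V X C → Dsc V X C → Prop} {t f : X} {E : Dsc V X C}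

/-- the arcs of the universal instance of state 1 -/
inductive B1 {V X C : Type} (j s : ℕ) :
    (C → (X → V) → (ℕ ⊕ ℕ → V) → V) → (C → (X → V) → (ℕ ⊕ ℕ → V) → V) → Prop
  | p1 (i : ℕ) (hi : i < j) : B1 j s (nm (Sum.inl i)) (nm (Sum.inl (i + 1)))
  | p2 (i : ℕ) (hi : i < j) : B1 j s (nm (Sum.inl (i + 1))) (nm (Sum.inl i))
  | d1 : B1 j s (nm (Sum.inl j)) (nm (Sum.inr s))
  | d2 : B1 j s (nm (Sum.inr s)) (nm (Sum.inl j))

theorem s1_uni (hm : 0 < m) {l : List Dig} (hb : Bas l) {j s n : ℕ}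
    (h : ∀ (Γ : Ctx V X) (κ : Γ.K → C) (H : (Γ.Ω → V) → (Γ.Ω → V) → Prop),
      Inst D F m P A Γ κ H → ∀ (a b : Γ.Ω → V) (z : ℕ → Γ.Ω → V), DW H j (Γ.el κ (rol t)) a →
        H a b → H b a → z 0 = Γ.el κ E → z s = b →
        (∀ i < s, ∀ ω, D (z i ω) (z (i + 1) ω)) → Prf l n H) :
    ∃ l', Ext (5 * n) l l' ∧ S1 D F m P A t E j s l' := by
  obtain ⟨l', e', h'⟩ := uniY (Y := ℕ ⊕ ℕ) (D := D) (F := F) (P := P) (A := A) (n := n) hm hb
    (fun c a y => y (Sum.inl 0) = a t ∧ y (Sum.inr 0) = E c a ∧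
      ∀ i < s, D (y (Sum.inr i)) (y (Sum.inr (i + 1)))) (B1 j s) (by
    intro Γ κ H hi y hy hB
    refine h Γ κ H hi (y (Sum.inl j)) (y (Sum.inr s)) (fun i => y (Sum.inr i))
      ⟨fun i => y (Sum.inl i), ?_, rfl, fun i hij => ⟨?_, ?_⟩⟩ ?_ ?_ ?_ rfl ?_
    · exact funext fun ω => (hy ω).1
    · exact hB _ _ (B1.p1 i hij)
    · exact hB _ _ (B1.p2 i hij)
    · exact hB _ _ B1.d1
    · exact hB _ _ B1.d2
    · exact funext fun ω => (hy ω).2.1
    · exact fun i hi ω => (hy ω).2.2 i hi)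
  refine ⟨l', e', ?_⟩
  intro Γ κ H hi a b z h1 h2 h3 h4 h5 h6
  obtain ⟨w, w0, wj, hw⟩ := h1
  refine h' Γ κ H hi (Sum.elim w z) (fun ω => ⟨?_, ?_, ?_⟩) ?_
  · exact congrFun w0 ω
  · exact congrFun h4 ω
  · exact fun i hi => h6 i hi ω
  · intro E1 E2 hE
    cases hE with
    | p1 i hi => exact (hw i hi).1
    | p2 i hi => exact (hw i hi).2
    | d1 =>
      show H (w j) (z s)
      rw [wj, h5]; exact h2
    | d2 =>
      show H (z s) (w j)
      rw [wj, h5]; exact h3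

theorem s1_der (hm : m = 2 * L + 2) (hW : Wlk D L) (htf : F t f) (hft : F f t) :
    Der (10 * (L + 1) ^ 3)
      (fun l => Pre2 D F m P A t f E l ∧ ∀ j, j ≤ L → S2 D F m P A t E j L l)
      (fun l => ∀ s < L + 1, ∀ j, j + s ≤ L → S1 D F m P A t E j s l) := by
  have hmon : Mon (fun l => Pre2 D F m P A t f E l ∧ ∀ j, j ≤ L → S2 D F m P A t E j L l) :=
    (Pre2.mon D F m P A t f E).and (Mon.all fun j => Mon.imp (S2.mon D F m P A t E j L))
  have hQ : ∀ s, Mon (fun l => ∀ j, j + s ≤ L → S1 D F m P A t E j s l) := fun s =>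
    Mon.all fun j => Mon.imp (S1.mon D F m P A t E j s)
  have key := Der.table (c := (L + 1) * (5 * (2 * (L + 1))))
    (P := fun l => Pre2 D F m P A t f E l ∧ ∀ j, j ≤ L → S2 D F m P A t E j L l)
    (Q := fun s l => ∀ j, j + s ≤ L → S1 D F m P A t E j s l) hmon hQ (L + 1) (by
    intro s hs
    have t2 := Der.table (c := 5 * (2 * (L + 1)))
      (P := fun l => (Pre2 D F m P A t f E l ∧ ∀ j, j ≤ L → S2 D F m P A t E j L l) ∧
        ∀ s' < s, ∀ j, j + s' ≤ L → S1 D F m P A t E j s' l)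
      (Q := fun j l => j + s ≤ L → S1 D F m P A t E j s l)
      (hmon.and (Mon.all fun s' => Mon.imp (hQ s')))
      (fun j => Mon.imp (S1.mon D F m P A t E j s)) (L + 1) (by
      intro j hj l hb hl
      by_cases hjs : j + s ≤ L
      · obtain ⟨l', e', h'⟩ := s1_uni (D := D) (F := F) (P := P) (A := A) (t := t) (E := E)
          (m := m) (n := 2 * s) (by omega) hb (j := j) (s := s)
          (fun Γ κ H hi a b z h1 h2 h3 h4 h5 h6 =>
            s1_step hm hW htf hft hb hl.1.1.1 hjs hl.1.1.2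
              (fun j' s' hs' hjs' => hl.1.2 s' hs' j' hjs') hi a b z h1 h2 h3 h4 h5 h6)
        exact ⟨l', e'.up (by omega), fun _ => h'⟩
      · exact ⟨l, Ext.refl.up (Nat.zero_le _), fun h => absurd h hjs⟩)
    exact t2.post (fun l _ h j hj => h j (by omega) hj))
  exact key.up (by
    have : (L + 1) * ((L + 1) * (5 * (2 * (L + 1)))) = 10 * (L + 1) ^ 3 := by ring
    omega)

end

end H3P
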