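import Pool.Agent.H3P.Elim

/-!
# H3P/Elim2 : state 2

PROOF of `s2_step`.  Write `e = Γ.el κ E`.  In every relation `H' ≥ H` (use `Inst.up`, `Add.old`, `DW.le`) we have:
* *path closings*: if `H' a e` (so `a, e` is a digon) then `Clo l H'`: `pad` with the digon walk `t, ..., a, e` of
  length `j + 1 ≤ m`; if `H' b e` then `Clo l H'`: `t, ..., a, b, e` of length `j + 2 ≤ m`.
`s = 0`: `b = e`, so `H e e`: `Clo.loop`.  Let `s ≥ 1`.
*Scan*: for `1 ≤ k ≤ s` and `H' ≥ H` with `H' a (y k)` and `H' b (y k)`: `Prf l (4 (s - k)) H'`, by induction on `s - k`.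
 `k = s`: `y s = e`, path closing (`H' a e`).
 `k < s`: cut the arc `y k → y (k+1)` (a `D`-arc, `Inst.ofD`) at `a`:
  (i) branch `y k → a`: now `y k, a` is a digon.  Cut the arc `a → y k` at `e`: the branch `a → e` is a path closing; in
   the branch `e → y k` apply `ih j (s - k)` to the digon `a, y k` (instead of `a, b`) and the walk `y (k + ·)`.
  (ii) branch `a → y (k+1)`: cut the arc `y k → y (k+1)` at `b`: in the branch `y k → b` (a digon `b, y k`) cut
   the arc `b → y k` at `e`: the branch `b → e` is a path closing; in the branch `e → y k` apply `ih (j+1) (s - k)` to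
   the digon walk `t, ..., a, b` of length `j + 1`, the digon `b, y k` and the walk `y (k + ·)`
   (`(j + 1) + (s - k) ≤ j + s`).  In the branch `b → y (k+1)` use the induction hypothesis of the scan.
*Start*: cut the arc `a → b` at `y 1`: in the branch `a → y 1` use the scan with `k = 1` (`b = y 0 → y 1` is a `D`-arc).
 In the branch `y 1 → b` (a digon `b, y 1`) cut the arc `b → y 1` at `e`: the branch `b → e` is a path closing; in the branch
 `e → y 1` apply `ih (j+1) (s-1)` to the digon `b, y 1` and the walk `y (1 + ·)`.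
Number of cuts: `2 + 4 (s - 1) ≤ 4 s`.
-/

namespace H3P

open HJ71

section

variable {V X C : Type} {D : V → V → Prop} {F : X → X → Prop} {m L : ℕ}
  {P A : Dsc V X C → Dsc V X C → Prop} {t f : X} {E : Dsc V X C}

theorem s2_step (hm : m = 2 * L + 2) (htf : F t f) (hft : F f t) {l : List Dig} (hb : Bas l)
    (hp : Pre2 D F m P A t f E l) {j s : ℕ} (hjs : j + s ≤ 2 * L)
    (ih : ∀ j' s', s' < s → j' + s' ≤ 2 * L → S2 D F m P A t E j' s' l)
    {Γ : Ctx V X} {κ : Γ.K → C} {H : (Γ.Ω → V) → (Γ.Ω → V) → Prop} (hi : Inst D F m P A Γ κ H)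
    (a b : Γ.Ω → V) (y : ℕ → Γ.Ω → V) (h1 : DW H j (Γ.el κ (rol t)) a) (h2 : H a b) (h3 : H b a)
    (h4 : H (Γ.el κ E) a) (h5 : H (Γ.el κ E) b) (h6 : y 0 = b) (h7 : y s = Γ.el κ E)
    (h8 : ∀ i < s, ∀ ω, D (y i ω) (y (i + 1) ω)) : Prf l (4 * s) H := by
  obtain ⟨e, he⟩ : ∃ e, e = Γ.el κ E := ⟨_, rfl⟩
  rw [← he] at h4 h5 h7
  -- path closings
  have pa : ∀ H' : (Γ.Ω → V) → (Γ.Ω → V) → Prop, (∀ f g, H f g → H' f g) → H' a e → Clo l H' := by
    intro H' hH hae
    refine pad htf hft hp (hi.up hH) (r := j + 1) (by omega) ?_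
    rw [← he]
    exact (h1.le hH).trans (DW.one hae (hH _ _ h4))
  have pb : ∀ H' : (Γ.Ω → V) → (Γ.Ω → V) → Prop, (∀ f g, H f g → H' f g) → H' b e → Clo l H' := by
    intro H' hH hbe
    refine pad htf hft hp (hi.up hH) (r := j + 1 + 1) (by omega) ?_
    rw [← he]
    exact ((h1.le hH).trans (DW.one (hH _ _ h2) (hH _ _ h3))).trans (DW.one hbe (hH _ _ h5))
  rcases Nat.eq_zero_or_pos s with hs | hs
  · subst hs
    refine Prf.ax (Clo.loop hb (x := e) ?_)
    have : b = e := h6.symm.trans h7
    rw [← this] at h5 ⊢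
    exact h5
  -- the scan
  have scan : ∀ d k, d = s - k → 1 ≤ k → k ≤ s → ∀ H' : (Γ.Ω → V) → (Γ.Ω → V) → Prop,
      (∀ f g, H f g → H' f g) → H' a (y k) → H' b (y k) → Prf l (4 * d) H' := by
    intro d
    induction d with
    | zero =>
      intro k hd hk1 hks H' hH hak hbk
      have : k = s := by omega
      subst this
      rw [h7] at hak
      exact Prf.ax (pa H' hH hak)
    | succ d ihd =>
      intro k hd hk1 hks H' hH hak hbk
      have hk : k < s := by omega
      have harc : H' (y k) (y (k + 1)) := hH _ _ (hi.ofD (h8 k hk))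
      refine Prf.cut (n₁ := 1) (n₂ := 4 * d + 2) (y k) a (y (k + 1)) (by omega) harc ?_ ?_
      · -- `y k → a`
        refine Prf.cut (n₁ := 0) (n₂ := 0) a e (y k) (by omega) (Add.old hak) (Prf.ax ?_)
          (Prf.ax ?_)
        · exact pa _ (fun f g h => Add.old (Add.old (hH f g h))) Add.new
        · refine ih j (s - k) (by omega) (by omega) Γ κ _ (hi.up fun f g h =>
            Add.old (Add.old (hH f g h))) a (y k) (fun i => y (k + i))
            (h1.le fun f g h => Add.old (Add.old (hH f g h))) (Add.old (Add.old hak))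
            (Add.old Add.new) ?_ ?_ (by simp) ?_ ?_
          · rw [← he]; exact Add.old (Add.old (hH _ _ h4))
          · rw [← he]; exact Add.new
          · show y (k + (s - k)) = _
            rw [show k + (s - k) = s by omega, h7, he]
          · intro i hi' ω
            exact h8 (k + i) (by omega) ω
      · -- `a → y (k+1)`
        refine Prf.cut (n₁ := 1) (n₂ := 4 * d) (y k) b (y (k + 1)) (by omega) (Add.old harc) ?_ ?_
        · refine Prf.cut (n₁ := 0) (n₂ := 0) b e (y k) (by omega) (Add.old (Add.old hbk))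
            (Prf.ax ?_) (Prf.ax ?_)
          · exact pb _ (fun f g h => Add.old (Add.old (Add.old (hH f g h)))) Add.new
          · refine ih (j + 1) (s - k) (by omega) (by omega) Γ κ _ (hi.up fun f g h =>
              Add.old (Add.old (Add.old (hH f g h)))) b (y k) (fun i => y (k + i)) ?_
              (Add.old (Add.old (Add.old hbk))) (Add.old Add.new) ?_ ?_ (by simp) ?_ ?_
            · exact (h1.le fun f g h => Add.old (Add.old (Add.old (hH f g h)))).trans
                (DW.one (Add.old (Add.old (Add.old (hH _ _ h2))))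
                  (Add.old (Add.old (Add.old (hH _ _ h3)))))
            · rw [← he]; exact Add.old (Add.old (Add.old (hH _ _ h5)))
            · rw [← he]; exact Add.new
            · show y (k + (s - k)) = _
              rw [show k + (s - k) = s by omega, h7, he]
            · intro i hi' ω
              exact h8 (k + i) (by omega) ω
        · exact ihd (k + 1) (by omega) (by omega) (by omega) _
            (fun f g h => Add.old (Add.old (hH f g h))) (Add.old Add.new) Add.new
  -- the start
  have harc : H b (y 1) := by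
    have := hi.ofD (h8 0 hs)
    rwa [h6] at this
  refine Prf.cut (n₁ := 4 * (s - 1)) (n₂ := 1) a (y 1) b (by omega) h2 ?_ ?_
  · exact scan (s - 1) 1 rfl le_rfl hs _ (fun f g h => Add.old h) Add.new (Add.old harc)
  · refine Prf.cut (n₁ := 0) (n₂ := 0) b e (y 1) (by omega) (Add.old harc) (Prf.ax ?_) (Prf.ax ?_)
    · exact pb _ (fun f g h => Add.old (Add.old h)) Add.new
    · refine ih (j + 1) (s - 1) (by omega) (by omega) Γ κ _ (hi.up fun f g h =>
        Add.old (Add.old h)) b (y 1) (fun i => y (1 + i)) ?_ (Add.old (Add.old harc))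
        (Add.old Add.new) ?_ ?_ (by simp) ?_ ?_
      · exact (h1.le fun f g h => Add.old (Add.old h)).trans
          (DW.one (Add.old (Add.old h2)) (Add.old (Add.old h3)))
      · rw [← he]; exact Add.old (Add.old h5)
      · rw [← he]; exact Add.new
      · show y (1 + (s - 1)) = _
        rw [show 1 + (s - 1) = s by omega, h7, he]
      · intro i hi' ω
        exact h8 (1 + i) (by omega) ω

end

end H3P
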