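import Mathlib

/-!
# H3P/FW : the Floyd-Warshall recursion

PROOF of `fw_complete`.  Say `Q j u v`: there is a list (walk) `u = x₀, x₁, ..., x_r = v`, `r ≥ 1`, `M x_i x_{i+1}`, all inner
vertices in `{w 0, ..., w (j-1)}`.  Claim `Q j u v → fw M w j u v`, by induction on `j`.  `j = 0`: no inner vertices,
`r = 1`.  `j + 1`: if `w j` is not an inner vertex of the walk, use `Q j u v`.  Otherwise cut the walk at the first and at the
last inner occurrence of `w j`: `Q j u (w j)` and `Q j (w j) v`, so `fw (j+1) u v`.
(Equivalently, by strong induction on the length.  One may also avoid walks: define `Q j` as the relation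
`T j u v := Relation.TransGen`-like inductive predicate `P j`: `single : M u v → P j u v`,
`glue : i < j → P j u (w i) → P j (w i) v → P j u v`, prove `P (j+1) u v → fw M w (j+1) u v` by showing that `fw M w (j+1)`
is closed under gluing at `w i`, `i ≤ j`: by induction on `j`, `fw j` is closed under gluing at `w i` for `i < j`.)
`TransGen M u v → fw M w n u v` if every vertex is some `w i`, `i < n`: gluing at every vertex is possible.
PROOF of `fw_cycle`.  `TransGen M x x`: there is `y` with `ReflTransGen M x y` and `M y x`.  If `x = y` take `u = v = x`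
(`M x x`, and `fw` contains `M`); otherwise `TransGen M x y`; take `u = x`, `v = y`.
-/

namespace H3P

/-- the Floyd-Warshall recursion -/
def fw {V : Type} (M : V → V → Prop) (w : ℕ → V) : ℕ → V → V → Prop
  | 0 => M
  | j + 1 => fun u v => fw M w j u v ∨ (fw M w j u (w j) ∧ fw M w j (w j) v)

theorem fw_mono {V : Type} (M : V → V → Prop) (w : ℕ → V) (j : ℕ) {u v : V} (h : M u v) :
    fw M w j u v := by
  induction j with
  | zero => exact h
  | succ j ih => exact Or.inl ih

theorem fw_glue {V : Type} (M : V → V → Prop) (w : ℕ → V) (j : ℕ) :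
    ∀ i < j, ∀ u v : V, fw M w j u (w i) → fw M w j (w i) v → fw M w j u v := by
  induction j with
  | zero => intro i hi; omega
  | succ j ih =>
    intro i hi u v h1 h2
    rcases Nat.lt_succ_iff_lt_or_eq.mp hi with hij | hij
    · rcases h1 with h1 | ⟨h1, h1'⟩ <;> rcases h2 with h2 | ⟨h2, h2'⟩
      · exact Or.inl (ih i hij u v h1 h2)
      · exact Or.inr ⟨ih i hij u (w j) h1 h2, h2'⟩
      · exact Or.inr ⟨h1, ih i hij (w j) v h1' h2⟩
      · exact Or.inr ⟨h1, h2'⟩
    · subst hij
      have h1' : fw M w i u (w i) := by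
        rcases h1 with h1 | ⟨h1, _⟩ <;> exact h1
      have h2' : fw M w i (w i) v := by
        rcases h2 with h2 | ⟨_, h2⟩ <;> exact h2
      exact Or.inr ⟨h1', h2'⟩

theorem fw_complete {V : Type} (M : V → V → Prop) (w : ℕ → V) (n : ℕ)
    (hw : ∀ x, ∃ i < n, w i = x) {u v : V} (h : Relation.TransGen M u v) : fw M w n u v := by
  induction h with
  | single h => exact fw_mono M w n h
  | @tail b c _ hbc ih =>
    obtain ⟨i, hi, rfl⟩ := hw b
    exact fw_glue M w n i hi _ _ ih (fw_mono M w n hbc)

theorem fw_cycle {V : Type} (M : V → V → Prop) (w : ℕ → V) (n : ℕ)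
    (hw : ∀ x, ∃ i < n, w i = x) {x : V} (h : Relation.TransGen M x x) :
    ∃ u v, M v u ∧ fw M w n u v := by
  obtain ⟨y, hy, hyx⟩ := Relation.TransGen.tail'_iff.mp h
  rcases Relation.reflTransGen_iff_eq_or_transGen.mp hy with h1 | h1
  · subst h1
    exact ⟨_, _, hyx, fw_mono M w n hyx⟩
  · exact ⟨x, y, hyx, fw_complete M w n hw h1⟩

end H3P
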