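import Pool.Agent.H3P.Ctx

/-!
# H3P/Uni : a statement about all instances follows from the universal instance
-/

namespace H3P

open HJ71

/-- the value of a description with further names `y : Y → Ω → V` -/
def Ctx.el2 {V X Y : Type} (Γ : Ctx V X) {C : Type} (κ : Γ.K → C) (y : Y → Γ.Ω → V)
    (E : C → (X → V) → (Y → V) → V) : Γ.Ω → V :=
  fun ω => E (κ (Γ.cell ω)) (fun x => Γ.π x ω) (fun j => y j ω)

section

variable {V X C Y : Type} {D : V → V → Prop} {F : X → X → Prop} {m : ℕ}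
  {P A : Dsc V X C → Dsc V X C → Prop} {l : List Dig} {n : ℕ}

/-- the worlds of the universal instance -/
abbrev UΩ (V X C Y : Type) (P : Dsc V X C → Dsc V X C → Prop)
    (W : C → (X → V) → (Y → V) → Prop) : Type :=
  {ω : C × (X → V) × (Y → V) × ({p : Dsc V X C × Dsc V X C // P p.1 p.2} → ℕ → V) //
    W ω.1 ω.2.1 ω.2.2.1}

/-- the universal context -/
def UC (V X C Y : Type) (P : Dsc V X C → Dsc V X C → Prop)
    (W : C → (X → V) → (Y → V) → Prop) : Ctx V X where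
  Ω := UΩ V X C Y P W
  K := C
  cell := fun ω => ω.1.1
  π := fun x ω => ω.1.2.1 x

/-- the paths of the universal instance -/
def uw (P : Dsc V X C → Dsc V X C → Prop) (W : C → (X → V) → (Y → V) → Prop) (m : ℕ)
    (p : {p : Dsc V X C × Dsc V X C // P p.1 p.2}) (i : ℕ) : (UC V X C Y P W).Ω → V :=
  fun ω => if i = 0 then p.1.1 ω.1.1 ω.1.2.1 else if i = m then p.1.2 ω.1.1 ω.1.2.1
    else ω.1.2.2.2 p i

/-- the universal target -/
def UH (D : V → V → Prop) (F : X → X → Prop) (m : ℕ) (P A : Dsc V X C → Dsc V X C → Prop)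
    (W : C → (X → V) → (Y → V) → Prop)
    (B : (C → (X → V) → (Y → V) → V) → (C → (X → V) → (Y → V) → V) → Prop) :
    ((UC V X C Y P W).Ω → V) → ((UC V X C Y P W).Ω → V) → Prop := fun f g =>
  Amb D F (UC V X C Y P W) f g ∨
  (∃ E E', A E E' ∧ f = (UC V X C Y P W).el id E ∧ g = (UC V X C Y P W).el id E') ∨
  (∃ E E', B E E' ∧ f = (UC V X C Y P W).el2 id (fun j ω => ω.1.2.2.1 j) E ∧
    g = (UC V X C Y P W).el2 id (fun j ω => ω.1.2.2.1 j) E') ∨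
  ∃ p, ∃ i < m, (f = uw P W m p i ∧ g = uw P W m p (i + 1)) ∨
    (g = uw P W m p i ∧ f = uw P W m p (i + 1))

theorem uniY (hm : 0 < m) (hb : Bas l) (W : C → (X → V) → (Y → V) → Prop)
    (B : (C → (X → V) → (Y → V) → V) → (C → (X → V) → (Y → V) → V) → Prop)
    (h : ∀ (Γ : Ctx V X) (κ : Γ.K → C) (H : (Γ.Ω → V) → (Γ.Ω → V) → Prop),
      Inst D F m P A Γ κ H → ∀ y : Y → Γ.Ω → V,
      (∀ ω, W (κ (Γ.cell ω)) (fun x => Γ.π x ω) (fun j => y j ω)) →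
      (∀ E E', B E E' → H (Γ.el2 κ y E) (Γ.el2 κ y E')) → Prf l n H) :
    ∃ l', Ext (5 * n) l l' ∧ ∀ (Γ : Ctx V X) (κ : Γ.K → C) (H : (Γ.Ω → V) → (Γ.Ω → V) → Prop),
      Inst D F m P A Γ κ H → ∀ y : Y → Γ.Ω → V,
      (∀ ω, W (κ (Γ.cell ω)) (fun x => Γ.π x ω) (fun j => y j ω)) →
      (∀ E E', B E E' → H (Γ.el2 κ y E) (Γ.el2 κ y E')) → Clo l' H := by
  classical
  have hU : Prf l n (UH D F m P A W B) := by
    refine h (UC V X C Y P W) id (UH D F m P A W B) ⟨fun f g hf => Or.inl hf, fun E E' hE =>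
      Or.inr (Or.inl ⟨E, E', hE, rfl, rfl⟩), fun E E' hE => ?_⟩ (fun j ω => ω.1.2.2.1 j)
      (fun ω => ω.2) (fun E E' hE => Or.inr (Or.inr (Or.inl ⟨E, E', hE, rfl, rfl⟩)))
    refine ⟨uw P W m ⟨(E, E'), hE⟩, ?_, ?_, fun i hi => ⟨?_, ?_⟩⟩
    · funext ω; simp [uw, Ctx.el, UC]
    · funext ω; simp [uw, Ctx.el, UC, hm.ne']
    · exact Or.inr (Or.inr (Or.inr ⟨_, i, hi, Or.inl ⟨rfl, rfl⟩⟩))
    · exact Or.inr (Or.inr (Or.inr ⟨_, i, hi, Or.inr ⟨rfl, rfl⟩⟩))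
  obtain ⟨l', e', c'⟩ := hU.run (fun T hT => hT) hb
  refine ⟨l', e', fun Γ κ H hi y hW hB => ?_⟩
  choose w hw0 hwm hw using fun (p : {p : Dsc V X C × Dsc V X C // P p.1 p.2}) =>
    hi.pth p.1.1 p.1.2 p.2
  let θ : Γ.Ω → (UC V X C Y P W).Ω := fun ω =>
    ⟨(κ (Γ.cell ω), fun x => Γ.π x ω, fun j => y j ω, fun p i => w p i ω), hW ω⟩
  have hwθ : ∀ p i, i ≤ m → uw P W m p i ∘ θ = w p i := by
    intro p i him
    funext ω
    simp only [uw, Function.comp, θ]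
    split_ifs with h1 h2
    · subst h1; rw [hw0]; rfl
    · subst h2; rw [hwm]; rfl
    · rfl
  refine c'.hom (fun f => f ∘ θ) ?_
  rintro f g (hf | ⟨E, E', hE, rfl, rfl⟩ | ⟨E, E', hE, rfl, rfl⟩ | ⟨p, i, him, hfg⟩)
  · refine hi.amb _ _ fun k => ?_
    rcases hf (κ k) with hf | ⟨x, x', hx, hf⟩
    · refine Or.inl fun ω hω => hf (θ ω) ?_
      show κ (Γ.cell ω) = κ k
      rw [hω]
    · refine Or.inr ⟨x, x', hx, fun ω hω => hf (θ ω) ?_⟩
      show κ (Γ.cell ω) = κ k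
      rw [hω]
  · exact hi.arc E E' hE
  · exact hB E E' hE
  · rcases hfg with ⟨rfl, rfl⟩ | ⟨rfl, rfl⟩
    · rw [hwθ p i him.le, hwθ p (i + 1) him]
      exact (hw p i him).1
    · rw [hwθ p i him.le, hwθ p (i + 1) him]
      exact (hw p i him).2

/-- uniformization for `Z` -/
theorem uniZ (hm : 0 < m) (hb : Bas l)
    (h : ∀ (Γ : Ctx V X) (κ : Γ.K → C) (H : (Γ.Ω → V) → (Γ.Ω → V) → Prop),
      Inst D F m P A Γ κ H → Prf l n H) : ∃ l', Ext (5 * n) l l' ∧ Z D F m P A l' := by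
  obtain ⟨l', e', h'⟩ := uniY (Y := Empty) (D := D) (F := F) (P := P) (A := A) (n := n) hm hb
    (fun _ _ _ => True) (fun _ _ => False) (fun Γ κ H hi _ _ _ => h Γ κ H hi)
  exact ⟨l', e', fun Γ κ H hi => h' Γ κ H hi (fun j => j.elim) (fun _ => trivial)
    (fun _ _ hf => hf.elim)⟩

/-- cut for `Z` -/
theorem Z.cut {P A : Dsc V X C → Dsc V X C → Prop} (hm : 0 < m) (hb : Bas l)
    {E1 E2 E3 : Dsc V X C} (hA : A E1 E3) (h1 : Z D F m P (Add A E1 E2) l)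
    (h2 : Z D F m P (Add A E2 E3) l) : ∃ l', Ext 5 l l' ∧ Z D F m P A l' := by
  refine uniZ (n := 1) hm hb fun Γ κ H hi => ?_
  refine Prf.cut (n₁ := 0) (n₂ := 0) (Γ.el κ E1) (Γ.el κ E2) (Γ.el κ E3) (by omega)
    (hi.arc _ _ hA) (Prf.ax (h1 Γ κ _ ?_)) (Prf.ax (h2 Γ κ _ ?_))
  · exact Inst.addA ⟨fun f g hf => Or.inl (hi.amb f g hf), fun E E' he => Or.inl (hi.arc E E' he),
      fun E E' he => (hi.pth E E' he).le fun _ _ => Or.inl⟩ (Or.inr ⟨rfl, rfl⟩)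
  · exact Inst.addA ⟨fun f g hf => Or.inl (hi.amb f g hf), fun E E' he => Or.inl (hi.arc E E' he),
      fun E E' he => (hi.pth E E' he).le fun _ _ => Or.inl⟩ (Or.inr ⟨rfl, rfl⟩)

end

/-! ## the version without cells -/

/-- uniformization for powers of `D`: `Y` names, the constraint `W` and the arcs `B` -/
theorem uniD {V Y : Type} {D : V → V → Prop} {l : List Dig} {n : ℕ} (hb : Bas l)
    (W : (Y → V) → Prop) (B : Y → Y → Prop)
    (h : ∀ (Ω : Type) (H : (Ω → V) → (Ω → V) → Prop), (∀ f g, (∀ ω, D (f ω) (g ω)) → H f g) →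
      ∀ y : Y → Ω → V, (∀ ω, W fun j => y j ω) → (∀ i j, B i j → H (y i) (y j)) → Prf l n H) :
    ∃ l', Ext (5 * n) l l' ∧
      ∀ (Ω : Type) (H : (Ω → V) → (Ω → V) → Prop), (∀ f g, (∀ ω, D (f ω) (g ω)) → H f g) →
      ∀ y : Y → Ω → V, (∀ ω, W fun j => y j ω) → (∀ i j, B i j → H (y i) (y j)) → Clo l' H := by
  have hU := h {a : Y → V // W a} (fun f g => (∀ ω, D (f ω) (g ω)) ∨
    ∃ i j, B i j ∧ f = (fun ω => ω.1 i) ∧ g = (fun ω => ω.1 j)) (fun f g hf => Or.inl hf)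
    (fun j ω => ω.1 j) (fun ω => ω.2) (fun i j hij => Or.inr ⟨i, j, hij, rfl, rfl⟩)
  obtain ⟨l', e', c'⟩ := hU.run (fun T hT => hT) hb
  refine ⟨l', e', fun Ω H hD y hW hB => ?_⟩
  refine c'.hom (fun f => fun ω => f ⟨fun j => y j ω, hW ω⟩) ?_
  rintro f g (hf | ⟨i, j, hij, rfl, rfl⟩)
  · exact hD _ _ fun ω => hf _
  · exact hB i j hij

end H3P
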