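import Pool.Agent.H3P.Lad
import Pool.Agent.H3P.Uni

/-!
# H3P/RF : patterns which close in all powers of `D`
-/

namespace H3P

open HJ71

/-- the pattern `F` closes: for every power of `D` and any elements `y x`, the power plus the arcs `y i → y j`
(`F i j`) closes -/
def RF {V X : Type} (D : V → V → Prop) (F : X → X → Prop) (l : List Dig) : Prop :=
  ∀ (Ω : Type) (H : (Ω → V) → (Ω → V) → Prop), (∀ f g, (∀ ω, D (f ω) (g ω)) → H f g) →
    ∀ y : X → Ω → V, (∀ i j, F i j → H (y i) (y j)) → Clo l H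

theorem RF.mon {V X : Type} (D : V → V → Prop) (F : X → X → Prop) : Mon (RF D F) :=
  fun _ _ hl h Ω H hD y hy => (h Ω H hD y hy).sub hl

/-- the second pattern: `0 → 1`, digons `02`, `12` -/
def Tri (x y : Fin 3) : Prop :=
  (x.val = 0 ∧ y.val = 1) ∨ (x.val = 2 ∧ y.val ≠ 2) ∨ (x.val ≠ 2 ∧ y.val = 2)

instance : DecidableRel Tri := fun x y => by unfold Tri; infer_instance

theorem Tri.tf : Tri 2 0 := by decide
theorem Tri.ft : Tri 0 2 := by decide

/-- the third pattern: a digon -/
def Dgn (x y : Fin 2) : Prop := x ≠ y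

/-- the use of the ladder -/
theorem RF.lad {V : Type} {D : V → V → Prop} {l : List Dig} (h : RF D Lad l) {Ω : Type}
    {H : (Ω → V) → (Ω → V) → Prop} (hD : ∀ f g, (∀ ω, D (f ω) (g ω)) → H f g)
    {y0 y1 y2 y3 : Ω → V} (h01 : H y0 y1) (h10 : H y1 y0) (h12 : H y1 y2) (h21 : H y2 y1)
    (h23 : H y2 y3) (h32 : H y3 y2) (h02 : H y0 y2) (h13 : H y1 y3) : Clo l H := by
  refine h Ω H hD ![y0, y1, y2, y3] fun i j hij => ?_
  have hi : i = 0 ∨ i = 1 ∨ i = 2 ∨ i = 3 := by omega
  have hj : j = 0 ∨ j = 1 ∨ j = 2 ∨ j = 3 := by omega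
  rcases hi with rfl | rfl | rfl | rfl <;> rcases hj with rfl | rfl | rfl | rfl <;>
    first
      | exact h01 | exact h10 | exact h12 | exact h21 | exact h23 | exact h32 | exact h02
      | exact h13
      | exact absurd hij (by decide)

/-- the use of the second pattern -/
theorem RF.tri {V : Type} {D : V → V → Prop} {l : List Dig} (h : RF D Tri l) {Ω : Type}
    {H : (Ω → V) → (Ω → V) → Prop} (hD : ∀ f g, (∀ ω, D (f ω) (g ω)) → H f g)
    {x y b : Ω → V} (hxy : H x y) (hxb : H x b) (hbx : H b x) (hyb : H y b) (hby : H b y) :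
    Clo l H := by
  refine h Ω H hD ![x, y, b] fun i j hij => ?_
  have hi : i = 0 ∨ i = 1 ∨ i = 2 := by omega
  have hj : j = 0 ∨ j = 1 ∨ j = 2 := by omega
  rcases hi with rfl | rfl | rfl <;> rcases hj with rfl | rfl | rfl <;>
    first
      | exact hxy | exact hxb | exact hbx | exact hyb | exact hby
      | exact absurd hij (by decide)

/-- the use of the third pattern -/
theorem RF.dgn {V : Type} {D : V → V → Prop} {l : List Dig} (h : RF D Dgn l) {Ω : Type}
    {H : (Ω → V) → (Ω → V) → Prop} (hD : ∀ f g, (∀ ω, D (f ω) (g ω)) → H f g)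
    {x y : Ω → V} (hxy : H x y) (hyx : H y x) : Clo l H := by
  refine h Ω H hD ![x, y] fun i j hij => ?_
  have hi : i = 0 ∨ i = 1 := by omega
  have hj : j = 0 ∨ j = 1 := by omega
  rcases hi with rfl | rfl <;> rcases hj with rfl | rfl <;>
    first
      | exact hxy | exact hyx
      | exact absurd rfl hij

end H3P
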