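import Pool.Agent.H3P.Or2
import Pool.Agent.H3P.RF

/-!
# H3P/Lev : the levels

PROOF of `lev_der`.  For a finite set `S` of vertices let `PS S E E' := ∃ v ∈ S, E = kon v ∧ E' = lit (c ↦ c v)`.  Claim
`Der (S.card * BC) (Z .. (PS S) Nil) (Z .. Nil Nil)` by induction on `S`: for `insert v S` (`v ∉ S`) use `branch` with
`P = PS S`, `E = kon v`: both premises follow from `Z .. (PS (insert v S)) Nil` by `Z.sub` with
`σ c = Function.update c v true` (resp. `false`): the pair `(kon v, lit (c ↦ c v))` becomes `(kon v, rol t)`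
(resp. `rol f`), the pair `(kon u, lit (c ↦ c u))`, `u ≠ v`, remains.  Finally `Z .. Nil Nil` gives `RF D F`: for `Ω, H, y` take
`Γ = ⟨Ω, Unit, fun _ => (), y⟩`, `κ = fun _ _ => true`: `Amb D F Γ f g → H f g`.
-/

namespace H3P

open HJ71

variable {V X : Type} {D : V → V → Prop} {F : X → X → Prop} {m L K : ℕ} {t f : X}

/-- the paths of the vertices of `S` -/
def PS {V X : Type} (t f : X) (S : Finset V) : Dsc V X (V → Bool) → Dsc V X (V → Bool) → Prop :=
  fun E E' => ∃ v ∈ S, E = kon v ∧ E' = lit t f (fun c => c v)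

theorem lev_S (hm : m = 2 * L + 2) (hW : Wlk D L) (htf : F t f) (hft : F f t) (S : Finset V) :
    Der (S.card * BC L) (Z D F m (PS t f S) Nil) (Z (C := V → Bool) D F m Nil Nil) := by
  classical
  induction S using Finset.induction_on with
  | empty =>
    refine Der.of fun l _ h => h.le (fun E E' h => ?_) (fun _ _ h => h)
    obtain ⟨v, hv, _⟩ := h
    exact absurd hv (Finset.notMem_empty v)
  | insert v S hv ih =>
    refine (Der.trans (Q := Z D F m (PS t f S) Nil) (c := BC L) ?_ ih).up (le_of_eq ?_)
    · refine (branch hm hW htf hft (PS t f S) Nil (kon v)).pre fun l hb h => ⟨?_, ?_⟩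
      · refine h.sub (fun c => Function.update c v true) ?_ (fun _ _ h => h.elim)
        rintro E E' ⟨u, hu, rfl, rfl⟩
        by_cases huv : u = v
        · subst huv
          refine Or.inr ⟨rfl, ?_⟩
          funext c a
          simp [lit, rf, rol, sg]
        · refine Or.inl ⟨u, (Finset.mem_insert.1 hu).resolve_left huv, rfl, ?_⟩
          funext c a
          simp [lit, rf, sg, Function.update_of_ne huv]
      · refine h.sub (fun c => Function.update c v false) ?_ (fun _ _ h => h.elim)
        rintro E E' ⟨u, hu, rfl, rfl⟩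
        by_cases huv : u = v
        · subst huv
          refine Or.inr ⟨rfl, ?_⟩
          funext c a
          simp [lit, rf, rol, sg]
        · refine Or.inl ⟨u, (Finset.mem_insert.1 hu).resolve_left huv, rfl, ?_⟩
          funext c a
          simp [lit, rf, sg, Function.update_of_ne huv]
    · rw [Finset.card_insert_of_notMem hv]
      ring

theorem lev_der [Fintype V] (hm : m = 2 * L + 2) (hW : Wlk D L) (htf : F t f) (hft : F f t) :
    Der (Fintype.card V * BC L) (Z D F m (PE t f) Nil) (RF D F) := by
  refine ((lev_S hm hW htf hft Finset.univ).pre fun l _ h => ?_).post fun l _ h => ?_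
  · refine h.le (fun E E' h => ?_) (fun _ _ h => h)
    obtain ⟨v, h1, h2⟩ := h
    exact ⟨v, Finset.mem_univ v, h1, h2⟩
  · intro Ω H hD y hy
    refine h ⟨Ω, Unit, fun _ => (), y⟩ (fun _ _ => true) H ⟨fun f g hfg => ?_,
      fun _ _ h => h.elim, fun _ _ h => h.elim⟩
    rcases hfg () with h1 | ⟨x, x', hx, h1⟩
    · exact hD f g fun ω => h1 ω rfl
    · have hf : f = y x := funext fun ω => (h1 ω rfl).1
      have hg : g = y x' := funext fun ω => (h1 ω rfl).2
      rw [hf, hg]
      exact hy x x' hx

end H3P
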