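import Pool.Agent.H3P.SP

/-!
# H3P/Prim : a strong digraph in which every 2-colouring has a monochromatic cycle has walks of all large lengths

PROOF.  Let `n = Fintype.card V` and `N r u :=` the set of vertices which are reached from `u` by a walk of length exactly `r`.
Every vertex has an out-neighbour and an in-neighbour (`hN` gives a cycle, so `n ≥ 1` and there is an arc; `hS`).
Fix a vertex `u` on a cycle of length `g`, `1 ≤ g ≤ n` (take a closed walk of minimal positive length: its vertices are
distinct.  Or: `u → v` an arc and a shortest walk from `v` to `u`, of length `≤ n - 1`).  Then `u ∈ N g u`, so the sets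
`S_i = N (i g) u` increase with `i` (`x ∈ N (i g) u → x ∈ N ((i+1) g) u`: prepend the closed walk).  Hence some
`i ≤ n - 1` has `S_i = S_{i+1}` (cardinalities `1 ≤ |S_0| < |S_1| < ... ≤ n`), and then `S_i = S_j` for all `j ≥ i`; so with
`S = S_{n-1}` (`= N ((n-1) g) u`): the set reached from `S` by walks of length `g` is `S`.
*Claim*: `S = V`.  Suppose not.  For `j : ℕ` let `S^j` = the set reached from `S` by walks of length `j`; `S^{j+g} = S^j`.
For a vertex `v` let `J v = {j : ℕ | v ∈ S^j}`, a set of numbers periodic mod `g`.  If `D v w` then `j ∈ J v → j + 1 ∈ J w`.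
Let `k v` be the number of `j < g` with `j ∈ J v` (the number of residues).  For an arc `v → w`: `k v ≤ k w`; as `D` is
strong, `k` is constant and so for an arc `D v w`: `j ∈ J v ↔ j + 1 ∈ J w` (an injective map between finite sets of residues of the
same size is onto).  Colour `c v = true` iff `0 ∈ J v`.  By `hN` there is a monochromatic directed cycle
`v_0 → v_1 → ... → v_r = v_0`, `r ≥ 1`, `c v_i` constant.  `c v_i = true` for all `i`, going around again and again: walk
`v_0 → v_1 → ...` (infinite, periodic): `0 ∈ J v_i ↔ -i ∈ J v_0` (mod `g`; `i ∈ ℕ` arbitrary).  So `J v_0` is everything or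
empty.  Empty is impossible: some vertex is in `S`, and `k` is constant, so `k > 0`.  Everything: then `k = g` for all
vertices, so all vertices are in `S^0 = S`.  Contradiction.  So `S = V`.
Therefore all vertices are reached from `u` by walks of length exactly `(n-1) g`, hence (in-neighbours) by walks of length
exactly `r` for every `r ≥ (n-1) g`.  From any `u'` there is a walk to `u` of some length `d ≤ n - 1`.  So for
`r ≥ n ^ 2 ≥ (n-1) + (n-1) n` and all `u', v'`: a walk of length `d` to `u` and one of length `r - d ≥ (n-1) g` to `v'`.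
-/

namespace H3P

/-- walks of length exactly `r` -/
private def WkP {V : Type} (D : V → V → Prop) (r : ℕ) (u v : V) : Prop :=
  ∃ z : ℕ → V, z 0 = u ∧ z r = v ∧ ∀ i < r, D (z i) (z (i + 1))

private theorem wkP_zero {V : Type} (D : V → V → Prop) (u : V) : WkP D 0 u u :=
  ⟨fun _ => u, rfl, rfl, fun i hi => absurd hi (Nat.not_lt_zero i)⟩

private theorem wkP_one {V : Type} {D : V → V → Prop} {u v : V} (h : D u v) : WkP D 1 u v := by
  refine ⟨fun i => if i = 0 then u else v, by simp, by simp, fun i hi => ?_⟩
  have h0 : i = 0 := by omega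
  subst h0
  simpa using h

private theorem wkP_add {V : Type} {D : V → V → Prop} {r s : ℕ} {u v w : V} (h : WkP D r u v)
    (h' : WkP D s v w) : WkP D (r + s) u w := by
  obtain ⟨z, hz0, hz1, hz⟩ := h
  obtain ⟨y, hy0, hy1, hy⟩ := h'
  refine ⟨fun i => if i ≤ r then z i else y (i - r), ?_, ?_, ?_⟩
  · simpa using hz0
  · by_cases hs : s = 0
    · subst hs
      simp only [add_zero, le_refl, if_true]
      rw [hz1, ← hy0]
      exact hy1
    · have : ¬ (r + s ≤ r) := by omega
      simp only [this, if_false, Nat.add_sub_cancel_left]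
      exact hy1
  · intro i hi
    by_cases h1 : i + 1 ≤ r
    · have h2 : i ≤ r := by omega
      simp only [h1, h2, if_true]
      exact hz i (by omega)
    · by_cases h2 : i ≤ r
      · have h3 : i = r := by omega
        subst h3
        simp only [h1, h2, if_true, if_false, Nat.add_sub_cancel_left]
        have h4 := hy 0 (by omega)
        rw [hy0] at h4
        rw [hz1]
        exact h4
      · simp only [h1, h2, if_false]
        have h4 := hy (i - r) (by omega)
        have h5 : i + 1 - r = i - r + 1 := by omega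
        rw [h5]
        exact h4

private theorem wkP_split {V : Type} {D : V → V → Prop} {r s : ℕ} {u w : V}
    (h : WkP D (r + s) u w) : ∃ v, WkP D r u v ∧ WkP D s v w := by
  obtain ⟨z, hz0, hz1, hz⟩ := h
  exact ⟨z r, ⟨z, hz0, rfl, fun i hi => hz i (by omega)⟩,
    ⟨fun i => z (r + i), rfl, hz1, fun i hi => hz (r + i) (by omega)⟩⟩

private theorem wkP_of_rtg {V : Type} {D : V → V → Prop} {u v : V}
    (h : Relation.ReflTransGen D u v) : ∃ d, WkP D d u v := by
  induction h with
  | refl => exact ⟨0, wkP_zero D u⟩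
  | tail _ h ih =>
    obtain ⟨d, hd⟩ := ih
    exact ⟨d + 1, wkP_add hd (wkP_one h)⟩

private theorem wkP_short {V : Type} [Fintype V] {D : V → V → Prop} {u v : V} (d : ℕ)
    (h : WkP D d u v) : ∃ e, e < Fintype.card V ∧ WkP D e u v := by
  induction d using Nat.strong_induction_on with
  | _ d ih =>
    by_cases hd : d < Fintype.card V
    · exact ⟨d, hd, h⟩
    · obtain ⟨z, hz0, hz1, hz⟩ := h
      obtain ⟨i, j, hij, he⟩ : ∃ i j : Fin (d + 1), i < j ∧ z i = z j := by
        have h1 : ¬ Function.Injective (fun i : Fin (d + 1) => z i) := by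
          intro hinj
          have h2 := Fintype.card_le_of_injective _ hinj
          rw [Fintype.card_fin] at h2
          omega
        unfold Function.Injective at h1
        push Not at h1
        obtain ⟨a, b, hab, hne⟩ := h1
        rcases lt_or_gt_of_ne hne with h3 | h3
        · exact ⟨a, b, h3, hab⟩
        · exact ⟨b, a, h3, hab.symm⟩
      have hi := i.2
      have hj := j.2
      have hij' : (i : ℕ) < (j : ℕ) := hij
      have w1 : WkP D (i : ℕ) u (z i) := ⟨z, hz0, rfl, fun k hk => hz k (by omega)⟩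
      have w2 : WkP D (d - (j : ℕ)) (z i) v := by
        refine ⟨fun k => z (j + k), ?_, ?_, fun k hk => ?_⟩
        · rw [he]; rfl
        · show z (j + (d - j)) = v
          rw [← hz1]
          congr 1
          omega
        · show D (z (j + k)) (z (j + (k + 1)))
          rw [← add_assoc]
          exact hz (j + k) (by omega)
      exact ih ((i : ℕ) + (d - (j : ℕ))) (by omega) (wkP_add w1 w2)

theorem prim {V : Type} [Fintype V] (D : V → V → Prop) (hS : Str D) (hN : NC D) :
    Wlk D (Fintype.card V ^ 2) := by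
  classical
  obtain ⟨n, hn⟩ : ∃ n, n = Fintype.card V := ⟨_, rfl⟩
  rw [← hn]
  -- a short closed walk
  obtain ⟨u, g, hg1, hgn, hug⟩ : ∃ (u : V) (g : ℕ), 1 ≤ g ∧ g ≤ n ∧ WkP D g u u := by
    obtain ⟨x, hx⟩ := hN (fun _ => true)
    obtain ⟨y, hxy, _⟩ := Relation.TransGen.head'_iff.1 hx
    obtain ⟨d, hd⟩ := wkP_of_rtg (hS y x)
    obtain ⟨e, he, hw⟩ := wkP_short d hd
    exact ⟨x, 1 + e, by omega, by omega, wkP_add (wkP_one hxy.1) hw⟩
  have hn1 : 1 ≤ n := hg1.trans hgn
  have : NeZero g := ⟨by omega⟩
  -- the increasing sets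
  obtain ⟨S, hSdef⟩ : ∃ S : ℕ → Finset V, ∀ i x, x ∈ S i ↔ WkP D (i * g) u x :=
    ⟨fun i => Finset.univ.filter (fun x => WkP D (i * g) u x), fun i x => by simp⟩
  have hmono : ∀ i, S i ⊆ S (i + 1) := by
    intro i x hx
    rw [hSdef] at hx ⊢
    have h := wkP_add hug hx
    have e : g + i * g = (i + 1) * g := by ring
    rwa [e] at h
  have hstep : ∀ i, S i = S (i + 1) → S (i + 1) = S (i + 2) := by
    intro i hi
    refine Finset.Subset.antisymm (hmono (i + 1)) ?_
    intro x hx
    rw [hSdef] at hx
    have e : (i + 2) * g = (i + 1) * g + g := by ring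
    rw [e] at hx
    obtain ⟨y, hy1, hy2⟩ := wkP_split hx
    have hy3 : y ∈ S (i + 1) := (hSdef _ _).2 hy1
    rw [← hi] at hy3
    have h := wkP_add ((hSdef _ _).1 hy3) hy2
    rw [hSdef]
    have e2 : i * g + g = (i + 1) * g := by ring
    rwa [e2] at h
  have hgrow : ∀ i, S i = S (i + 1) ∨ i + 2 ≤ (S (i + 1)).card := by
    intro i
    induction i with
    | zero =>
      by_cases h : S 0 = S (0 + 1)
      · exact Or.inl h
      · right
        have h1 : (S 0).card < (S (0 + 1)).card :=
          Finset.card_lt_card (lt_of_le_of_ne (hmono 0) h)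
        have h2 : 0 < (S 0).card := Finset.card_pos.2 ⟨u, by
          rw [hSdef, zero_mul]
          exact wkP_zero D u⟩
        omega
    | succ i ih =>
      rcases ih with ih | ih
      · exact Or.inl (hstep i ih)
      · by_cases h : S (i + 1) = S (i + 1 + 1)
        · exact Or.inl h
        · right
          have h1 : (S (i + 1)).card < (S (i + 1 + 1)).card :=
            Finset.card_lt_card (lt_of_le_of_ne (hmono (i + 1)) h)
          omega
  have hstab : S (n - 1) = S n := by
    have e : n - 1 + 1 = n := by omega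
    rcases hgrow (n - 1) with h | h
    · rwa [e] at h
    · rw [e] at h
      have h1 := Finset.card_le_univ (S n)
      omega
  -- the sets reached by walks of length (n-1) g + j
  obtain ⟨P, hP⟩ : ∃ P : ℕ → V → Prop, ∀ j v, P j v ↔ WkP D ((n - 1) * g + j) u v :=
    ⟨fun j v => WkP D ((n - 1) * g + j) u v, fun j v => Iff.rfl⟩
  have hPg : ∀ j v, P (j + g) v ↔ P j v := by
    intro j v
    rw [hP, hP]
    have e : (n - 1) * g + (j + g) = n * g + j := by
      obtain ⟨m, rfl⟩ : ∃ m, n = m + 1 := ⟨n - 1, by omega⟩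
      simp only [Nat.add_sub_cancel]
      ring
    rw [e]
    constructor
    · intro h
      obtain ⟨y, hy1, hy2⟩ := wkP_split h
      have hy3 : y ∈ S n := (hSdef _ _).2 hy1
      rw [← hstab] at hy3
      exact wkP_add ((hSdef _ _).1 hy3) hy2
    · intro h
      obtain ⟨y, hy1, hy2⟩ := wkP_split h
      have hy3 : y ∈ S (n - 1) := (hSdef _ _).2 hy1
      rw [hstab] at hy3
      exact wkP_add ((hSdef _ _).1 hy3) hy2
  have hPm : ∀ j v k, P (j + k * g) v ↔ P j v := by
    intro j v k
    induction k with
    | zero => simp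
    | succ k ih =>
      have e : j + (k + 1) * g = (j + k * g) + g := by ring
      rw [e, hPg, ih]
  have hPmod : ∀ j v, P (j % g) v ↔ P j v := by
    intro j v
    have h := hPm (j % g) v (j / g)
    have e : j % g + j / g * g = j := Nat.mod_add_div' j g
    rw [e] at h
    exact h.symm
  obtain ⟨Q, hQ⟩ : ∃ Q : ZMod g → V → Prop, ∀ j v, Q j v ↔ P j.val v :=
    ⟨fun j v => P j.val v, fun j v => Iff.rfl⟩
  have hQn : ∀ (j : ℕ) v, Q (j : ZMod g) v ↔ P j v := by
    intro j v
    rw [hQ, ZMod.val_natCast, hPmod]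
  have hQs : ∀ (j : ZMod g) (v w : V), D v w → Q j v → Q (j + 1) w := by
    intro j v w hvw hj
    rw [hQ] at hj
    have e : j + 1 = ((j.val + 1 : ℕ) : ZMod g) := by
      rw [Nat.cast_add, ZMod.natCast_zmod_val, Nat.cast_one]
    rw [e, hQn]
    rw [hP] at hj ⊢
    rw [← add_assoc]
    exact wkP_add hj (wkP_one hvw)
  obtain ⟨J, hJ⟩ : ∃ J : V → Finset (ZMod g), ∀ v j, j ∈ J v ↔ Q j v :=
    ⟨fun v => Finset.univ.filter (fun j => Q j v), fun v j => by simp⟩
  have hJsub : ∀ v w, D v w → (J v).image (fun j => j + 1) ⊆ J w := by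
    intro v w hvw j hj
    rw [Finset.mem_image] at hj
    obtain ⟨i, hi, rfl⟩ := hj
    rw [hJ] at hi ⊢
    exact hQs i v w hvw hi
  have hcimg : ∀ v, ((J v).image (fun j => j + 1)).card = (J v).card := fun v =>
    Finset.card_image_of_injective _ (add_left_injective 1)
  have hJarc : ∀ v w, D v w → (J v).card ≤ (J w).card := by
    intro v w hvw
    rw [← hcimg v]
    exact Finset.card_le_card (hJsub v w hvw)
  have hJle : ∀ v w, (J v).card ≤ (J w).card := by
    intro v w
    have h := hS v w
    induction h with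
    | refl => exact le_refl _
    | tail _ h ih => exact ih.trans (hJarc _ _ h)
  have hJeq : ∀ v w, (J v).card = (J w).card := fun v w => le_antisymm (hJle v w) (hJle w v)
  have hJimg : ∀ v w, D v w → (J v).image (fun j => j + 1) = J w := by
    intro v w hvw
    refine Finset.eq_of_subset_of_card_le (hJsub v w hvw) ?_
    rw [hcimg]
    exact (hJeq w v).le
  have hQiff : ∀ v w, D v w → ∀ j, Q j v ↔ Q (j + 1) w := by
    intro v w hvw j
    refine ⟨hQs j v w hvw, fun h => ?_⟩
    have h1 : j + 1 ∈ J w := (hJ _ _).2 h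
    rw [← hJimg v w hvw, Finset.mem_image] at h1
    obtain ⟨i, hi, he⟩ := h1
    have h2 : i = j := add_right_cancel he
    subst h2
    exact (hJ _ _).1 hi
  -- the colouring
  obtain ⟨x, hx⟩ := hN (fun v => decide (Q 0 v))
  have hwalk : ∀ i : ℕ, ∃ y, (∀ j, Q j x ↔ Q (j + i) y) ∧ (Q 0 y ↔ Q 0 x) ∧
      Relation.ReflTransGen (MC D (fun v => decide (Q 0 v))) y x := by
    intro i
    induction i with
    | zero => exact ⟨x, fun j => by simp, Iff.rfl, Relation.ReflTransGen.refl⟩
    | succ i ih =>
      obtain ⟨y, h1, h2, h3⟩ := ih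
      obtain ⟨z, hz1, hz2⟩ := Relation.TransGen.head'_iff.1 (Relation.TransGen.trans_right h3 hx)
      refine ⟨z, fun j => ?_, ?_, hz2⟩
      · rw [h1 j, hQiff y z hz1.1 (j + i)]
        push_cast
        rw [add_assoc]
      · have h4 : decide (Q 0 y) = decide (Q 0 z) := hz1.2
        rw [decide_eq_decide] at h4
        exact h4.symm.trans h2
  have hall : ∀ i : ℕ, Q (-(i : ZMod g)) x ↔ Q 0 x := by
    intro i
    obtain ⟨y, h1, h2, _⟩ := hwalk i
    rw [h1 (-(i : ZMod g)), neg_add_cancel]
    exact h2
  have hall' : ∀ j : ZMod g, Q j x ↔ Q 0 x := by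
    intro j
    have h := hall (-j).val
    rw [ZMod.natCast_zmod_val, neg_neg] at h
    exact h
  have hQu : Q 0 u := by
    have h0 : ∀ i, u ∈ S i := by
      intro i
      induction i with
      | zero =>
        rw [hSdef, zero_mul]
        exact wkP_zero D u
      | succ i ih => exact hmono i ih
    have h := (hSdef _ _).1 (h0 (n - 1))
    have e : (0 : ZMod g) = ((0 : ℕ) : ZMod g) := by simp
    rw [e, hQn, hP, add_zero]
    exact h
  have hJx : (J x).Nonempty := by
    rw [← Finset.card_pos, hJeq x u, Finset.card_pos]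
    exact ⟨0, (hJ _ _).2 hQu⟩
  have hQ0x : Q 0 x := by
    obtain ⟨j, hj⟩ := hJx
    exact (hall' j).1 ((hJ _ _).1 hj)
  have hJxu : J x = Finset.univ := by
    rw [Finset.eq_univ_iff_forall]
    intro j
    exact (hJ _ _).2 ((hall' j).2 hQ0x)
  have hJv : ∀ v, J v = Finset.univ := by
    intro v
    refine Finset.eq_univ_of_card _ ?_
    rw [hJeq v x, hJxu, Finset.card_univ]
  have hPall : ∀ j v, WkP D ((n - 1) * g + j) u v := by
    intro j v
    rw [← hP, ← hQn, ← hJ, hJv v]
    exact Finset.mem_univ _
  intro r hr a b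
  obtain ⟨d, hd⟩ := wkP_of_rtg (hS a u)
  obtain ⟨e, he, hw⟩ := wkP_short d hd
  have h1 : (n - 1) * g + e ≤ r := by
    have h2 : (n - 1) * g ≤ (n - 1) * n := Nat.mul_le_mul_left _ hgn
    have h3 : (n - 1) * n + (n - 1) ≤ n ^ 2 := by
      obtain ⟨m, rfl⟩ : ∃ m, n = m + 1 := ⟨n - 1, by omega⟩
      simp only [Nat.add_sub_cancel]
      nlinarith
    omega
  have h2 := wkP_add hw (hPall (r - ((n - 1) * g + e)) b)
  have h3 : e + ((n - 1) * g + (r - ((n - 1) * g + e))) = r := by omega
  rw [h3] at h2
  exact h2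

end H3P
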