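import Pool.Agent.H3P.RF
import Pool.Agent.H3P.Elim

/-!
# H3P/St3 : digons close in all powers of `D`, if the second pattern does

PROOF of `st3_prf`.  Let `x b` be a digon of `H ≥ D^Ω`, `y 0 = x, y 1, ..., y N = x` a closed `D`-walk of odd length `N`
(every `y i → y (i+1)` is an arc of `H`).  Everything below is for relations `H' ≥ H`.
*(T)* `RF.tri`: if `H' p q` and both `p, q` form digons with `r` then `Clo l H'`.
*Scan*: if `H' x (y j)` and `H' b (y j)`, `j ≤ N`, then `Prf l (2 (N - j)) H'`, by induction on `N - j`.  `j = N`: `y N = x`, a loop.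
 `j < N`: cut the arc `y j → y (j+1)` at `x`: branch `y j → x`: `y j` and `b` form digons... precisely: `b → y j`, and `b`,
 `y j` both form digons with `x`: (T) with `p = b`, `q = y j`, `r = x`.  Branch `x → y (j+1)`: cut the arc
 `y j → y (j+1)` at `b`: branch `y j → b`: `x → y j`, and `x`, `y j` both form digons with `b`: (T).  Branch
 `b → y (j+1)`: the induction hypothesis.
*Main induction*: for `i ≤ N` with `H' ≥ H`: if (`i` even and `y i, b` form a digon in `H'`) or (`i` odd and `y i, x` form a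
 digon) then `Prf l ((N - i) (2 N + 2)) H'`, by induction on `N - i`; start with `i = 0`: `y 0 = x`.
 `i = N`: `N` is odd, `y N = x` forms a digon with `x`: a loop.
 `i < N` even: cut the arc `y i → y (i+1)` at `x`: the branch `y i → x` closes by (T) (`p = y i`, `q = x`, `r = b`).  In the
 branch `x → y (i+1)` cut the arc `b → x` at `y (i+1)`: branch `b → y (i+1)`: scan with `j = i + 1`; branch
 `y (i+1) → x`: now `y (i+1), x` form a digon: induction hypothesis.
 `i < N` odd: the same with `x` and `b` exchanged: cut the arc `y i → y (i+1)` at `b`: the branch `y i → b` closes by (T)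
 (`p = y i`, `q = b`, `r = x`).  In the branch `b → y (i+1)` cut the arc `x → b` at `y (i+1)`: branch
 `x → y (i+1)`: scan; branch `y (i+1) → b`: induction hypothesis.
 Cuts per step: `2 + 2 N`.  Total `N (2 N + 2)`.
PROOF of `st3_der`.  `N` = the odd one of `L, L + 1`, so `N (2 N + 2) ≤ (L + 1) (2 L + 4)`; `uniD` with `Y = Fin 2`,
no constraint, arcs `Dgn`; the walk exists by `Wlk.el`.
-/

namespace H3P

open HJ71

theorem st3_scan {V Ω : Type} {D : V → V → Prop} {l : List Dig} (hb : Bas l) (hT : RF D Tri l)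
    {x b : Ω → V} {N : ℕ} (y : ℕ → Ω → V) (h1 : y N = x)
    (hy : ∀ i < N, ∀ ω, D (y i ω) (y (i + 1) ω)) :
    ∀ (k : ℕ) (H : (Ω → V) → (Ω → V) → Prop), (∀ f g, (∀ ω, D (f ω) (g ω)) → H f g) →
      H x b → H b x → ∀ j, j + k = N → H x (y j) → H b (y j) → Prf l (2 * k) H := by
  intro k
  induction k with
  | zero =>
    intro H hD hxb hbx j hj hxj hbj
    obtain rfl : j = N := by omega
    rw [h1] at hxj
    exact Prf.ax (Clo.loop hb hxj)
  | succ k ih =>
    intro H hD hxb hbx j hj hxj hbj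
    have hstep : H (y j) (y (j + 1)) := hD _ _ (hy j (by omega))
    refine Prf.cut (n₁ := 0) (n₂ := 2 * k + 1) (y j) x (y (j + 1)) (by omega) hstep
      (Prf.ax ?_) ?_
    · exact hT.tri (x := b) (y := y j) (b := x) (fun f g h => Add.old (hD f g h)) (Add.old hbj)
        (Add.old hbx) (Add.old hxb) Add.new (Add.old hxj)
    · refine Prf.cut (n₁ := 0) (n₂ := 2 * k) (y j) b (y (j + 1)) (by omega) (Add.old hstep)
        (Prf.ax ?_) ?_
      · exact hT.tri (x := x) (y := y j) (b := b) (fun f g h => Add.old (Add.old (hD f g h)))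
          (Add.old (Add.old hxj)) (Add.old (Add.old hxb)) (Add.old (Add.old hbx)) Add.new
          (Add.old (Add.old hbj))
      · exact ih _ (fun f g h => Add.old (Add.old (hD f g h))) (Add.old (Add.old hxb))
          (Add.old (Add.old hbx)) (j + 1) (by omega) (Add.old Add.new) Add.new

theorem st3_main {V Ω : Type} {D : V → V → Prop} {l : List Dig} (hb : Bas l) (hT : RF D Tri l)
    {x b : Ω → V} {N : ℕ} (hN : N % 2 = 1) (y : ℕ → Ω → V) (h1 : y N = x)
    (hy : ∀ i < N, ∀ ω, D (y i ω) (y (i + 1) ω)) :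
    ∀ (k : ℕ) (H : (Ω → V) → (Ω → V) → Prop), (∀ f g, (∀ ω, D (f ω) (g ω)) → H f g) →
      H x b → H b x → ∀ i, i + k = N → (i % 2 = 0 → H (y i) b ∧ H b (y i)) →
      (i % 2 = 1 → H (y i) x ∧ H x (y i)) → Prf l (k * (2 * N + 2)) H := by
  intro k
  induction k with
  | zero =>
    intro H hD hxb hbx i hi _ ho
    obtain rfl : i = N := by omega
    have h := (ho hN).1
    rw [h1] at h
    exact Prf.ax (Clo.loop hb h)
  | succ k ih =>
    intro H hD hxb hbx i hi he ho
    have hstep : H (y i) (y (i + 1)) := hD _ _ (hy i (by omega))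
    have hcount : 0 + (2 * k + k * (2 * N + 2) + 1) + 1 ≤ (k + 1) * (2 * N + 2) := by
      have : k ≤ N := by omega
      nlinarith
    rcases Nat.mod_two_eq_zero_or_one i with hp | hp
    · obtain ⟨hib, hbi⟩ := he hp
      refine Prf.cut (n₁ := 0) (n₂ := 2 * k + k * (2 * N + 2) + 1) (y i) x (y (i + 1)) hcount
        hstep (Prf.ax ?_) ?_
      · exact hT.tri (x := y i) (y := x) (b := b) (fun f g h => Add.old (hD f g h)) Add.new
          (Add.old hib) (Add.old hbi) (Add.old hxb) (Add.old hbx)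
      · refine Prf.cut (n₁ := 2 * k) (n₂ := k * (2 * N + 2)) b (y (i + 1)) x le_rfl
          (Add.old hbx) ?_ ?_
        · exact st3_scan hb hT y h1 hy k _ (fun f g h => Add.old (Add.old (hD f g h)))
            (Add.old (Add.old hxb)) (Add.old (Add.old hbx)) (i + 1) (by omega)
            (Add.old Add.new) Add.new
        · refine ih _ (fun f g h => Add.old (Add.old (hD f g h))) (Add.old (Add.old hxb))
            (Add.old (Add.old hbx)) (i + 1) (by omega) (fun h => by omega) (fun _ => ?_)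
          exact ⟨Add.new, Add.old Add.new⟩
    · obtain ⟨hix, hxi⟩ := ho hp
      refine Prf.cut (n₁ := 0) (n₂ := 2 * k + k * (2 * N + 2) + 1) (y i) b (y (i + 1)) hcount
        hstep (Prf.ax ?_) ?_
      · exact hT.tri (x := y i) (y := b) (b := x) (fun f g h => Add.old (hD f g h)) Add.new
          (Add.old hix) (Add.old hxi) (Add.old hbx) (Add.old hxb)
      · refine Prf.cut (n₁ := 2 * k) (n₂ := k * (2 * N + 2)) x (y (i + 1)) b le_rfl
          (Add.old hxb) ?_ ?_
        · exact st3_scan hb hT y h1 hy k _ (fun f g h => Add.old (Add.old (hD f g h)))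
            (Add.old (Add.old hxb)) (Add.old (Add.old hbx)) (i + 1) (by omega) Add.new
            (Add.old Add.new)
        · refine ih _ (fun f g h => Add.old (Add.old (hD f g h))) (Add.old (Add.old hxb))
            (Add.old (Add.old hbx)) (i + 1) (by omega) (fun _ => ?_) (fun h => by omega)
          exact ⟨Add.new, Add.old Add.new⟩

theorem st3_prf {V Ω : Type} {D : V → V → Prop} {l : List Dig} (hb : Bas l) (hT : RF D Tri l)
    {H : (Ω → V) → (Ω → V) → Prop} (hD : ∀ f g, (∀ ω, D (f ω) (g ω)) → H f g) {x b : Ω → V}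
    (hxb : H x b) (hbx : H b x) {N : ℕ} (hN : N % 2 = 1) (y : ℕ → Ω → V) (h0 : y 0 = x)
    (h1 : y N = x) (hy : ∀ i < N, ∀ ω, D (y i ω) (y (i + 1) ω)) :
    Prf l (N * (2 * N + 2)) H := by
  refine st3_main hb hT hN y h1 hy N H hD hxb hbx 0 (by omega) (fun _ => ?_) (fun h => by omega)
  rw [h0]
  exact ⟨hxb, hbx⟩

theorem st3_der {V : Type} {D : V → V → Prop} {L : ℕ} (hW : Wlk D L) :
    Der (5 * ((L + 1) * (2 * L + 4))) (RF D Tri) (RF D Dgn) := by
  intro l hb hp
  obtain ⟨N, hN1, hN2, hN⟩ : ∃ N, L ≤ N ∧ N ≤ L + 1 ∧ N % 2 = 1 := by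
    rcases Nat.mod_two_eq_zero_or_one L with h | h
    · exact ⟨L + 1, by omega, le_rfl, by omega⟩
    · exact ⟨L, le_rfl, by omega, h⟩
  obtain ⟨l', e', h'⟩ := uniD (D := D) (n := N * (2 * N + 2)) hb (fun _ : Fin 2 → V => True) Dgn
    (fun Ω H hD y _ hB => by
      obtain ⟨z, hz0, hz1, hz2⟩ := hW.el hN1 (y 0) (y 0)
      exact st3_prf hb hp hD (x := y 0) (b := y 1) (hB 0 1 (by simp [Dgn]))
        (hB 1 0 (by simp [Dgn])) hN z hz0 hz1 hz2)
  refine ⟨l', e'.up ?_, fun Ω H hD y hy => h' Ω H hD y (fun _ => trivial) hy⟩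
  have : N * (2 * N + 2) ≤ (L + 1) * (2 * L + 4) :=
    Nat.mul_le_mul hN2 (by omega)
  omega

end H3P
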