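import Pool.Agent.H3P.RF
import Pool.Agent.H3P.Elim

/-!
# H3P/St4 : the digraph `D` closes, if digons close in all powers of `D`

PROOF.  `V` has an element `v`; take a closed `D`-walk `z 0 = v, ..., z N = v` with `N = L + 1` (`hW`).  Elements of
`Unit → V`; let `H f g := D (f ()) (g ())` on `Unit → V`; `H' ≥ H`.  Claim: for `1 ≤ i ≤ N`, if `H' (z 0) (z i)` then
`Prf l (N - i) H'` (`z i` as a constant function).  `i = N`: `z N = z 0`, a loop.  `i < N`: cut the arc `z i → z (i+1)` at
`z 0`: the branch `z i → z 0` closes by `RF.dgn` (`z 0 → z i`), the branch `z 0 → z (i+1)` by induction.  Start: `i = 1`.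
So `Prf l N H`; `Prf.run` costs `5 N` operations; finally `Clo.hom` with `f ↦ f ()`.
-/

namespace H3P

open HJ71

theorem st4_aux {V : Type} {D : V → V → Prop} {l : List Dig} (hb : Bas l) (hp : RF D Dgn l)
    {N : ℕ} (z : ℕ → Unit → V) (hN : z N = z 0)
    (hz : ∀ i < N, ∀ ω, D (z i ω) (z (i + 1) ω)) :
    ∀ (k : ℕ) (H : (Unit → V) → (Unit → V) → Prop),
      (∀ f g, (∀ ω, D (f ω) (g ω)) → H f g) → ∀ i, i + k = N → H (z 0) (z i) → Prf l k H := by
  intro k
  induction k with
  | zero =>
    intro H hD i hi h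
    obtain rfl : i = N := by omega
    rw [hN] at h
    exact Prf.ax (Clo.loop hb h)
  | succ k ih =>
    intro H hD i hi h
    have hstep : H (z i) (z (i + 1)) := hD _ _ (hz i (by omega))
    refine Prf.cut (n₁ := 0) (n₂ := k) (z i) (z 0) (z (i + 1)) (by omega) hstep
      (Prf.ax ?_) ?_
    · exact hp.dgn (x := z 0) (y := z i) (fun f g h => Add.old (hD f g h)) (Add.old h) Add.new
    · exact ih _ (fun f g h => Add.old (hD f g h)) (i + 1) (by omega) Add.new

theorem st4_der {V : Type} {D : V → V → Prop} {L : ℕ} (hW : Wlk D L) (v : V) :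
    Der (5 * (L + 1)) (RF D Dgn) (fun l => Clo l D) := by
  intro l hb hp
  obtain ⟨z, h0, h1, h2⟩ := hW.el (r := L + 1) (by omega) (fun _ : Unit => v) (fun _ : Unit => v)
  have hP : Prf l L (fun f g : Unit → V => D (f ()) (g ())) := by
    refine st4_aux hb hp z (h1.trans h0.symm) h2 L _ (fun f g h => h ()) 1 (by omega) ?_
    exact h2 0 (by omega) ()
  obtain ⟨l', e', c'⟩ := hP.run (fun T hT => hT) hb
  exact ⟨l', e'.up (by omega), c'.hom (fun f => f ()) (fun _ _ h => h)⟩

end H3P
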