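import Pool.Agent.H3P.Odd
import Pool.Agent.H3P.Cl1
import Pool.Agent.H3P.Cl2
import Pool.Agent.H3P.St3
import Pool.Agent.H3P.St4
import Pool.Agent.H3P.Prim
import Pool.Agent.H3P.Lev
import Pool.Agent.HJ71.Fin

/-!
# H3P/Fin : the assembly
-/

namespace H3P

open HJ71

theorem OddC.mon' (K : ℕ) : Mon (OddC K) := OddC.mon K

/-- from the rule for three literals to the pattern -/
theorem leaf_der {V X : Type} [Fintype V] {D : V → V → Prop} {F : X → X → Prop} {m L K : ℕ}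
    {t f : X} (hm : m = 2 * L + 2) (hW : Wlk D L) (hK : 4 * m + 5 ≤ K) (htf : F t f)
    (hft : F f t) (hN : NC D) :
    Der ((Fintype.card V + 1) * (Fintype.card (V × V) * (3 * BC L + 5)) +
      Fintype.card (V × V) * (2 * BC L) + Fintype.card V * BC L)
      (fun l => OddC K l ∧ CR D F t f m l) (RF D F) := by
  classical
  obtain ⟨v0, _⟩ := hN (fun _ => true)
  let e := Fintype.equivFin V
  let w : ℕ → V := fun i => if h : i < Fintype.card V then e.symm ⟨i, h⟩ else v0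
  have hw : ∀ x, ∃ i < Fintype.card V, w i = x := fun x =>
    ⟨(e x).val, (e x).isLt, by simp [w]⟩
  have hmon : Mon (fun l => OddC K l ∧ CR D F t f m l) := (OddC.mon K).and (CR.mon D F t f m)
  have h1 := (j_der (D := D) (F := F) (K := K) hm hW hK htf hft w (Fintype.card V)).keep hmon
  have h2 := or_der (D := D) (F := F) (K := K) hm hW hK htf hft w (Fintype.card V) hw hN
  have h3 := lev_der (D := D) (F := F) (t := t) (f := f) hm hW htf hft
  refine ((h1.trans (h2.pre ?_)).trans h3)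
  rintro l _ ⟨⟨h4, h5⟩, h6⟩
  exact ⟨h4, h5, h6 _ (Nat.lt_succ_self _)⟩

theorem BC_le {n L : ℕ} (hL : L = n ^ 2) : BC L ≤ 50 * (n + 1) ^ 6 := by
  subst hL
  unfold BC
  have h0 : (n + 1) ^ 2 = n ^ 2 + 2 * n + 1 := by ring
  have h1 : n ^ 2 + 1 ≤ (n + 1) ^ 2 := by omega
  calc 50 * (n ^ 2 + 1) ^ 3 ≤ 50 * ((n + 1) ^ 2) ^ 3 :=
        Nat.mul_le_mul_left _ (Nat.pow_le_pow_left h1 3)
    _ = 50 * (n + 1) ^ 6 := by ring

theorem pow_le9 {n a : ℕ} (k : ℕ) (hk : k ≤ 9) : a * (n + 1) ^ k ≤ a * (n + 1) ^ 9 :=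
  Nat.mul_le_mul_left _ (Nat.pow_le_pow_right (Nat.succ_pos n) hk)

/-- a strong digraph in which every 2-colouring has a monochromatic cycle closes -/
theorem main_der {V : Type} [Fintype V] {D : V → V → Prop} (hS : Str D) (hN : NC D) :
    Der (13800 * (Fintype.card V + 1) ^ 9) (fun _ => True) (fun l => Clo l D) := by
  classical
  obtain ⟨n, hn⟩ : ∃ n, n = Fintype.card V := ⟨_, rfl⟩
  obtain ⟨L, hL⟩ : ∃ L, L = n ^ 2 := ⟨_, rfl⟩
  obtain ⟨m, hm⟩ : ∃ m, m = 2 * L + 2 := ⟨_, rfl⟩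
  obtain ⟨K, hK⟩ : ∃ K, K = 4 * m + 5 := ⟨_, rfl⟩
  have hW : Wlk D L := by rw [hL, hn]; exact prim D hS hN
  obtain ⟨v0, _⟩ := hN (fun _ => true)
  have d1 := odd_der K
  have d2 := (clause1 (D := D) (K := K) hm hW (by omega)).keep (OddC.mon K)
  have d3 := (leaf_der (D := D) (F := Lad) (K := K) hm hW (by omega) Lad.tf Lad.ft hN)
  have d3' : Der _ (OddC K) (fun l => OddC K l ∧ RF D Lad l) := (d2.trans d3).keep (OddC.mon K)
  have m3 : Mon (fun l => OddC K l ∧ RF D Lad l) := (OddC.mon K).and (RF.mon D Lad)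
  have d4 := ((wl_der D (L + 2)).pre (P' := fun l => OddC K l ∧ RF D Lad l)
    (fun l _ h => h.2)).keep m3
  have d5 : Der _ (fun l => OddC K l ∧ WF D (L + 2) l) _ :=
    clause2 (D := D) (K := K) hm hW (by omega)
  have d5' := d5.keep ((OddC.mon K).and (WF.mon D (L + 2)))
  have d6 := leaf_der (D := D) (F := Tri) (K := K) hm hW (by omega) Tri.tf Tri.ft hN
  have d7 := st3_der hW
  have d8 := st4_der hW v0
  have e1 := d1.trans (d3'.trans (d4.trans (((d5'.pre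
    (P' := fun l => (OddC K l ∧ RF D Lad l) ∧ ∀ i < L + 2 + 1, WF D i l)
    (fun l _ h => ⟨h.1.1, h.2 _ (Nat.lt_succ_self _)⟩)).trans (d6.pre
    (P' := fun l => (OddC K l ∧ WF D (L + 2) l) ∧ CR D Tri 2 0 m l)
    (fun l _ h => ⟨h.1.1, h.2⟩))).trans (d7.trans d8))))
  refine e1.up ?_
  rw [Fintype.card_prod, ← hn]
  have hB := BC_le hL
  have hL1 : L + 1 ≤ (n + 1) ^ 2 := by rw [hL]; nlinarith
  obtain ⟨x, hx⟩ : ∃ x, x = n + 1 := ⟨_, rfl⟩
  have hx1 : 1 ≤ x := by omega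
  rw [← hx] at hB hL1 ⊢
  have hnx : n ≤ x := by omega
  have p : ∀ a k, k ≤ 9 → a * x ^ k ≤ a * x ^ 9 := fun a k hk =>
    Nat.mul_le_mul_left _ (Nat.pow_le_pow_right hx1 hk)
  -- the summands
  have s1 : 40 * (K + 1) ^ 2 ≤ 7840 * x ^ 9 := by
    have : K + 1 ≤ 14 * x ^ 2 := by rw [hK, hm]; omega
    calc 40 * (K + 1) ^ 2 ≤ 40 * (14 * x ^ 2) ^ 2 :=
          Nat.mul_le_mul_left _ (Nat.pow_le_pow_left this 2)
      _ = 7840 * x ^ 4 := by ring
      _ ≤ _ := p _ _ (by norm_num)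
  have one6 : 1 ≤ x ^ 6 := Nat.one_le_pow _ _ hx1
  have s2 : 8 * (5 * BC L + 10) ≤ 2080 * x ^ 9 := by
    calc 8 * (5 * BC L + 10) ≤ 2080 * x ^ 6 := by omega
      _ ≤ _ := p _ _ (by norm_num)
  have s5 : 8 * (7 * BC L + 15) ≤ 2920 * x ^ 9 := by
    calc 8 * (7 * BC L + 15) ≤ 2920 * x ^ 6 := by omega
      _ ≤ _ := p _ _ (by norm_num)
  have s3 : (n + 1) * (n * n * (3 * BC L + 5)) + n * n * (2 * BC L) + n * BC L ≤ 305 * x ^ 9 := by
    have a1 : (n + 1) * (n * n * (3 * BC L + 5)) ≤ 155 * x ^ 9 := by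
      calc (n + 1) * (n * n * (3 * BC L + 5)) ≤ x * (x * x * (155 * x ^ 6)) := by
            rw [← hx]
            exact Nat.mul_le_mul_left _ (Nat.mul_le_mul (Nat.mul_le_mul hnx hnx) (by omega))
        _ = 155 * x ^ 9 := by ring
    have a2 : n * n * (2 * BC L) ≤ 100 * x ^ 9 := by
      calc n * n * (2 * BC L) ≤ x * x * (100 * x ^ 6) :=
            Nat.mul_le_mul (Nat.mul_le_mul hnx hnx) (by omega)
        _ = 100 * x ^ 8 := by ring
        _ ≤ _ := p _ _ (by norm_num)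
    have a3 : n * BC L ≤ 50 * x ^ 9 := by
      calc n * BC L ≤ x * (50 * x ^ 6) := Nat.mul_le_mul hnx hB
        _ = 50 * x ^ 7 := by ring
        _ ≤ _ := p _ _ (by norm_num)
    omega
  have s4 : 50 * (L + 2 + 1) ≤ 150 * x ^ 9 := by
    calc 50 * (L + 2 + 1) ≤ 150 * x ^ 2 := by omega
      _ ≤ _ := p _ _ (by norm_num)
  have s7 : 5 * ((L + 1) * (2 * L + 4)) ≤ 20 * x ^ 9 := by
    calc 5 * ((L + 1) * (2 * L + 4)) ≤ 5 * (x ^ 2 * (4 * x ^ 2)) :=
          Nat.mul_le_mul_left _ (Nat.mul_le_mul hL1 (by omega))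
      _ = 20 * x ^ 4 := by ring
      _ ≤ _ := p _ _ (by norm_num)
  have s8 : 5 * (L + 1) ≤ 5 * x ^ 9 := by
    calc 5 * (L + 1) ≤ 5 * x ^ 2 := Nat.mul_le_mul_left _ hL1
      _ ≤ _ := p _ _ (by norm_num)
  rw [← hx] at s3
  omega

theorem nc_of {D : Dig} (h : ¬ Dicolorable D 2) : NC D.adj := by
  intro c
  by_contra hc
  apply h
  refine ⟨fun v => if c v then 1 else 0, fun i => ?_⟩
  rintro ⟨x, hx⟩
  apply hc
  refine ⟨x, Relation.TransGen.mono (fun a b hab' => ?_) _ _ hx⟩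
  obtain ⟨ha, hb, hab⟩ := hab'
  refine ⟨hab, ?_⟩
  have ha' : (if c a then (1 : Fin 2) else 0) = i := ha
  have hb' : (if c b then (1 : Fin 2) else 0) = i := hb
  have hh := ha'.trans hb'.symm
  revert hh
  cases c a <;> cases c b <;> simp

/-- THE THEOREM -/
theorem final (D : Dig) (hD : 3 ≤ dichromatic D) :
    ∃ H : Dig, IsSub H D ∧ ConstructibleIn 3 (14000 * (Nat.card D.V + 1) ^ 9) H := by
  classical
  have := D.fin
  have hnd : ¬ Dicolorable D 2 := not_dicolorable (by norm_num) hD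
  obtain ⟨S, hS, hN⟩ := strong_part D.adj (nc_of hnd)
  have : Fintype D.V := Fintype.ofFinite _
  have : Fintype S := Fintype.ofFinite _
  let T0 : Dig := ⟨Fin 3, inferInstance, fun x y => x ≠ y, fun v h => h rfl⟩
  have hT0 : IsComplete 3 T0 := ⟨by simp [T0], fun _ _ => Iff.rfl⟩
  obtain ⟨l1, e1, c1⟩ := main_der hS hN [T0] ⟨T0, List.mem_cons_self, hT0⟩ trivial
  obtain ⟨m1, st1, hm1⟩ := e1.2 0 (Steps.base T0 Steps.nil hT0)
  have c2 : Clo l1 D.adj := c1.hom Subtype.val (fun _ _ h => h)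
  obtain ⟨T, hT, φ, hφ⟩ := c2
  obtain ⟨e⟩ : Nonempty (D.V ≃ Fin (Nat.card D.V)) := ⟨Finite.equivFin D.V⟩
  obtain ⟨l2, m2, st2, _, hm2, T', hT', ψ, hψ, hψE⟩ := merge_all
    (fun a b => D.adj (e.symm a) (e.symm b)) (fun a => D.irr _) l1 m1 st1 T hT (fun v => e (φ v))
    (fun a b hab => by simpa using hφ a b hab)
  obtain ⟨l3, m3, st3, hm3⟩ := steps_suffix st2 T' hT'
  refine ⟨T', ⟨fun a => e.symm (ψ a), e.symm.injective.comp hψ, fun x y hxy => hψE x y hxy⟩,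
    T', l3, m3, st3, ?_, Equiv.refl _, fun _ _ => Iff.rfl⟩
  have hc : Fintype.card S ≤ Nat.card D.V := by
    rw [Nat.card_eq_fintype_card]
    exact Fintype.card_subtype_le _
  have h1 : (Fintype.card S + 1) ^ 9 ≤ (Nat.card D.V + 1) ^ 9 :=
    Nat.pow_le_pow_left (by omega) 9
  have h2 : Nat.card D.V + 1 ≤ (Nat.card D.V + 1) ^ 9 := Nat.le_self_pow (by norm_num) _
  omega

end H3P
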