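import Pool.Agent.H3P.Branch
import Pool.Agent.H3P.FW

/-!
# H3P/J0 : the claims `J`, the start

Cells: all 2-colourings `c : V → Bool`.  `PE`: every vertex `v` is joined to the element `lit (c ↦ c v)` by a digon walk of
length `m`.  `rb D w j u v c`: the Floyd-Warshall entry for the relation arc of `D` with both ends of the same colour.
`J j u v`: the arc `v → u` and a digon walk of length `m` from `lit (rb j u v)` to `t` close.

PROOF of `j0`.
*Case `¬ D u v`*: `rb D w 0 u v` is constantly `false` (`fw 0 = MC`), so `lit ... = rol f` (`lit_false`) and an instance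
 contains the closed digon walk `f ~ t - f` of length `m + 1` (odd, as `m = 2 L + 2`): `OddC`.  No operation.
*Case `D u v`*: `rb D w 0 u v c = decide (D u v ∧ c u = c v)`.  `branch` with `E = lit (c ↦ c u)` and, in both branches,
 `branch` with `E = lit (c ↦ c v)` (3 times `branch`, `Der.and`, `Der.trans`).  Four cases:
 `t, t`: the closed digon walk `kon u ~ lit c_u ~ t ~ lit c_v ~ kon v - kon u` of length `4 m + 1`: the digon `kon u, kon v` is
  `Inst.kon` (`D u v`) and the arc in `Add Nil (kon v) (kon u)`.   `f, f`: the same through `f`.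
 `t, f` and `f, t`: `CR.use` with the functions `rb` (colour `true`), `c_u`, `c_v`.
-/

namespace H3P

open HJ71

/-- arcs of `D` with both ends of the same colour -/
def MC {V : Type} (D : V → V → Prop) (c : V → Bool) : V → V → Prop := fun a b => D a b ∧ c a = c b

open scoped Classical in
/-- the Floyd-Warshall entry -/
noncomputable def rb {V : Type} (D : V → V → Prop) (w : ℕ → V) (j : ℕ) (u v : V) : (V → Bool) → Bool :=
  fun c => decide (fw (MC D c) w j u v)

/-- the paths of the vertices to their colours -/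
def PE {V X : Type} (t f : X) : Dsc V X (V → Bool) → Dsc V X (V → Bool) → Prop :=
  fun E E' => ∃ v, E = kon v ∧ E' = lit t f (fun c => c v)

/-- the claim `J` -/
def J {V X : Type} (D : V → V → Prop) (F : X → X → Prop) (m : ℕ) (t f : X) (w : ℕ → V) (j : ℕ)
    (u v : V) (l : List Dig) : Prop :=
  Z D F m (Add (PE t f) (lit t f (rb D w j u v)) (rol t)) (Add Nil (kon v) (kon u)) l

theorem J.mon {V X : Type} (D : V → V → Prop) (F : X → X → Prop) (m : ℕ) (t f : X) (w : ℕ → V)
    (j : ℕ) (u v : V) : Mon (J D F m t f w j u v) := Z.mon _ _ _ _ _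

theorem j0 {V X : Type} {D : V → V → Prop} {F : X → X → Prop} {m L K : ℕ}
    (hm : m = 2 * L + 2) (hW : Wlk D L) (hK : 4 * m + 5 ≤ K) {t f : X} (htf : F t f)
    (hft : F f t) (w : ℕ → V) (u v : V) :
    Der (3 * BC L) (fun l => OddC K l ∧ CR D F t f m l) (J D F m t f w 0 u v) := by
  classical
  by_cases hD : D u v
  · -- the four cases
    have base : ∀ (s1 s2 : Bool) (l : List Dig), Bas l → (OddC K l ∧ CR D F t f m l) →
        Z D F m (Add (Add (Add (PE t f) (lit t f (rb D w 0 u v)) (rol t))
          (lit t f (fun c => c u)) (rol (sg t f s1))) (lit t f (fun c => c v)) (rol (sg t f s2)))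
          (Add Nil (kon v) (kon u)) l := by
      intro s1 s2 l hb hp Γ κ H hi
      have pE : ∀ x : V, DW H m (Γ.el κ (kon x)) (Γ.el κ (lit t f (fun c => c x))) := fun x =>
        hi.pth _ _ (Or.inl (Or.inl (Or.inl ⟨x, rfl, rfl⟩)))
      have pr : DW H m (Γ.el κ (lit t f (rb D w 0 u v))) (Γ.el κ (rol (sg t f true))) :=
        hi.pth _ _ (Or.inl (Or.inl (Or.inr ⟨rfl, rfl⟩)))
      have p1 : DW H m (Γ.el κ (lit t f (fun c => c u))) (Γ.el κ (rol (sg t f s1))) :=
        hi.pth _ _ (Or.inl (Or.inr ⟨rfl, rfl⟩))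
      have p2 : DW H m (Γ.el κ (lit t f (fun c => c v))) (Γ.el κ (rol (sg t f s2))) :=
        hi.pth _ _ (Or.inr ⟨rfl, rfl⟩)
      have hvu : H (Γ.el κ (kon v)) (Γ.el κ (kon u)) := hi.arc _ _ (Or.inr ⟨rfl, rfl⟩)
      have huv : H (Γ.el κ (kon u)) (Γ.el κ (kon v)) := hi.kon hD
      by_cases hs : s1 = s2
      · subst hs
        refine hp.1.use (r := (m + m) + (m + m) + 1) (by omega) (by omega) (x := Γ.el κ (kon u)) ?_
        exact (((pE u).trans p1).trans ((pE v).trans p2).symm).trans (DW.one hvu huv)
      · refine hp.2.use hi (rb D w 0 u v) (fun c => c u) (fun c => c v) true s1 s2 ?_ pr p1 p2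
        rintro c ⟨h1, h2, h3⟩
        have h4 : D u v ∧ c u = c v := by
          have h5 : fw (MC D c) w 0 u v := of_decide_eq_true h1
          exact h5
        exact hs (h2.symm.trans (h4.2.trans h3))
    have d1 : ∀ s1 : Bool, Der (BC L) (fun l => OddC K l ∧ CR D F t f m l)
        (Z D F m (Add (Add (PE t f) (lit t f (rb D w 0 u v)) (rol t))
          (lit t f (fun c => c u)) (rol (sg t f s1))) (Add Nil (kon v) (kon u))) := fun s1 =>
      (branch hm hW htf hft _ _ (lit t f (fun c => c v))).pre
        (fun l hb hp => ⟨base s1 true l hb hp, base s1 false l hb hp⟩)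
    have hmon : Mon (fun l => OddC K l ∧ CR D F t f m l) := (OddC.mon K).and (CR.mon D F t f m)
    have d2 := (Der.and hmon (Z.mon _ _ _ _ _) (d1 true) (d1 false)).trans
      (branch hm hW htf hft (Add (PE t f) (lit t f (rb D w 0 u v)) (rol t))
        (Add Nil (kon v) (kon u)) (lit t f (fun c => c u)))
    exact d2.up (by omega)
  · refine Der.of fun l hb hp Γ κ H hi => ?_
    have hrb : rb D w 0 u v = fun _ => false := by
      funext c
      have : ¬ fw (MC D c) w 0 u v := fun h => hD h.1
      exact decide_eq_false this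
    have pr : DW H m (Γ.el κ (rol f)) (Γ.el κ (rol t)) := by
      have := hi.pth (lit t f (rb D w 0 u v)) (rol t) (Or.inr ⟨rfl, rfl⟩)
      rw [hrb] at this
      exact this
    exact hp.1.use (r := m + 1) (by omega) (by omega) (x := Γ.el κ (rol f))
      (pr.trans (hi.tf htf hft))

end H3P
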