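import Pool.Agent.H3P.JS

/-!
# H3P/JD : the claims `J`, the table

PROOF of `j_der`: `Der.table` over `j < n + 1` with `Q j := ∀ u v, J j u v` (as `∀ p : V × V`, `Der.fin`): `j = 0` by `j0`,
`j + 1` by `js`.
-/

namespace H3P

open HJ71

variable {V X : Type} {D : V → V → Prop} {F : X → X → Prop} {m L K : ℕ} {t f : X}

theorem j_der [Fintype V] (hm : m = 2 * L + 2) (hW : Wlk D L) (hK : 4 * m + 5 ≤ K) (htf : F t f)
    (hft : F f t) (w : ℕ → V) (n : ℕ) :
    Der ((n + 1) * (Fintype.card (V × V) * (3 * BC L + 5)))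
      (fun l => OddC K l ∧ CR D F t f m l) (fun l => ∀ j < n + 1, ∀ u v, J D F m t f w j u v l) := by
  have hP : Mon (fun l => OddC K l ∧ CR D F t f m l) := (OddC.mon K).and (CR.mon D F t f m)
  refine Der.table (Q := fun j l => ∀ u v, J D F m t f w j u v l) hP
    (fun j => Mon.all fun u => Mon.all fun v => J.mon D F m t f w j u v) (n + 1) ?_
  intro j _
  have key : Der (Fintype.card (V × V) * (3 * BC L + 5))
      (fun l => (OddC K l ∧ CR D F t f m l) ∧ ∀ i < j, ∀ u v, J D F m t f w i u v l)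
      (fun l => ∀ p : V × V, J D F m t f w j p.1 p.2 l) := by
    refine Der.fin (Q := fun (p : V × V) l => J D F m t f w j p.1 p.2 l)
      (hP.and (Mon.all fun i => Mon.imp (Mon.all fun u => Mon.all fun v =>
        J.mon D F m t f w i u v))) (fun p => J.mon D F m t f w j p.1 p.2) (fun p => ?_)
    rcases j with _ | j
    · exact ((j0 hm hW hK htf hft w p.1 p.2).up (Nat.le_add_right _ _)).pre (fun l _ h => h.1)
    · exact (js hm hW htf hft w j p.1 p.2).pre
        (fun l _ h => ⟨h.1.2, h.2 j (Nat.lt_succ_self j)⟩)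
  exact key.post (fun l _ h u v => h (u, v))

end H3P
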