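import Pool.Agent.H3P.J0

/-!
# H3P/JS : the claims `J`, all steps

PROOF of `js`.  Let `x = w j`, `g = rb (j+1) u v`, `h = rb j u v`, `p = rb j u x`, `q = rb j x v`; in every cell `g` implies
`h`, or `p` and `q` (definition of `fw`).  `P = Add PE (lit g) (rol t)`, `A = Add Nil (kon v) (kon u)`.  `branch` with
`E = lit h`: the branch `rol t` is `J j u v` (`Z.le`; the path of `lit g` is not needed).  In the branch `rol f`: `branch` with
`E = lit p`: the branch `rol f` closes by `CR.use` (`g` true, `h` false, `p` false).  In the branch `rol t`: `branch` with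
`E = lit q`: the branch `rol f` closes by `CR.use` (`g` true, `h` false, `q` false).  In the branch `rol t`: `Z.cut` of the arc
`kon v → kon u` at `kon x`: `kon v → kon x` closes by `J j x v` (`lit q ~ t`), `kon x → kon u` closes by `J j u x`
(`lit p ~ t`).  Total `3 BC + 5`.
-/

namespace H3P

open HJ71

variable {V X : Type} {D : V → V → Prop} {F : X → X → Prop} {m L K : ℕ} {t f : X}

theorem js (hm : m = 2 * L + 2) (hW : Wlk D L) (htf : F t f) (hft : F f t) (w : ℕ → V) (j : ℕ)
    (u v : V) :
    Der (3 * BC L + 5) (fun l => CR D F t f m l ∧ ∀ u v, J D F m t f w j u v l)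
      (J D F m t f w (j + 1) u v) := by
  classical
  have hmon : Mon (fun l => CR D F t f m l ∧ ∀ u v, J D F m t f w j u v l) :=
    (CR.mon D F t f m).and (Mon.all fun u => Mon.all fun v => J.mon D F m t f w j u v)
  have hm0 : 0 < m := by omega
  have himp : ∀ c : V → Bool, rb D w (j + 1) u v c = true → rb D w j u v c = false →
      rb D w j u (w j) c = true ∧ rb D w j (w j) v c = true := by
    intro c h1 h2
    have h3 : fw (MC D c) w (j + 1) u v := of_decide_eq_true h1
    have h4 : ¬ fw (MC D c) w j u v := of_decide_eq_false h2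
    rcases h3 with h3 | h3
    · exact absurd h3 h4
    · exact ⟨decide_eq_true h3.1, decide_eq_true h3.2⟩
  -- the cut
  have d3 : Der 5 (fun l => CR D F t f m l ∧ ∀ u v, J D F m t f w j u v l)
      (Z D F m (Add (Add (Add (Add (PE t f) (lit t f (rb D w (j + 1) u v)) (rol t))
        (lit t f (rb D w j u v)) (rol f)) (lit t f (rb D w j u (w j))) (rol t))
        (lit t f (rb D w j (w j) v)) (rol t)) (Add Nil (kon v) (kon u))) := by
    intro l hb hp
    refine Z.cut hm0 hb (E1 := kon v) (E2 := kon (w j)) (E3 := kon u) (Or.inr ⟨rfl, rfl⟩) ?_ ?_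
    · refine (hp.2 (w j) v).le ?_ ?_
      · rintro E E' (h | h)
        · exact Or.inl (Or.inl (Or.inl (Or.inl h)))
        · exact Or.inr h
      · rintro E E' (h | h)
        · exact h.elim
        · exact Or.inr h
    · refine (hp.2 u (w j)).le ?_ ?_
      · rintro E E' (h | h)
        · exact Or.inl (Or.inl (Or.inl (Or.inl h)))
        · exact Or.inl (Or.inr h)
      · rintro E E' (h | h)
        · exact h.elim
        · exact Or.inr h
  have d4 : Der 0 (fun l => CR D F t f m l ∧ ∀ u v, J D F m t f w j u v l)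
      (Z D F m (Add (Add (Add (Add (PE t f) (lit t f (rb D w (j + 1) u v)) (rol t))
        (lit t f (rb D w j u v)) (rol f)) (lit t f (rb D w j u (w j))) (rol t))
        (lit t f (rb D w j (w j) v)) (rol f)) (Add Nil (kon v) (kon u))) := by
    refine Der.of fun l hb hp Γ κ H hi => ?_
    refine hp.1.use hi (rb D w (j + 1) u v) (rb D w j u v) (rb D w j (w j) v) true false false ?_
      (hi.pth _ _ (Or.inl (Or.inl (Or.inl (Or.inr ⟨rfl, rfl⟩)))))
      (hi.pth _ _ (Or.inl (Or.inl (Or.inr ⟨rfl, rfl⟩)))) (hi.pth _ _ (Or.inr ⟨rfl, rfl⟩))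
    rintro c ⟨h1, h2, h3⟩
    rw [(himp c h1 h2).2] at h3
    exact absurd h3 (by simp)
  have d5 := (Der.and hmon (Z.mon _ _ _ _ _) d3 d4).trans (branch hm hW htf hft _ _ _)
  have d6 : Der 0 (fun l => CR D F t f m l ∧ ∀ u v, J D F m t f w j u v l)
      (Z D F m (Add (Add (Add (PE t f) (lit t f (rb D w (j + 1) u v)) (rol t))
        (lit t f (rb D w j u v)) (rol f)) (lit t f (rb D w j u (w j))) (rol f))
        (Add Nil (kon v) (kon u))) := by
    refine Der.of fun l hb hp Γ κ H hi => ?_
    refine hp.1.use hi (rb D w (j + 1) u v) (rb D w j u v) (rb D w j u (w j)) true false false ?_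
      (hi.pth _ _ (Or.inl (Or.inl (Or.inr ⟨rfl, rfl⟩))))
      (hi.pth _ _ (Or.inl (Or.inr ⟨rfl, rfl⟩))) (hi.pth _ _ (Or.inr ⟨rfl, rfl⟩))
    rintro c ⟨h1, h2, h3⟩
    rw [(himp c h1 h2).1] at h3
    exact absurd h3 (by simp)
  have d7 := (Der.and hmon (Z.mon _ _ _ _ _) d5 d6).trans (branch hm hW htf hft _ _ _)
  have d8 : Der 0 (fun l => CR D F t f m l ∧ ∀ u v, J D F m t f w j u v l)
      (Z D F m (Add (Add (PE t f) (lit t f (rb D w (j + 1) u v)) (rol t))
        (lit t f (rb D w j u v)) (rol t)) (Add Nil (kon v) (kon u))) := by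
    refine Der.of fun l hb hp => ?_
    refine (hp.2 u v).le ?_ (fun _ _ h => h)
    rintro E E' (h | h)
    · exact Or.inl (Or.inl h)
    · exact Or.inr h
  have d9 := (Der.and hmon (Z.mon _ _ _ _ _) d8 d7).trans (branch hm hW htf hft _ _ _)
  exact d9.up (by omega)

end H3P
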