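import Pool.Agent.H3P.Walk

/-!
# H3P/Odd : closed digon walks of odd length close

PROOF.  `Der.table` with `N = K + 1` and `Q r l := r % 2 = 1 → ∀ W H x, DW H r x x → Clo l H`, cost `15 K + 10` for each `r`.
`r = 1`: a loop, `Clo.loop`.  `r = 3`: `Clo.three` (`w 3 = w 0`).  Let `r ≥ 5` be odd, all smaller odd lengths close.
Let `w` be a closed digon walk of length `r` in `H` (`w r = w 0`).
*Chords*: if `H' ≥ H` contains both arcs between `w i` and `w j`, `i < j ≤ r`, `2 ≤ j - i ≤ r - 2`, then `Clo l H'`: one of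
the closed digon walks `w_i, ..., w_j, w_i` (length `j - i + 1`) and `w_j, ..., w_r = w_0, ..., w_i, w_j` (length
`r - (j - i) + 1`) is odd and shorter than `r` (use `DW.trans` and `DW.one`; a piece `w_i, ..., w_j` is
`DW H (j - i) (w i) (w j)`, witness `fun t => w (i + t)`).
(A) If moreover `H (w 0) (w 2)` then `Prf l (3 r) H`.  It is a chain of facts, each obtained by a cut whose other branch
closes by a chord.  For `H' ≥ H` (i.e. `H` with some facts added):
 A1: from `w 0 → w k` (`2 ≤ k`, `k + 1 ≤ r - 2`) get `w 0 → w (k+1)`: cut the arc `w k → w (k+1)` at `w 0`: the branch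
   `w k → w 0` closes (chord `0, k`).  So we reach `w 0 → w (r-2)` with `r - 4` cuts.
 A2: from `w i → w (i+2)` (`i + 3 ≤ r`) get `w i → w (i+3)`: cut `w (i+2) → w (i+3)` at `w i`, the branch
   `w (i+2) → w i` closes (chord `i, i+2`); and then `w (i+1) → w (i+3)`: cut the arc `w (i+1) → w i` at `w (i+3)`:
   the branch `w (i+3) → w i` closes (chord `i, i+3`; `3 ≤ r - 2`).  So from `w 0 → w 2` we reach `w (r-2) → w r = w 0`
   with `2 (r - 2)` cuts.
 Now `w 0 → w (r-2)` and `w (r-2) → w 0`: chord `0, r-2`.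
 The statement (A) is made uniform: apply it to the universal target on `ℕ`,
 `U x y := (∃ i < r, (x = i ∧ y = (i+1) % r) ∨ (y = i ∧ x = (i+1) % r)) ∨ (x = 0 ∧ y = 2)` with `w i = i % r`, run it
 (`Prf.run`, `5 * (3 r)` operations) and obtain `l'` such that for ALL `W, H, w` as in (A): `Clo l' H` (`Clo.hom` with the
 map `w : ℕ → W`).
(B) With `l'`: if `H (w 2) (w 0)` then also `Clo l' H`: apply (A) to the reversed walk `i ↦ w ((r + 2 - i) % r)`.
(C) Any closed digon walk `w` of length `r`: `Prf l' 2 H`: cut the arc `w 3 → w 2` at `w 0`; the branch `w 0 → w 2` is (A);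
 in the branch `w 3 → w 0` cut the arc `w 2 → w 3` at `w 0`: the branch `w 2 → w 0` is (B), in the branch `w 0 → w 3`
 there is the chord `0, 3`.  Again make it uniform by the universal target (without the arc `0 → 2`) and run: 10 operations.
Total for `r ≤ K`: `15 r + 10 ≤ 15 K + 10`; `(K + 1) (15 K + 10) ≤ 40 (K+1)^2`.
-/

namespace H3P

open HJ71

namespace Odd

variable {W : Type}

/-- a closed digon walk -/
def CW (r : ℕ) (H : W → W → Prop) (w : ℕ → W) : Prop :=
  w r = w 0 ∧ ∀ i < r, H (w i) (w (i + 1)) ∧ H (w (i + 1)) (w i)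

theorem CW.le {r : ℕ} {H H' : W → W → Prop} {w : ℕ → W} (h : CW r H w)
    (hH : ∀ x y, H x y → H' x y) : CW r H' w :=
  ⟨h.1, fun i hi => ⟨hH _ _ (h.2 i hi).1, hH _ _ (h.2 i hi).2⟩⟩

/-- all odd closed digon walks shorter than `r` close -/
def Sm (r : ℕ) (l : List Dig) : Prop :=
  ∀ s < r, s % 2 = 1 → ∀ (W : Type) (H : W → W → Prop) (x : W), DW H s x x → Clo l H

theorem piece {r : ℕ} {H : W → W → Prop} {w : ℕ → W} (h : CW r H w) {i j : ℕ} (hij : i ≤ j)
    (hj : j ≤ r) : DW H (j - i) (w i) (w j) := by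
  refine ⟨fun t => w (i + t), rfl, ?_, fun t ht => ?_⟩
  · show w (i + (j - i)) = w j
    rw [Nat.add_sub_cancel' hij]
  · exact h.2 (i + t) (by omega)

theorem chord {r : ℕ} {l : List Dig} (hs : Sm r l) (hr : r % 2 = 1) {H : W → W → Prop}
    {w : ℕ → W} (h : CW r H w) {i j : ℕ} (hij : i + 2 ≤ j) (hj : j ≤ r) (hd : j ≤ i + (r - 2))
    (h1 : H (w i) (w j)) (h2 : H (w j) (w i)) : Clo l H := by
  by_cases ho : (j - i + 1) % 2 = 1
  · exact hs (j - i + 1) (by omega) ho _ _ _ ((piece h (by omega) hj).trans (DW.one h2 h1))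
  · have e1 := piece h (i := j) (j := r) hj le_rfl
    have e2 := piece h (i := 0) (j := i) (by omega) (by omega)
    rw [h.1] at e1
    exact hs _ (by omega) (by omega) _ _ _ ((e1.trans e2).trans (DW.one h1 h2))

theorem stepA1 {r n : ℕ} {l : List Dig} (hs : Sm r l) (hr : r % 2 = 1) {w : ℕ → W} :
    ∀ (m k : ℕ), k + m + 2 = r → 2 ≤ k → ∀ (H : W → W → Prop), CW r H w → H (w 0) (w k) →
      (∀ H' : W → W → Prop, (∀ x y, H x y → H' x y) → H' (w 0) (w (r - 2)) → Prf l n H') →
      Prf l (m + n) H := by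
  intro m
  induction m with
  | zero =>
    intro k hk _ H _ hH hc
    have : k = r - 2 := by omega
    subst this
    exact (hc H (fun _ _ h => h) hH).up (by omega)
  | succ m ih =>
    intro k hk hk2 H hw hH hc
    refine Prf.cut (n₁ := 0) (n₂ := m + n) (w k) (w 0) (w (k + 1)) (by omega)
      (hw.2 k (by omega)).1 ?_ ?_
    · exact Prf.ax (chord hs hr (hw.le fun _ _ h => Add.old h) (i := 0) (j := k) (by omega)
        (by omega) (by omega) (Add.old hH) Add.new)
    · refine ih (k + 1) (by omega) (by omega) _ (hw.le fun _ _ h => Add.old h) Add.new ?_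
      intro H' hH' h'
      exact hc H' (fun x y h => hH' x y (Add.old h)) h'

theorem stepA2 {r n : ℕ} {l : List Dig} (hs : Sm r l) (hr : r % 2 = 1) (hr5 : 5 ≤ r)
    {w : ℕ → W} :
    ∀ (m i : ℕ), i + m + 2 = r → ∀ (H : W → W → Prop), CW r H w → H (w i) (w (i + 2)) →
      (∀ H' : W → W → Prop, (∀ x y, H x y → H' x y) → H' (w (r - 2)) (w r) → Prf l n H') →
      Prf l (2 * m + n) H := by
  intro m
  induction m with
  | zero =>
    intro i hi H _ hH hc
    obtain rfl : i = r - 2 := by omega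
    have : r - 2 + 2 = r := by omega
    rw [this] at hH
    exact (hc H (fun _ _ h => h) hH).up (by omega)
  | succ m ih =>
    intro i hi H hw hH hc
    refine Prf.cut (n₁ := 0) (n₂ := 2 * m + n + 1) (w (i + 2)) (w i) (w (i + 3)) (by omega)
      (hw.2 (i + 2) (by omega)).1 ?_ ?_
    · exact Prf.ax (chord hs hr (hw.le fun _ _ h => Add.old h) (i := i) (j := i + 2) (by omega)
        (by omega) (by omega) (Add.old hH) Add.new)
    · refine Prf.cut (n₁ := 2 * m + n) (n₂ := 0) (w (i + 1)) (w (i + 3)) (w i) (by omega)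
        (Add.old (hw.2 i (by omega)).2) ?_ ?_
      · refine ih (i + 1) (by omega) _ (hw.le fun _ _ h => Add.old (Add.old h)) Add.new ?_
        intro H' hH' h'
        exact hc H' (fun x y h => hH' x y (Add.old (Add.old h))) h'
      · exact Prf.ax (chord hs hr (hw.le fun _ _ h => Add.old (Add.old h)) (i := i) (j := i + 3)
          (by omega) (by omega) (by omega) (Add.old Add.new) Add.new)

theorem prfA {r : ℕ} {l : List Dig} (hs : Sm r l) (hr : r % 2 = 1) (hr5 : 5 ≤ r) {w : ℕ → W}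
    {H : W → W → Prop} (hw : CW r H w) (h02 : H (w 0) (w 2)) : Prf l (3 * r) H := by
  have e1 : Prf l ((r - 4) + (2 * (r - 2) + 0)) H := by
    refine stepA1 hs hr (r - 4) 2 (by omega) le_rfl H hw h02 ?_
    intro H1 hH1 h1
    refine stepA2 hs hr hr5 (r - 2) 0 (by omega) H1 (hw.le hH1) (hH1 _ _ h02) ?_
    intro H2 hH2 h2
    rw [hw.1] at h2
    exact Prf.ax (chord hs hr ((hw.le hH1).le hH2) (i := 0) (j := r - 2) (by omega) (by omega)
      (by omega) (hH2 _ _ h1) h2)
  exact e1.up (by omega)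

/-- the universal closed digon walk -/
def U (r : ℕ) (x y : ℕ) : Prop :=
  ∃ i < r, (x = i ∧ y = (i + 1) % r) ∨ (y = i ∧ x = (i + 1) % r)

theorem U.cw {r : ℕ} : CW r (U r) (fun i => i % r) := by
  refine ⟨by simp, fun i hi => ⟨⟨i, hi, Or.inl ⟨Nat.mod_eq_of_lt hi, rfl⟩⟩,
    ⟨i, hi, Or.inr ⟨Nat.mod_eq_of_lt hi, rfl⟩⟩⟩⟩

theorem CW.mod {r : ℕ} (hr : 0 < r) {H : W → W → Prop} {w : ℕ → W} (h : CW r H w) (a : ℕ) :
    H (w (a % r)) (w ((a + 1) % r)) ∧ H (w ((a + 1) % r)) (w (a % r)) := by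
  have hb : a % r < r := Nat.mod_lt _ hr
  have e : (a + 1) % r = (a % r + 1) % r := by simp [Nat.add_mod]
  rw [e]
  generalize a % r = b at hb
  by_cases h1 : b + 1 < r
  · rw [Nat.mod_eq_of_lt h1]
    exact h.2 b hb
  · have h2 : b + 1 = r := by omega
    rw [h2, Nat.mod_self, ← h.1, ← h2]
    exact h.2 b hb

theorem U.hom {r : ℕ} {H : W → W → Prop} {w : ℕ → W} (h : CW r H w) :
    ∀ x y, U r x y → H (w x) (w y) := by
  rintro x y ⟨i, hi, ⟨rfl, rfl⟩ | ⟨rfl, rfl⟩⟩
  · have := (h.mod (by omega) x).1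
    rwa [Nat.mod_eq_of_lt hi] at this
  · have := (h.mod (by omega) y).2
    rwa [Nat.mod_eq_of_lt hi] at this

theorem CW.rev {r : ℕ} (hr : 3 ≤ r) {H : W → W → Prop} {w : ℕ → W} (h : CW r H w) :
    CW r H (fun i => w ((r + 2 - i) % r)) := by
  refine ⟨?_, fun i hi => ?_⟩
  · show w ((r + 2 - r) % r) = w ((r + 2 - 0) % r)
    rw [Nat.add_sub_cancel_left, Nat.sub_zero, Nat.add_mod_left]
  · have := h.mod (by omega) (r + 1 - i)
    rw [show r + 1 - i + 1 = r + 2 - i by omega] at this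
    show H (w ((r + 2 - i) % r)) (w ((r + 2 - (i + 1)) % r)) ∧
      H (w ((r + 2 - (i + 1)) % r)) (w ((r + 2 - i) % r))
    rw [show r + 2 - (i + 1) = r + 1 - i by omega]
    exact ⟨this.2, this.1⟩

theorem step {r : ℕ} (hr : r % 2 = 1) (hr5 : 5 ≤ r) {l : List Dig} (hb : Bas l) (hs : Sm r l) :
    ∃ l', Ext (15 * r + 10) l l' ∧ ∀ (W : Type) (H : W → W → Prop) (x : W), DW H r x x →
      Clo l' H := by
  -- stage A
  have hA : Prf l (3 * r) (Add (U r) 0 2) := by
    refine prfA hs hr hr5 (w := fun i => i % r) (U.cw.le fun _ _ h => Add.old h) ?_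
    have e0 : 0 % r = 0 := Nat.zero_mod r
    have e2 : 2 % r = 2 := Nat.mod_eq_of_lt (by omega)
    show Add (U r) 0 2 (0 % r) (2 % r)
    rw [e0, e2]
    exact Add.new
  obtain ⟨l1, x1, c1⟩ := hA.run (fun _ h => h) hb
  have hA' : ∀ (W : Type) (H : W → W → Prop) (w : ℕ → W), CW r H w → H (w 0) (w 2) →
      Clo l1 H := by
    intro W H w hw h02
    refine c1.hom w ?_
    rintro x y (h | ⟨rfl, rfl⟩)
    · exact U.hom hw x y h
    · exact h02
  have hB' : ∀ (W : Type) (H : W → W → Prop) (w : ℕ → W), CW r H w → H (w 2) (w 0) →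
      Clo l1 H := by
    intro W H w hw h20
    refine hA' W H _ (hw.rev (by omega)) ?_
    show H (w ((r + 2 - 0) % r)) (w ((r + 2 - 2) % r))
    rw [Nat.sub_zero, Nat.add_mod_left, Nat.mod_eq_of_lt (show 2 < r by omega),
      Nat.add_sub_cancel, Nat.mod_self]
    exact h20
  have hs1 : Sm r l1 := fun s h1 h2 W H x h => (hs s h1 h2 W H x h).sub x1.1
  -- stage C
  have hC : Prf l1 2 (U r) := by
    have hU : CW r (U r) (fun i => i % r) := U.cw
    refine Prf.cut (n₁ := 1) (n₂ := 0) (3 % r) (0 % r) (2 % r) (by omega)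
      (hU.2 2 (by omega)).2 ?_ ?_
    · refine Prf.cut (n₁ := 0) (n₂ := 0) (2 % r) (0 % r) (3 % r) (by omega)
        (Add.old (hU.2 2 (by omega)).1) ?_ ?_
      · exact Prf.ax (hB' ℕ _ (fun i => i % r) (hU.le fun _ _ h => Add.old (Add.old h)) Add.new)
      · exact Prf.ax (chord hs1 hr (w := fun i => i % r)
          (hU.le fun _ _ h => Add.old (Add.old h)) (i := 0) (j := 3) (by omega) (by omega)
          (by omega) Add.new (Add.old Add.new))
    · exact Prf.ax (hA' ℕ _ (fun i => i % r) (hU.le fun _ _ h => Add.old h) Add.new)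
  obtain ⟨l2, x2, c2⟩ := hC.run (fun _ h => h) (hb.ext x1)
  refine ⟨l2, (x1.trans x2).up (by omega), ?_⟩
  rintro W H x ⟨w, h1, h2, h3⟩
  exact c2.hom w (U.hom ⟨h2.trans h1.symm, h3⟩)

end Odd

open H3P.Odd in
theorem odd_der (K : ℕ) : Der (40 * (K + 1) ^ 2) (fun _ => True) (OddC K) := by
  have key : Der ((K + 1) * (15 * K + 10)) (fun _ => True) (fun l => ∀ r < K + 1,
      (r % 2 = 1 → ∀ (W : Type) (H : W → W → Prop) (x : W), DW H r x x → Clo l H)) := by
    refine Der.table (Q := fun r l => r % 2 = 1 → ∀ (W : Type) (H : W → W → Prop) (x : W),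
      DW H r x x → Clo l H) (fun _ _ _ _ => trivial) (fun r => ?_) _ (fun r hr => ?_)
    · intro l l' hl hp h W H x hx
      exact (hp h W H x hx).sub hl
    · intro l hb hp
      by_cases ho : r % 2 = 1
      swap
      · exact ⟨l, Ext.refl.up (Nat.zero_le _), fun h => absurd h ho⟩
      by_cases h1 : r = 1
      · refine ⟨l, Ext.refl.up (Nat.zero_le _), ?_⟩
        rintro _ W H x ⟨w, e1, e2, e3⟩
        subst h1
        have := (e3 0 (by omega)).1
        rw [e1, Nat.zero_add, e2] at this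
        exact Clo.loop hb this
      by_cases h3 : r = 3
      · refine ⟨l, Ext.refl.up (Nat.zero_le _), ?_⟩
        rintro _ W H x ⟨w, e1, e2, e3⟩
        subst h3
        have a0 := e3 0 (by omega)
        have a1 := e3 1 (by omega)
        have a2 := e3 2 (by omega)
        have e4 : w 3 = w 0 := e2.trans e1.symm
        simp only [Nat.zero_add, Nat.reduceAdd] at a0 a1 a2
        rw [e4] at a2
        exact Clo.three hb a0.1 a0.2 a1.1 a1.2 a2.2 a2.1
      obtain ⟨l', x1, x2⟩ := step ho (by omega) hb (fun s hs => hp.2 s hs)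
      exact ⟨l', x1.up (by nlinarith), fun _ => x2⟩
  refine (key.up (by nlinarith)).post ?_
  intro l _ h r hr ho W H x hx
  exact h r (by omega) ho W H x hx

end H3P
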