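import Pool.Agent.H3P.JD

/-!
# H3P/Or1 : every 2-colouring has a monochromatic cycle; the disjunctions

PROOF of `or_step`.  For a finite set `S` of pairs `oS S c :=` some `(u, v) ∈ S` has `D v u` and `rb n u v c`.
Claim `Or S := Z D F m (Add PE (lit (oS S)) (rol t)) Nil`, by `Finset.induction_on S` with cost `S.card * (2 BC)`:
`S = ∅`: `lit (oS ∅) = rol f`, closed digon walk `f ~ t - f` of length `m + 1`: `OddC`.
`insert (u, v) S`: if `¬ D v u` then `oS (insert (u, v) S) = oS S`.  If `D v u`: `branch` with `E = lit (oS S)`: the branch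
`rol t` is `Or S` (`Z.le`); in the branch `rol f`: `branch` with `E = lit (rb D w n u v)`: the branch `rol t` is `J n u v`
(the arc `kon v → kon u` is present: `Inst.kon`, `Inst.addA`); the branch `rol f` closes by `CR.use` (`oS (insert ..)` true,
`oS S` false, `rb n u v` false).
-/

namespace H3P

open HJ71

variable {V X : Type} {D : V → V → Prop} {F : X → X → Prop} {m L K : ℕ} {t f : X}

/-- every 2-colouring has a monochromatic directed cycle -/
def NC {V : Type} (D : V → V → Prop) : Prop := ∀ c : V → Bool, ∃ x, Relation.TransGen (MC D c) x x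

open scoped Classical in
/-- the disjunction over a finite set of pairs -/
noncomputable def oS (D : V → V → Prop) (w : ℕ → V) (n : ℕ) (S : Finset (V × V)) : (V → Bool) → Bool :=
  fun c => decide (∃ p ∈ S, D p.2 p.1 ∧ rb D w n p.1 p.2 c = true)

theorem or_step (hm : m = 2 * L + 2) (hW : Wlk D L) (hK : 4 * m + 5 ≤ K) (htf : F t f)
    (hft : F f t) (w : ℕ → V) (n : ℕ) (S : Finset (V × V)) :
    Der (S.card * (2 * BC L))
      (fun l => OddC K l ∧ CR D F t f m l ∧ ∀ u v, J D F m t f w n u v l)
      (Z D F m (Add (PE t f) (lit t f (oS D w n S)) (rol t)) Nil) := by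
  classical
  have hmon : Mon (fun l => OddC K l ∧ CR D F t f m l ∧ ∀ u v, J D F m t f w n u v l) :=
    (OddC.mon K).and ((CR.mon D F t f m).and
      (Mon.all fun u => Mon.all fun v => J.mon D F m t f w n u v))
  induction S using Finset.induction_on with
  | empty =>
    refine Der.of fun l hb hp Γ κ H hi => ?_
    have h0 : oS D w n ∅ = fun _ => false := by
      funext c
      refine decide_eq_false ?_
      rintro ⟨p, hp, -⟩
      exact absurd hp (Finset.notMem_empty p)
    have pr : DW H m (Γ.el κ (rol f)) (Γ.el κ (rol t)) := by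
      have := hi.pth (lit t f (oS D w n ∅)) (rol t) (Or.inr ⟨rfl, rfl⟩)
      rw [h0] at this
      exact this
    exact hp.1.use (r := m + 1) (by omega) (by omega) (x := Γ.el κ (rol f))
      (pr.trans (hi.tf htf hft))
  | insert p S hpS ih =>
    obtain ⟨u, v⟩ := p
    rw [Finset.card_insert_of_notMem hpS]
    by_cases hD : D v u
    · have d1 : Der 0 (fun l => OddC K l ∧ CR D F t f m l ∧ ∀ u v, J D F m t f w n u v l)
          (Z D F m (Add (Add (Add (PE t f) (lit t f (oS D w n (insert (u, v) S))) (rol t))
            (lit t f (oS D w n S)) (rol f)) (lit t f (rb D w n u v)) (rol t)) Nil) := by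
        refine Der.of fun l hb hp Γ κ H hi => ?_
        refine hp.2.2 u v Γ κ H ?_
        refine Inst.addA (hi.le ?_ fun _ _ h => h) (hi.kon hD)
        rintro E E' (h | h)
        · exact Or.inl (Or.inl (Or.inl h))
        · exact Or.inr h
      have d2 : Der 0 (fun l => OddC K l ∧ CR D F t f m l ∧ ∀ u v, J D F m t f w n u v l)
          (Z D F m (Add (Add (Add (PE t f) (lit t f (oS D w n (insert (u, v) S))) (rol t))
            (lit t f (oS D w n S)) (rol f)) (lit t f (rb D w n u v)) (rol f)) Nil) := by
        refine Der.of fun l hb hp Γ κ H hi => ?_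
        refine hp.2.1.use hi (oS D w n (insert (u, v) S)) (oS D w n S) (rb D w n u v)
          true false false ?_ (hi.pth _ _ (Or.inl (Or.inl (Or.inr ⟨rfl, rfl⟩))))
          (hi.pth _ _ (Or.inl (Or.inr ⟨rfl, rfl⟩))) (hi.pth _ _ (Or.inr ⟨rfl, rfl⟩))
        rintro c ⟨h1, h2, h3⟩
        have h1' := of_decide_eq_true h1
        have h2' := of_decide_eq_false h2
        obtain ⟨q, hq, hq1, hq2⟩ := h1'
        rcases Finset.mem_insert.1 hq with h | h
        · subst h
          rw [h3] at hq2
          exact absurd hq2 (by simp)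
        · exact h2' ⟨q, h, hq1, hq2⟩
      have d3 := (Der.and hmon (Z.mon _ _ _ _ _) d1 d2).trans (branch hm hW htf hft _ _ _)
      have d4 : Der (S.card * (2 * BC L))
          (fun l => OddC K l ∧ CR D F t f m l ∧ ∀ u v, J D F m t f w n u v l)
          (Z D F m (Add (Add (PE t f) (lit t f (oS D w n (insert (u, v) S))) (rol t))
            (lit t f (oS D w n S)) (rol t)) Nil) := by
        refine ih.post fun l _ hl => hl.le ?_ fun _ _ h => h
        rintro E E' (h | h)
        · exact Or.inl (Or.inl h)
        · exact Or.inr h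
      have d5 := (Der.and hmon (Z.mon _ _ _ _ _) d4 d3).trans (branch hm hW htf hft _ _ _)
      refine d5.up ?_
      rw [add_mul]
      omega
    · have h0 : oS D w n (insert (u, v) S) = oS D w n S := by
        funext c
        unfold oS
        congr 1
        apply propext
        constructor
        · rintro ⟨q, hq, hq1, hq2⟩
          rcases Finset.mem_insert.1 hq with h | h
          · subst h
            exact absurd hq1 hD
          · exact ⟨q, h, hq1, hq2⟩
        · rintro ⟨q, hq, hq1, hq2⟩
          exact ⟨q, Finset.mem_insert_of_mem hq, hq1, hq2⟩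
      rw [h0]
      exact ih.up (Nat.mul_le_mul_right _ (Nat.le_succ _))

end H3P
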