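import Pool.Agent.H3P.Or1

/-!
# H3P/Or2 : the end of the disjunctions

PROOF of `or_der`: `S = univ`: by `hN` and `fw_cycle`, `oS univ c = true` for all `c`, so `lit (oS univ) = rol t`
(`lit_true`), and every instance of `(PE, Nil)` has a digon walk of length `m` from `t` to `t` (`Inst.even`): `Inst.addP`.
-/

namespace H3P

open HJ71

variable {V X : Type} {D : V → V → Prop} {F : X → X → Prop} {m L K : ℕ} {t f : X}

theorem or_der [Fintype V] (hm : m = 2 * L + 2) (hW : Wlk D L) (hK : 4 * m + 5 ≤ K)
    (htf : F t f) (hft : F f t) (w : ℕ → V) (n : ℕ) (hw : ∀ x, ∃ i < n, w i = x) (hN : NC D) :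
    Der (Fintype.card (V × V) * (2 * BC L))
      (fun l => OddC K l ∧ CR D F t f m l ∧ ∀ u v, J D F m t f w n u v l)
      (Z D F m (PE t f) Nil) := by
  classical
  have h1 := or_step (D := D) (F := F) (K := K) hm hW hK htf hft w n (Finset.univ : Finset (V × V))
  rw [Finset.card_univ] at h1
  refine h1.post fun l _ hl Γ κ H hi => ?_
  refine hl Γ κ H (hi.addP ?_)
  have h0 : oS D w n Finset.univ = fun _ => true := by
    funext c
    refine decide_eq_true ?_
    obtain ⟨x, hx⟩ := hN c
    obtain ⟨u, v, huv, hf⟩ := fw_cycle (MC D c) w n hw hx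
    exact ⟨(u, v), Finset.mem_univ _, huv.1, decide_eq_true hf⟩
  rw [h0]
  exact (hi.even htf hft (fun _ => true) (L + 1)).cast (by omega)

end H3P
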