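import Pool.Agent.H3P.Or1

/-!
# H3P/SP : strong components

If every 2-colouring of a finite digraph has a monochromatic cycle then this holds for some strong component.
PROOF.  Suppose that for every strong component `S` (an equivalence class of mutual reachability) there is a colouring `c_S`
of `S` without monochromatic cycle.  Colour `V` by `c x = c_{[x]} x`.  A monochromatic cycle of `D` stays in one strong component
(all vertices of a cycle reach each other), so it is a monochromatic cycle of `c_S`.
-/

namespace H3P

/-- strong digraphs -/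
def Str {V : Type} (D : V → V → Prop) : Prop := ∀ u v, Relation.ReflTransGen D u v

theorem strong_part {V : Type} (D : V → V → Prop) (hN : NC D) :
    ∃ S : Set V, Str (fun a b : S => D a b) ∧ NC (fun a b : S => D a b) := by
  classical
  by_contra hcon
  have hcon' : ∀ S : Set V, Str (fun a b : S => D a b) → ¬ NC (fun a b : S => D a b) :=
    fun S h1 h2 => hcon ⟨S, h1, h2⟩
  obtain ⟨S, hS⟩ : ∃ S : V → Set V, ∀ v u, u ∈ S v ↔
      Relation.ReflTransGen D v u ∧ Relation.ReflTransGen D u v :=
    ⟨fun v => {u | Relation.ReflTransGen D v u ∧ Relation.ReflTransGen D u v}, fun v u => Iff.rfl⟩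
  have hstr : ∀ v, Str (fun a b : S v => D a b) := by
    intro v
    have key : ∀ a b : V, Relation.ReflTransGen D a b → ∀ (ha : a ∈ S v) (hb : b ∈ S v),
        Relation.ReflTransGen (fun a b : S v => D a b) ⟨a, ha⟩ ⟨b, hb⟩ := by
      intro a b hab
      induction hab using Relation.ReflTransGen.head_induction_on with
      | refl => intro ha hb; exact Relation.ReflTransGen.refl
      | @head a c h1 h2 ih =>
        intro ha hb
        have hc : c ∈ S v := (hS v c).2 ⟨((hS v a).1 ha).1.tail h1, h2.trans ((hS v b).1 hb).2⟩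
        exact Relation.ReflTransGen.head (b := (⟨c, hc⟩ : S v)) h1 (ih hc hb)
    intro u w
    exact key u w (((hS v u).1 u.2).2.trans ((hS v w).1 w.2).1) u.2 w.2
  have hcol : ∀ v, ∃ c : V → Bool, ∀ y : S v,
      ¬ Relation.TransGen (MC (fun a b : S v => D a b) (fun a => c a)) y y := by
    intro v
    have h1 := hcon' (S v) (hstr v)
    unfold NC at h1
    rw [not_forall] at h1
    obtain ⟨c', hc'⟩ := h1
    refine ⟨fun u => if h : u ∈ S v then c' ⟨u, h⟩ else false, ?_⟩
    have h2 : (fun a : S v => (if h : (a : V) ∈ S v then c' ⟨a, h⟩ else false)) = c' := by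
      funext a
      simp
    rw [h2]
    exact not_exists.1 hc'
  choose col hcol using hcol
  let st : Setoid V := ⟨fun a b => Relation.ReflTransGen D a b ∧ Relation.ReflTransGen D b a,
    ⟨fun a => ⟨Relation.ReflTransGen.refl, Relation.ReflTransGen.refl⟩, fun h => ⟨h.2, h.1⟩,
      fun h1 h2 => ⟨h1.1.trans h2.1, h2.2.trans h1.2⟩⟩⟩
  obtain ⟨rep, hrep1, hrep2⟩ : ∃ rep : V → V,
      (∀ v, Relation.ReflTransGen D (rep v) v ∧ Relation.ReflTransGen D v (rep v)) ∧
      (∀ a b, Relation.ReflTransGen D a b → Relation.ReflTransGen D b a → rep a = rep b) :=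
    ⟨fun v => (Quotient.mk st v).out, fun v => Quotient.mk_out (s := st) v,
      fun a b h1 h2 => congrArg Quotient.out (Quotient.sound (s := st) ⟨h1, h2⟩)⟩
  obtain ⟨x, hx⟩ := hN (fun x => col (rep x) x)
  have hxS : x ∈ S (rep x) := (hS _ _).2 (hrep1 x)
  have toD : ∀ a b, Relation.TransGen (MC D (fun x => col (rep x) x)) a b →
      Relation.ReflTransGen D a b := by
    intro a b h
    induction h with
    | single h1 => exact Relation.ReflTransGen.single h1.1
    | tail _ h1 ih => exact ih.tail h1.1
  have hmem : ∀ b, Relation.ReflTransGen D x b → Relation.ReflTransGen D b x → b ∈ S (rep x) :=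
    fun b h1 h2 => (hS _ _).2 ⟨(hrep1 x).1.trans h1, h2.trans (hrep1 x).2⟩
  have main : ∀ b, Relation.TransGen (MC D (fun x => col (rep x) x)) x b →
      Relation.ReflTransGen D b x → ∀ hb : b ∈ S (rep x),
      Relation.TransGen (MC (fun a b : S (rep x) => D a b) (fun a => col (rep x) a)) ⟨x, hxS⟩
        ⟨b, hb⟩ := by
    intro b h
    induction h with
    | @single b h1 =>
      intro hbx hb
      refine Relation.TransGen.single ⟨h1.1, ?_⟩
      have h2 : rep b = rep x := hrep2 _ _ hbx (Relation.ReflTransGen.single h1.1)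
      have h3 := h1.2
      simp only [h2] at h3
      exact h3
    | @tail b' b h0 h1 ih =>
      intro hbx hb
      have hb'x : Relation.ReflTransGen D b' x := Relation.ReflTransGen.head h1.1 hbx
      have hxb' := toD _ _ h0
      have hb' := hmem b' hxb' hb'x
      refine Relation.TransGen.tail (ih hb'x hb') ⟨h1.1, ?_⟩
      have h2 : rep b = rep x := hrep2 _ _ hbx (hxb'.tail h1.1)
      have h4 : rep b' = rep x := hrep2 _ _ hb'x hxb'
      have h3 := h1.2
      simp only [h2, h4] at h3
      exact h3
  exact hcol (rep x) ⟨x, hxS⟩ (main x hx Relation.ReflTransGen.refl hxS)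

end H3P
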