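import Pool.Agent.H3P.RF

/-!
# H3P/WL : digon walks in the second pattern

If the ladder closes: let `x1 → x2`, digons `x1 b`, `x2 b`, and a digon walk of length `2 i` from `b` to `u`.  Then `u → b`
closes, and `b → u` closes (that is: `u` is equivalent to `b`).

PROOF.  `Der.table`, `Q i := WF D i`.  `i = 0`: `u = b`, a loop (`Clo.loop`).
Step `i → i + 1`: let `DW H (2 i + 2) b w`: there are `u, v` with `DW H (2 i) b u`, digons `u v` and `v w`.
*Part 1*: `H w b`.  A `Prf` with 5 cuts:
1. cut the arc `v → u` at `b`: the branch `b → u` closes (`WF D i`); branch `v → b`: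
2. cut the arc `u → v` at `b`: the branch `u → b` closes (`WF D i`); branch `b → v`.  Now `v b` is a digon.
3. cut the arc `x1 → x2` at `v`:
   branch `v → x2`: the ladder `(w, v, b, x2)` closes (`RF.lad`: digons `w v`, `v b`, `b x2`, arcs `w → b`, `v → x2`).
   branch `x1 → v`:
4. cut the arc `v → w` at `x1`: the branch `v → x1` closes by the ladder `(w, v, b, x1)`; branch `x1 → w`:
5. cut the arc `b → x1` at `w`: the branch `b → w` closes: `b, v, w` are mutually joined by digons (`Clo.three`; `w → b`);
   branch `w → x1`: the ladder `(x1, w, v, b)` closes: digons `x1 w`, `w v`, `v b`, arcs `x1 → v`, `w → b`.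
*Part 2*: `H b w`.  The cuts 1, 2 as before; then
3. cut the arc `x1 → x2` at `v`:
   branch `x1 → v`: the ladder `(x1, b, v, w)` closes: digons `x1 b`, `b v`, `v w`, arcs `x1 → v`, `b → w`.
   branch `v → x2`:
4. cut the arc `w → v` at `x2`: the branch `x2 → v` closes by the ladder `(x2, b, v, w)`; branch `w → x2`:
5. cut the arc `x2 → b` at `w`: the branch `w → b` closes by `Clo.three` (`b, v, w`; `b → w`); branch `x2 → w`:
   the ladder `(b, v, w, x2)` closes: digons `b v`, `v w`, `w x2`, arcs `b → w`, `v → x2`.
Uniformity: `uniD` twice (25 operations each), names `Y = Option (ℕ ⊕ ...)` or simply `Y = ℕ`: `y 0 = x1`, `y 1 = x2`,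
`y 2 = b`, `y (3 + j)` the vertices of the walk, constraint `y 3 = y 2`.
-/

namespace H3P

open HJ71

/-- the claim for walks of length `2 i` -/
def WF {V : Type} (D : V → V → Prop) (i : ℕ) (l : List Dig) : Prop :=
  ∀ (Ω : Type) (H : (Ω → V) → (Ω → V) → Prop), (∀ f g, (∀ ω, D (f ω) (g ω)) → H f g) →
    ∀ x1 x2 b u : Ω → V, H x1 x2 → H x1 b → H b x1 → H x2 b → H b x2 → DW H (2 * i) b u →
      (H u b ∨ H b u) → Clo l H

theorem WF.mon {V : Type} (D : V → V → Prop) (i : ℕ) : Mon (WF D i) :=
  fun _ _ hl h Ω H hD x1 x2 b u h1 h2 h3 h4 h5 h6 h7 =>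
    (h Ω H hD x1 x2 b u h1 h2 h3 h4 h5 h6 h7).sub hl

/-- part 1 -/
theorem wl_p1 {V : Type} {D : V → V → Prop} {i : ℕ} {l : List Dig} (hb : Bas l)
    (hL : RF D Lad l) (hW : WF D i l) {Ω : Type} {H : (Ω → V) → (Ω → V) → Prop}
    (hD : ∀ f g, (∀ ω, D (f ω) (g ω)) → H f g) {x1 x2 b u v w : Ω → V} (h1 : H x1 x2)
    (h2 : H x1 b) (h3 : H b x1) (h4 : H x2 b) (h5 : H b x2) (hu : DW H (2 * i) b u)
    (huv : H u v) (hvu : H v u) (hvw : H v w) (hwv : H w v) (hwb : H w b) : Prf l 5 H := by
  -- cut `v → u` at `b`
  refine Prf.cut (n₁ := 4) (n₂ := 0) v b u (by omega) hvu ?_ (Prf.ax ?_)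
  swap
  · exact hW Ω _ (fun f g h => Add.old (hD f g h)) x1 x2 b u (by (repeat (first | assumption | exact Add.new | apply Add.old))) (by (repeat (first | assumption | exact Add.new | apply Add.old))) (by (repeat (first | assumption | exact Add.new | apply Add.old))) (by (repeat (first | assumption | exact Add.new | apply Add.old)))
      (by (repeat (first | assumption | exact Add.new | apply Add.old))) (hu.le fun _ _ => Add.old) (Or.inr Add.new)
  -- cut `u → v` at `b`
  refine Prf.cut (n₁ := 0) (n₂ := 3) u b v (by omega) (by (repeat (first | assumption | exact Add.new | apply Add.old))) (Prf.ax ?_) ?_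
  · exact hW Ω _ (fun f g h => Add.old (Add.old (hD f g h))) x1 x2 b u (by (repeat (first | assumption | exact Add.new | apply Add.old))) (by (repeat (first | assumption | exact Add.new | apply Add.old))) (by (repeat (first | assumption | exact Add.new | apply Add.old)))
      (by (repeat (first | assumption | exact Add.new | apply Add.old))) (by (repeat (first | assumption | exact Add.new | apply Add.old))) (hu.le fun _ _ h => Add.old (Add.old h)) (Or.inl Add.new)
  -- cut `x1 → x2` at `v`
  refine Prf.cut (n₁ := 2) (n₂ := 0) x1 v x2 (by omega) (by (repeat (first | assumption | exact Add.new | apply Add.old))) ?_ (Prf.ax ?_)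
  swap
  · exact RF.lad hL (fun f g h => Add.old (Add.old (Add.old (hD f g h)))) (y0 := w) (y1 := v)
      (y2 := b) (y3 := x2) (by (repeat (first | assumption | exact Add.new | apply Add.old))) (by (repeat (first | assumption | exact Add.new | apply Add.old))) (by (repeat (first | assumption | exact Add.new | apply Add.old))) (by (repeat (first | assumption | exact Add.new | apply Add.old))) (by (repeat (first | assumption | exact Add.new | apply Add.old))) (by (repeat (first | assumption | exact Add.new | apply Add.old))) (by (repeat (first | assumption | exact Add.new | apply Add.old))) (by (repeat (first | assumption | exact Add.new | apply Add.old)))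
  -- cut `v → w` at `x1`
  refine Prf.cut (n₁ := 0) (n₂ := 1) v x1 w (by omega) (by (repeat (first | assumption | exact Add.new | apply Add.old))) (Prf.ax ?_) ?_
  · exact RF.lad hL (fun f g h => Add.old (Add.old (Add.old (Add.old (hD f g h))))) (y0 := w)
      (y1 := v) (y2 := b) (y3 := x1) (by (repeat (first | assumption | exact Add.new | apply Add.old))) (by (repeat (first | assumption | exact Add.new | apply Add.old))) (by (repeat (first | assumption | exact Add.new | apply Add.old))) (by (repeat (first | assumption | exact Add.new | apply Add.old))) (by (repeat (first | assumption | exact Add.new | apply Add.old))) (by (repeat (first | assumption | exact Add.new | apply Add.old))) (by (repeat (first | assumption | exact Add.new | apply Add.old)))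
      (by (repeat (first | assumption | exact Add.new | apply Add.old)))
  -- cut `b → x1` at `w`
  refine Prf.cut (n₁ := 0) (n₂ := 0) b w x1 (by omega) (by (repeat (first | assumption | exact Add.new | apply Add.old))) (Prf.ax ?_) (Prf.ax ?_)
  · exact Clo.three hb (x := b) (y := v) (z := w) (by (repeat (first | assumption | exact Add.new | apply Add.old))) (by (repeat (first | assumption | exact Add.new | apply Add.old))) (by (repeat (first | assumption | exact Add.new | apply Add.old))) (by (repeat (first | assumption | exact Add.new | apply Add.old))) (by (repeat (first | assumption | exact Add.new | apply Add.old))) (by (repeat (first | assumption | exact Add.new | apply Add.old)))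
  · exact RF.lad hL (fun f g h => Add.old (Add.old (Add.old (Add.old (Add.old (hD f g h))))))
      (y0 := x1) (y1 := w) (y2 := v) (y3 := b) (by (repeat (first | assumption | exact Add.new | apply Add.old))) (by (repeat (first | assumption | exact Add.new | apply Add.old))) (by (repeat (first | assumption | exact Add.new | apply Add.old))) (by (repeat (first | assumption | exact Add.new | apply Add.old))) (by (repeat (first | assumption | exact Add.new | apply Add.old))) (by (repeat (first | assumption | exact Add.new | apply Add.old)))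
      (by (repeat (first | assumption | exact Add.new | apply Add.old))) (by (repeat (first | assumption | exact Add.new | apply Add.old)))

/-- part 2 -/
theorem wl_p2 {V : Type} {D : V → V → Prop} {i : ℕ} {l : List Dig} (hb : Bas l)
    (hL : RF D Lad l) (hW : WF D i l) {Ω : Type} {H : (Ω → V) → (Ω → V) → Prop}
    (hD : ∀ f g, (∀ ω, D (f ω) (g ω)) → H f g) {x1 x2 b u v w : Ω → V} (h1 : H x1 x2)
    (h2 : H x1 b) (h3 : H b x1) (h4 : H x2 b) (h5 : H b x2) (hu : DW H (2 * i) b u)
    (huv : H u v) (hvu : H v u) (hvw : H v w) (hwv : H w v) (hbw : H b w) : Prf l 5 H := by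
  -- cut `v → u` at `b`
  refine Prf.cut (n₁ := 4) (n₂ := 0) v b u (by omega) hvu ?_ (Prf.ax ?_)
  swap
  · exact hW Ω _ (fun f g h => Add.old (hD f g h)) x1 x2 b u (by (repeat (first | assumption | exact Add.new | apply Add.old))) (by (repeat (first | assumption | exact Add.new | apply Add.old))) (by (repeat (first | assumption | exact Add.new | apply Add.old))) (by (repeat (first | assumption | exact Add.new | apply Add.old)))
      (by (repeat (first | assumption | exact Add.new | apply Add.old))) (hu.le fun _ _ => Add.old) (Or.inr Add.new)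
  -- cut `u → v` at `b`
  refine Prf.cut (n₁ := 0) (n₂ := 3) u b v (by omega) (by (repeat (first | assumption | exact Add.new | apply Add.old))) (Prf.ax ?_) ?_
  · exact hW Ω _ (fun f g h => Add.old (Add.old (hD f g h))) x1 x2 b u (by (repeat (first | assumption | exact Add.new | apply Add.old))) (by (repeat (first | assumption | exact Add.new | apply Add.old))) (by (repeat (first | assumption | exact Add.new | apply Add.old)))
      (by (repeat (first | assumption | exact Add.new | apply Add.old))) (by (repeat (first | assumption | exact Add.new | apply Add.old))) (hu.le fun _ _ h => Add.old (Add.old h)) (Or.inl Add.new)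
  -- cut `x1 → x2` at `v`
  refine Prf.cut (n₁ := 0) (n₂ := 2) x1 v x2 (by omega) (by (repeat (first | assumption | exact Add.new | apply Add.old))) (Prf.ax ?_) ?_
  · exact RF.lad hL (fun f g h => Add.old (Add.old (Add.old (hD f g h)))) (y0 := x1) (y1 := b)
      (y2 := v) (y3 := w) (by (repeat (first | assumption | exact Add.new | apply Add.old))) (by (repeat (first | assumption | exact Add.new | apply Add.old))) (by (repeat (first | assumption | exact Add.new | apply Add.old))) (by (repeat (first | assumption | exact Add.new | apply Add.old))) (by (repeat (first | assumption | exact Add.new | apply Add.old))) (by (repeat (first | assumption | exact Add.new | apply Add.old))) (by (repeat (first | assumption | exact Add.new | apply Add.old))) (by (repeat (first | assumption | exact Add.new | apply Add.old)))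
  -- cut `w → v` at `x2`
  refine Prf.cut (n₁ := 1) (n₂ := 0) w x2 v (by omega) (by (repeat (first | assumption | exact Add.new | apply Add.old))) ?_ (Prf.ax ?_)
  swap
  · exact RF.lad hL (fun f g h => Add.old (Add.old (Add.old (Add.old (hD f g h))))) (y0 := x2)
      (y1 := b) (y2 := v) (y3 := w) (by (repeat (first | assumption | exact Add.new | apply Add.old))) (by (repeat (first | assumption | exact Add.new | apply Add.old))) (by (repeat (first | assumption | exact Add.new | apply Add.old))) (by (repeat (first | assumption | exact Add.new | apply Add.old))) (by (repeat (first | assumption | exact Add.new | apply Add.old))) (by (repeat (first | assumption | exact Add.new | apply Add.old))) (by (repeat (first | assumption | exact Add.new | apply Add.old)))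
      (by (repeat (first | assumption | exact Add.new | apply Add.old)))
  -- cut `x2 → b` at `w`
  refine Prf.cut (n₁ := 0) (n₂ := 0) x2 w b (by omega) (by (repeat (first | assumption | exact Add.new | apply Add.old))) (Prf.ax ?_) (Prf.ax ?_)
  · exact RF.lad hL (fun f g h => Add.old (Add.old (Add.old (Add.old (Add.old (hD f g h))))))
      (y0 := b) (y1 := v) (y2 := w) (y3 := x2) (by (repeat (first | assumption | exact Add.new | apply Add.old))) (by (repeat (first | assumption | exact Add.new | apply Add.old))) (by (repeat (first | assumption | exact Add.new | apply Add.old))) (by (repeat (first | assumption | exact Add.new | apply Add.old))) (by (repeat (first | assumption | exact Add.new | apply Add.old))) (by (repeat (first | assumption | exact Add.new | apply Add.old)))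
      (by (repeat (first | assumption | exact Add.new | apply Add.old))) (by (repeat (first | assumption | exact Add.new | apply Add.old)))
  · exact Clo.three hb (x := b) (y := v) (z := w) (by (repeat (first | assumption | exact Add.new | apply Add.old))) (by (repeat (first | assumption | exact Add.new | apply Add.old))) (by (repeat (first | assumption | exact Add.new | apply Add.old))) (by (repeat (first | assumption | exact Add.new | apply Add.old))) (by (repeat (first | assumption | exact Add.new | apply Add.old))) (by (repeat (first | assumption | exact Add.new | apply Add.old)))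

/-- the arcs between the names: `0 = x1`, `1 = x2`, `2 = b`, `3 + j` the walk (of length `n`) -/
def WB (n : ℕ) (s : Bool) (p q : ℕ) : Prop :=
  (p = 0 ∧ q = 1) ∨ (p = 0 ∧ q = 2) ∨ (p = 2 ∧ q = 0) ∨ (p = 1 ∧ q = 2) ∨ (p = 2 ∧ q = 1) ∨
    (∃ j < n, (p = 3 + j ∧ q = 3 + (j + 1)) ∨ (p = 3 + (j + 1) ∧ q = 3 + j)) ∨
    (if s then p = 3 + n ∧ q = 2 else p = 2 ∧ q = 3 + n)

/-- the claim for one direction -/
def WF1 {V : Type} (D : V → V → Prop) (n : ℕ) (s : Bool) (l : List Dig) : Prop :=
  ∀ (Ω : Type) (H : (Ω → V) → (Ω → V) → Prop), (∀ f g, (∀ ω, D (f ω) (g ω)) → H f g) →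
    ∀ y : ℕ → Ω → V, (∀ ω, y 3 ω = y 2 ω) → (∀ p q, WB n s p q → H (y p) (y q)) → Clo l H

theorem WF1.mon {V : Type} (D : V → V → Prop) (n : ℕ) (s : Bool) : Mon (WF1 D n s) :=
  fun _ _ hl h Ω H hD y h1 h2 => (h Ω H hD y h1 h2).sub hl

theorem wf_of {V : Type} {D : V → V → Prop} {i : ℕ} {l : List Dig}
    (h : ∀ s, WF1 D (2 * i) s l) : WF D i l := by
  intro Ω H hD x1 x2 b u h1 h2 h3 h4 h5 ⟨w, hw0, hwn, hw⟩ h7
  have key : ∀ s : Bool, (if s then H u b else H b u) → Clo l H := by
    intro s hs
    refine h s Ω H hD (fun k => if k = 0 then x1 else if k = 1 then x2 else if k = 2 then b else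
      w (k - 3)) (fun ω => by simp [hw0]) ?_
    rintro p q (⟨rfl, rfl⟩ | ⟨rfl, rfl⟩ | ⟨rfl, rfl⟩ | ⟨rfl, rfl⟩ | ⟨rfl, rfl⟩ |
      ⟨j, hj, ⟨rfl, rfl⟩ | ⟨rfl, rfl⟩⟩ | hpq)
    · simpa using h1
    · simpa using h2
    · simpa using h3
    · simpa using h4
    · simpa using h5
    · have := (hw j hj).1
      rw [if_neg (by omega), if_neg (by omega), if_neg (by omega), if_neg (by omega),
        if_neg (by omega), if_neg (by omega), show 3 + j - 3 = j by omega,
        show 3 + (j + 1) - 3 = j + 1 by omega]
      exact this
    · have := (hw j hj).2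
      rw [if_neg (by omega), if_neg (by omega), if_neg (by omega), if_neg (by omega),
        if_neg (by omega), if_neg (by omega), show 3 + j - 3 = j by omega,
        show 3 + (j + 1) - 3 = j + 1 by omega]
      exact this
    · cases s with
      | true =>
        simp only [if_true] at hpq hs
        obtain ⟨rfl, rfl⟩ := hpq
        rw [if_neg (by omega), if_neg (by omega), if_neg (by omega), if_neg (by omega),
          if_neg (by omega), if_pos rfl, show 3 + 2 * i - 3 = 2 * i by omega, hwn]
        exact hs
      | false =>
        simp only [Bool.false_eq_true, if_false] at hpq hs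
        obtain ⟨rfl, rfl⟩ := hpq
        rw [if_neg (by omega), if_neg (by omega), if_pos rfl, if_neg (by omega),
          if_neg (by omega), if_neg (by omega), show 3 + 2 * i - 3 = 2 * i by omega, hwn]
        exact hs
  rcases h7 with h7 | h7
  · exact key true h7
  · exact key false h7

theorem wl_one {V : Type} {D : V → V → Prop} {i : ℕ} (s : Bool) :
    Der 25 (fun l => RF D Lad l ∧ WF D i l) (WF1 D (2 * (i + 1)) s) := by
  rintro l hb ⟨hL, hW⟩
  refine uniD (n := 5) hb (fun y : ℕ → V => y 3 = y 2) (WB (2 * (i + 1)) s) ?_
  intro Ω H hD y hy hB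
  have h32 : y 3 = y 2 := funext hy
  have h1 : H (y 0) (y 1) := hB _ _ (by simp [WB])
  have h2 : H (y 0) (y 2) := hB _ _ (by simp [WB])
  have h3 : H (y 2) (y 0) := hB _ _ (by simp [WB])
  have h4 : H (y 1) (y 2) := hB _ _ (by simp [WB])
  have h5 : H (y 2) (y 1) := hB _ _ (by simp [WB])
  have hw : ∀ j < 2 * (i + 1), H (y (3 + j)) (y (3 + (j + 1))) ∧
      H (y (3 + (j + 1))) (y (3 + j)) := fun j hj =>
    ⟨hB _ _ (Or.inr (Or.inr (Or.inr (Or.inr (Or.inr (Or.inl ⟨j, hj, Or.inl ⟨rfl, rfl⟩⟩)))))),
      hB _ _ (Or.inr (Or.inr (Or.inr (Or.inr (Or.inr (Or.inl ⟨j, hj, Or.inr ⟨rfl, rfl⟩⟩))))))⟩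
  have hu : DW H (2 * i) (y 2) (y (3 + 2 * i)) :=
    ⟨fun j => y (3 + j), h32, rfl, fun j hj => hw j (by omega)⟩
  obtain ⟨huv, hvu⟩ := hw (2 * i) (by omega)
  obtain ⟨hvw, hwv⟩ := hw (2 * i + 1) (by omega)
  cases s with
  | true =>
    exact wl_p1 hb hL hW hD h1 h2 h3 h4 h5 hu huv hvu hvw hwv
      (hB _ _ (Or.inr (Or.inr (Or.inr (Or.inr (Or.inr (Or.inr ⟨rfl, rfl⟩)))))))
  | false =>
    exact wl_p2 hb hL hW hD h1 h2 h3 h4 h5 hu huv hvu hvw hwv
      (hB _ _ (Or.inr (Or.inr (Or.inr (Or.inr (Or.inr (Or.inr ⟨rfl, rfl⟩)))))))

theorem wl_der {V : Type} (D : V → V → Prop) (N : ℕ) :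
    Der (50 * (N + 1)) (RF D Lad) (fun l => ∀ i < N + 1, WF D i l) := by
  rw [mul_comm]
  refine Der.table (RF.mon D Lad) (WF.mon D) (N + 1) fun i _ => ?_
  rcases i with _ | i
  · refine Der.of fun l hb _ => ?_
    intro Ω H hD x1 x2 b u h1 h2 h3 h4 h5 ⟨w, hw0, hwn, hw⟩ h7
    have hbu : b = u := hw0.symm.trans hwn
    subst hbu
    exact Clo.loop hb (h7.elim id id)
  · have hm : Mon (fun l => RF D Lad l ∧ WF D i l) := (RF.mon D Lad).and (WF.mon D i)
    have h := Der.and hm (WF1.mon D (2 * (i + 1)) true) (wl_one true) (wl_one (V := V) (D := D) false)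
    refine (h.pre (P' := fun l => RF D Lad l ∧ ∀ j < i + 1, WF D j l) fun l _ hl =>
      ⟨hl.1, hl.2 i (Nat.lt_succ_self i)⟩).post fun l _ hl => wf_of fun s => ?_
    cases s with
    | true => exact hl.1
    | false => exact hl.2

end H3P
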