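import Pool.Agent.H3P.Cut

/-!
# H3P/Walk : digon walks
-/

namespace H3P

open HJ71

/-- a walk of `n` digons (pairs of opposite arcs) from `x` to `y` -/
def DW {W : Type} (H : W → W → Prop) (n : ℕ) (x y : W) : Prop :=
  ∃ w : ℕ → W, w 0 = x ∧ w n = y ∧ ∀ i < n, H (w i) (w (i + 1)) ∧ H (w (i + 1)) (w i)

/-- all closed digon walks of odd length at most `K` close -/
def OddC (K : ℕ) (l : List Dig) : Prop :=
  ∀ r ≤ K, r % 2 = 1 → ∀ (W : Type) (H : W → W → Prop) (x : W), DW H r x x → Clo l H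

variable {W W' : Type} {H H' : W → W → Prop} {x y z : W} {n m : ℕ}

theorem DW.zero : DW H 0 x x := ⟨fun _ => x, rfl, rfl, fun i hi => absurd hi (Nat.not_lt_zero i)⟩

theorem DW.one (h : H x y) (h' : H y x) : DW H 1 x y :=
  ⟨fun i => if i = 0 then x else y, rfl, rfl, fun i hi => by
    obtain rfl : i = 0 := by omega
    exact ⟨h, h'⟩⟩

theorem DW.trans (h : DW H n x y) (h' : DW H m y z) : DW H (n + m) x z := by
  obtain ⟨w, h1, h2, h3⟩ := h
  obtain ⟨w', h4, h5, h6⟩ := h'
  refine ⟨fun i => if i ≤ n then w i else w' (i - n), by simp [h1], ?_, fun i hi => ?_⟩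
  · by_cases hm : m = 0
    · subst hm
      simp only [Nat.add_zero, le_refl, if_true]
      rw [h2, ← h4, h5]
    · dsimp only
      rw [if_neg (by omega), Nat.add_sub_cancel_left, h5]
  · dsimp only
    rcases lt_trichotomy i n with h | h | h
    · rw [if_pos h.le, if_pos (by omega)]
      exact h3 i h
    · subst h
      rw [if_pos le_rfl, if_neg (by omega), h2, ← h4]
      have := h6 0 (by omega)
      simpa using this
    · rw [if_neg (by omega), if_neg (by omega)]
      have := h6 (i - n) (by omega)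
      rwa [show i - n + 1 = i + 1 - n by omega] at this

theorem DW.symm (h : DW H n x y) : DW H n y x := by
  obtain ⟨w, h1, h2, h3⟩ := h
  refine ⟨fun i => w (n - i), by simp [h2], by simp [h1], fun i hi => ?_⟩
  have := h3 (n - (i + 1)) (by omega)
  rw [show n - (i + 1) + 1 = n - i by omega] at this
  exact ⟨this.2, this.1⟩

theorem DW.le (h : DW H n x y) (hH : ∀ x y, H x y → H' x y) : DW H' n x y := by
  obtain ⟨w, h1, h2, h3⟩ := h
  exact ⟨w, h1, h2, fun i hi => ⟨hH _ _ (h3 i hi).1, hH _ _ (h3 i hi).2⟩⟩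

theorem DW.map {H' : W' → W' → Prop} (f : W → W') (h : DW H n x y)
    (hH : ∀ x y, H x y → H' (f x) (f y)) : DW H' n (f x) (f y) := by
  obtain ⟨w, h1, h2, h3⟩ := h
  exact ⟨fun i => f (w i), by simp [h1], by simp [h2],
    fun i hi => ⟨hH _ _ (h3 i hi).1, hH _ _ (h3 i hi).2⟩⟩

/-- going back and forth along one digon -/
theorem DW.even (h : H x y) (h' : H y x) : ∀ k : ℕ, DW H (2 * k) x x
  | 0 => DW.zero
  | k + 1 => by
    have := (DW.even h h' k).trans ((DW.one h h').trans (DW.one h' h))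
    rwa [show 2 * k + (1 + 1) = 2 * (k + 1) by ring] at this

theorem DW.cast (h : DW H n x y) (hn : n = m) : DW H m x y := hn ▸ h

theorem OddC.mon (K : ℕ) : Mon (OddC K) := fun _ _ hl h r hr ho W H x hw =>
  (h r hr ho W H x hw).sub hl

theorem OddC.use {K : ℕ} {l : List Dig} (h : OddC K l) {r : ℕ} (hr : r ≤ K) (ho : r % 2 = 1)
    (hw : DW H r x x) : Clo l H := h r hr ho _ _ _ hw

end H3P
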