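import Pool.Agent.H3P.Branch

/-!
# H3P/XF : the facts that the literal `x_i` is false

For `τ : Fin 3 → Bool` and the cells `Cτ τ` (all `β ≠ τ`) let `x_i β = (β i ≠ τ i)`; at least one `x_i` is true in every cell.

PROOF of `xfacts`.  Three times `branch`: with `E = lit (xl τ 0)`, `lit (xl τ 1)`, `lit (xl τ 2)`, over `P₀ = Pτ`,
`P₁ = Add P₀ (lit (xl τ 0)) (rol f)`, `P₂ = Add P₁ (lit (xl τ 1)) (rol f)`; `Add P₂ (lit (xl τ 2)) (rol f)` is contained in
`PX` (`Z.le`).  The branch with `rol t` closes by `OddC`: an instance contains the digon walks `lit β_i ~ sg t f (τ i)` and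
`lit (xl τ i) ~ t` of length `m`.  If `τ i = false` then `xl τ i = β_i` (`xor b false = b`) and there is the closed walk
`lit β_i ~ f - t ~ lit β_i` of length `2 m + 1`; if `τ i = true` then `xl τ i` is the negation of `β_i`: closed walk
`lit β_i ~ t ~ lit (xl τ i) - lit β_i` of length `2 m + 1` (`Inst.neg`).
-/

namespace H3P

open HJ71

/-- `x_i β = (β i ≠ τ i)` -/
def xl (τ : Fin 3 → Bool) (i : Fin 3) : Cτ τ → Bool := fun β => Bool.xor (β.1 i) (τ i)

/-- one of the three is true -/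
theorem xl_or (τ : Fin 3 → Bool) (β : Cτ τ) :
    xl τ 0 β = true ∨ xl τ 1 β = true ∨ xl τ 2 β = true := by
  by_contra h
  push Not at h
  apply β.2
  obtain ⟨h0, h1, h2⟩ := h
  simp only [xl] at h0 h1 h2
  funext i
  have hi : i = 0 ∨ i = 1 ∨ i = 2 := by omega
  rcases hi with rfl | rfl | rfl
  · revert h0; cases β.1 0 <;> cases τ 0 <;> simp
  · revert h1; cases β.1 1 <;> cases τ 1 <;> simp
  · revert h2; cases β.1 2 <;> cases τ 2 <;> simp

/-- the given paths, and paths from the three literals `x_i` to `f` -/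
def PX {V X : Type} (t f : X) (τ : Fin 3 → Bool) : Dsc V X (Cτ τ) → Dsc V X (Cτ τ) → Prop :=
  fun E E' => Pτ t f τ E E' ∨ ∃ i, E = lit t f (xl τ i) ∧ E' = rol f

private theorem close_t {V X : Type} {D : V → V → Prop} {F : X → X → Prop} {m K : ℕ}
    (hK : 2 * m + 5 ≤ K) {t f : X} (htf : F t f)
    (hft : F f t) (τ : Fin 3 → Bool) (i : Fin 3) {P : Dsc V X (Cτ τ) → Dsc V X (Cτ τ) → Prop}
    (hP : ∀ E E', Pτ (V := V) t f τ E E' → P E E') {l : List Dig} (ho : OddC K l) :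
    Z D F m (Add P (lit t f (xl τ i)) (rol t)) Nil l := by
  intro Γ κ H hi
  have h1 := hi.pth _ _ (Or.inl (hP _ _ ⟨i, rfl, rfl⟩) :
    Add P (lit t f (xl τ i)) (rol t) (lit t f (fun β => β.1 i)) (rol (sg t f (τ i))))
  have h2 := hi.pth (lit t f (xl τ i)) (rol t) (Or.inr ⟨rfl, rfl⟩)
  cases hτ : τ i with
  | false =>
    have e : (lit t f (xl τ i) : Dsc V X (Cτ τ)) = lit t f (fun β => β.1 i) := by
      congr 1
      funext β
      simp [xl, hτ]
    rw [e] at h2
    rw [hτ] at h1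
    refine ho.use (r := m + 1 + m) (by omega) (by omega)
      (x := Γ.el κ (lit t f (fun β => β.1 i))) ?_
    exact (h1.trans (hi.tf htf hft).symm).trans h2.symm
  | true =>
    rw [hτ] at h1
    refine ho.use (r := m + m + 1) (by omega) (by omega)
      (x := Γ.el κ (lit t f (fun β => β.1 i))) ?_
    refine (h1.trans h2.symm).trans (hi.neg htf hft (fun β => β.1 i) (xl τ i) fun β => ?_).symm
    simp [xl, hτ]

private theorem xstep {V X : Type} {D : V → V → Prop} {F : X → X → Prop} {m L K : ℕ}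
    (hm : m = 2 * L + 2) (hW : Wlk D L) (hK : 2 * m + 5 ≤ K) {t f : X} (htf : F t f)
    (hft : F f t) (τ : Fin 3 → Bool) (i : Fin 3) {P : Dsc V X (Cτ τ) → Dsc V X (Cτ τ) → Prop}
    (hP : ∀ E E', Pτ (V := V) t f τ E E' → P E E') :
    Der (BC L) (fun l => OddC K l ∧ Z D F m (Add P (lit t f (xl τ i)) (rol f)) Nil l)
      (fun l => OddC K l ∧ Z D F m P Nil l) := by
  have h := (branch hm hW htf hft P Nil (lit t f (xl τ i))).pre
    (P' := fun l => OddC K l ∧ Z D F m (Add P (lit t f (xl τ i)) (rol f)) Nil l)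
    (fun l _ hl => ⟨close_t hK htf hft τ i hP hl.1, hl.2⟩)
  exact (Der.keep ((OddC.mon K).and (Z.mon _ _ _ _ _)) h).post (fun l _ hl => ⟨hl.1.1, hl.2⟩)

theorem xfacts {V X : Type} {D : V → V → Prop} {F : X → X → Prop} {m L K : ℕ}
    (hm : m = 2 * L + 2) (hW : Wlk D L) (hK : 2 * m + 5 ≤ K) {t f : X} (htf : F t f)
    (hft : F f t) (τ : Fin 3 → Bool) :
    Der (3 * BC L) (fun l => OddC K l ∧ Z D F m (PX (V := V) t f τ) Nil l)
      (Z D F m (Pτ (V := V) t f τ) Nil) := by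
  set P0 : Dsc V X (Cτ τ) → Dsc V X (Cτ τ) → Prop := Pτ (V := V) t f τ with hP0
  set P1 := Add P0 (lit t f (xl τ 0)) (rol f) with hP1
  set P2 := Add P1 (lit t f (xl τ 1)) (rol f) with hP2
  have s2 := xstep (D := D) (F := F) (K := K) hm hW hK htf hft τ 2 (P := P2)
    (fun E E' h => Or.inl (Or.inl h))
  have s1 := xstep (D := D) (F := F) (K := K) hm hW hK htf hft τ 1 (P := P1) (fun E E' h => Or.inl h)
  have s0 := xstep (D := D) (F := F) (K := K) hm hW hK htf hft τ 0 (P := P0) (fun E E' h => h)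
  have h := ((s2.trans s1).trans s0).up (c' := 3 * BC L) (by omega)
  refine (h.pre (fun l _ hl => ⟨hl.1, hl.2.le ?_ (fun _ _ h => h)⟩)).post (fun l _ hl => hl.2)
  rintro E E' (h | ⟨i, rfl, rfl⟩)
  · exact Or.inl (Or.inl (Or.inl h))
  · have hi : i = 0 ∨ i = 1 ∨ i = 2 := by omega
    rcases hi with rfl | rfl | rfl
    · exact Or.inl (Or.inl (Or.inr ⟨rfl, rfl⟩))
    · exact Or.inl (Or.inr ⟨rfl, rfl⟩)
    · exact Or.inr ⟨rfl, rfl⟩

end H3P
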